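import Pool.Agent.Lib.MP_71be78_ag.PolyBase

/-!
# Augmented Čech complexes of coefficient systems
-/

set_option linter.unusedSectionVars false

namespace Pool.Agent.Lib.MP_71be78_ag

open Finset

section general
variable {σ : Type*} {k : Type*} [Field k] {M : Type*} [AddCommGroup M] [Module k M]

/-- the Čech differential -/
def cd {n : ℕ} (h : (Fin n → σ) → M) (b : Fin (n + 1) → σ) : M :=
  ∑ j : Fin (n + 1), (-1 : ℤ) ^ (j : ℕ) • h (fun i => b (j.succAbove i))

lemma cd_add {n : ℕ} (h h' : (Fin n → σ) → M) : cd (h + h') = cd h + cd h' := by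
  funext b
  simp only [cd, Pi.add_apply, smul_add, Finset.sum_add_distrib]

lemma cd_sub {n : ℕ} (h h' : (Fin n → σ) → M) : cd (h - h') = cd h - cd h' := by
  funext b
  simp only [cd, Pi.sub_apply, smul_sub, Finset.sum_sub_distrib]

lemma cd_zero {n : ℕ} : cd (0 : (Fin n → σ) → M) = 0 := by
  funext b
  simp [cd]

lemma cd_map {M' : Type*} [AddCommGroup M'] [Module k M'] (F : M →ₗ[k] M') {n : ℕ}
    (h : (Fin n → σ) → M) (b : Fin (n + 1) → σ) : cd (fun b => F (h b)) b = F (cd h b) := by
  simp only [cd, map_sum, map_zsmul]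

lemma cd_mem {S : Submodule k M} {n : ℕ} {h : (Fin n → σ) → M} (b : Fin (n + 1) → σ)
    (hh : ∀ j : Fin (n + 1), h (fun i => b (j.succAbove i)) ∈ S) : cd h b ∈ S := by
  unfold cd
  apply Submodule.sum_mem
  intro j _
  exact zsmul_mem (hh j) _

/-- the cone formula -/
lemma cd_cons {n : ℕ} (h : (Fin (n + 1) → σ) → M) (a : σ) (b : Fin (n + 1) → σ) :
    cd h (Fin.cons a b) = h b - cd (fun b' : Fin n → σ => h (Fin.cons a b')) b := by
  unfold cd
  rw [Fin.sum_univ_succ, sub_eq_add_neg, ← Finset.sum_neg_distrib]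
  congr 1
  · simp
  · apply Finset.sum_congr rfl
    intro j _
    have h1 : (fun i => (Fin.cons a b : Fin (n + 2) → σ) (j.succ.succAbove i)) =
        Fin.cons a (fun i => b (j.succAbove i)) := by
      funext i
      refine Fin.cases ?_ (fun i => ?_) i
      · simp
      · simp [Fin.succ_succAbove_succ]
    rw [h1, Fin.val_succ, pow_succ, mul_neg_one, neg_smul]

lemma cd_cd : ∀ {n : ℕ} (h : (Fin n → σ) → M), cd (cd h) = 0 := by
  intro n
  induction n with
  | zero =>
    intro h
    funext b
    obtain ⟨a, b', rfl⟩ : ∃ a b', b = Fin.cons a b' := ⟨b 0, Fin.tail b, (Fin.cons_self_tail b).symm⟩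
    rw [cd_cons]
    have : ∀ x : Fin 1 → σ, cd h x = h Fin.elim0 := by
      intro x
      simp only [cd, Fin.sum_univ_succ, Fin.val_zero, pow_zero, one_smul, Finset.univ_eq_empty,
        Finset.sum_empty, add_zero]
      congr 1
      funext i
      exact i.elim0
    rw [this]
    simp only [cd, Fin.sum_univ_succ, Fin.val_zero, pow_zero, one_smul, Finset.univ_eq_empty,
        Finset.sum_empty, add_zero]
    rw [Pi.zero_apply, sub_eq_zero]
    congr 1
    funext i
    exact i.elim0
  | succ n ih =>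
    intro h
    funext b
    obtain ⟨a, b', rfl⟩ : ∃ a b', b = Fin.cons a b' := ⟨b 0, Fin.tail b, (Fin.cons_self_tail b).symm⟩
    rw [cd_cons]
    have h1 : (fun b'' : Fin (n + 1) → σ => cd h (Fin.cons a b'')) =
        h - cd (fun b'' : Fin n → σ => h (Fin.cons a b'')) := by
      funext b''
      rw [cd_cons, Pi.sub_apply]
    rw [h1, cd_sub, ih, sub_zero, Pi.zero_apply, sub_self]

/-- exactness of the augmented Čech complex of a coefficient system -/
def CExact (A : Set σ → Submodule k M) : Prop :=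
  ∀ (n : ℕ) (c : (Fin (n + 1) → σ) → M), (∀ b, c b ∈ A (Set.range b)) → cd c = 0 →
    ∃ h : (Fin n → σ) → M, (∀ b, h b ∈ A (Set.range b)) ∧ cd h = c

/-- exactness passes to quotients -/
lemma CExact.quot {M' M'' : Type*} [AddCommGroup M'] [Module k M'] [AddCommGroup M'']
    [Module k M''] {A' : Set σ → Submodule k M'} {A : Set σ → Submodule k M}
    (hA' : CExact A') (hA : CExact A) (hmono : Monotone A) (F : M' →ₗ[k] M) (hF : Function.Injective F)
    (hFA : ∀ J, ∀ v ∈ A' J, F v ∈ A J) (ev : M →ₗ[k] M'') (hev : ∀ v, ev (F v) = 0)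
    (hker : ∀ J, ∀ u ∈ A J, ev u = 0 → ∃ v ∈ A' J, u = F v) :
    CExact (fun J => (A J).map ev) := by
  intro n c hc hcc
  choose ct hct1 hct2 using fun b => (Submodule.mem_map.mp (hc b))
  -- the differential of the lift
  have h1 : ∀ b : Fin (n + 2) → σ, ∃ v ∈ A' (Set.range b), cd ct b = F v := by
    intro b
    apply hker
    · apply cd_mem
      intro j
      have h2 := hct1 (fun i => b (j.succAbove i))
      have h3 : Set.range (fun i => b (j.succAbove i)) ⊆ Set.range b := by
        rintro _ ⟨i, rfl⟩; exact ⟨_, rfl⟩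
      exact hmono h3 h2
    · rw [← cd_map]
      have : (fun b => ev (ct b)) = c := funext hct2
      rw [this, hcc, Pi.zero_apply]
  choose g hg1 hg2 using h1
  have h2 : cd g = 0 := by
    funext b
    apply hF
    rw [← cd_map, Pi.zero_apply, map_zero]
    have : (fun b => F (g b)) = cd ct := funext fun b => (hg2 b).symm
    rw [this, cd_cd, Pi.zero_apply]
  obtain ⟨g', hg'1, hg'2⟩ := hA' (n + 1) g hg1 h2
  obtain ⟨ht, hht1, hht2⟩ := hA n (fun b => ct b - F (g' b))
    (fun b => Submodule.sub_mem _ (hct1 b) (hFA _ _ (hg'1 b))) (by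
      have : (fun b => ct b - F (g' b)) = ct - (fun b => F (g' b)) := rfl
      rw [this, cd_sub]
      funext b
      rw [Pi.sub_apply, cd_map, hg'2, hg2, sub_self, Pi.zero_apply])
  refine ⟨fun b => ev (ht b), fun b => Submodule.mem_map_of_mem (hht1 b), ?_⟩
  funext b
  rw [cd_map, hht2, map_sub, hev, sub_zero, hct2]

end general

section laurent
variable {σ : Type*} [Fintype σ] [DecidableEq σ] {k : Type*} [Field k]

/-- the Laurent polynomial ring -/
abbrev Lau (σ : Type*) (k : Type*) [Field k] := AddMonoidAlgebra k (σ → ℤ)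

/-- homogeneous Laurent polynomials of degree `d` with denominators only in the variables of `J` -/
def LH (σ : Type*) [Fintype σ] (k : Type*) [Field k] (d : ℤ) (J : Set σ) :
    Submodule k (Lau σ k) where
  carrier := {u | ∀ γ : σ → ℤ, u.coeff γ ≠ 0 → (∑ a, γ a = d ∧ ∀ a, a ∉ J → 0 ≤ γ a)}
  zero_mem' := by intro γ h; simp at h
  add_mem' := by
    intro u v hu hv γ h
    by_cases h1 : u.coeff γ = 0
    · apply hv γ
      rw [AddMonoidAlgebra.coeff_add, Finsupp.add_apply, h1, zero_add] at h
      exact h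
    · exact hu γ h1
  smul_mem' := by
    intro c u hu γ h
    apply hu γ
    intro h1
    rw [AddMonoidAlgebra.coeff_smul, Finsupp.smul_apply, h1] at h
    simp at h

lemma mem_LH {d : ℤ} {J : Set σ} {u : Lau σ k} : u ∈ LH σ k d J ↔
    ∀ γ : σ → ℤ, u.coeff γ ≠ 0 → (∑ a, γ a = d ∧ ∀ a, a ∉ J → 0 ≤ γ a) := Iff.rfl

lemma LH_mono (d : ℤ) : Monotone (LH σ k d) := by
  intro J J' h u hu γ hγ
  obtain ⟨h1, h2⟩ := hu γ hγ
  exact ⟨h1, fun a ha => h2 a (fun h3 => ha (h h3))⟩

/-- selector of a coordinate with non-negative exponent -/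
noncomputable def sel (a0 : σ) (γ : σ → ℤ) : σ := by
  classical
  exact if h : ∃ a, 0 ≤ γ a then h.choose else a0

lemma sel_spec (a0 : σ) (γ : σ → ℤ) (h : ∃ a, 0 ≤ γ a) : 0 ≤ γ (sel a0 γ) := by
  unfold sel
  rw [dif_pos h]
  exact h.choose_spec

/-- the part of a Laurent polynomial with selector `a` -/
noncomputable def part (a0 a : σ) : Lau σ k →ₗ[k] Lau σ k where
  toFun u := .ofCoeff (u.coeff.filter (fun γ => sel a0 γ = a))
  map_add' u v := by
    rw [AddMonoidAlgebra.coeff_add, Finsupp.filter_add, AddMonoidAlgebra.ofCoeff_add]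
  map_smul' c u := by
    rw [AddMonoidAlgebra.coeff_smul, Finsupp.filter_smul, AddMonoidAlgebra.ofCoeff_smul]
    rfl

lemma part_coeff (a0 a : σ) (u : Lau σ k) (γ : σ → ℤ) :
    (part a0 a u).coeff γ = if sel a0 γ = a then u.coeff γ else 0 := by
  show (u.coeff.filter (fun γ => sel a0 γ = a)) γ = _
  rw [Finsupp.filter_apply]

lemma sum_part (a0 : σ) (u : Lau σ k) : ∑ a, part a0 a u = u := by
  apply AddMonoidAlgebra.ext
  ext γ
  rw [AddMonoidAlgebra.coeff_sum, Finsupp.finsetSum_apply,
    Finset.sum_congr rfl (fun a _ => part_coeff a0 a u γ)]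
  simp

theorem LH_exact [Nonempty σ] {d : ℤ} (hd : -(Fintype.card σ : ℤ) < d) :
    CExact (LH σ k d) := by
  intro n c hc hcc
  obtain ⟨a0⟩ := ‹Nonempty σ›
  refine ⟨fun b => ∑ a, part a0 a (c (Fin.cons a b)), ?_, ?_⟩
  · intro b
    apply Submodule.sum_mem
    intro a _ γ hγ
    rw [part_coeff] at hγ
    by_cases hs : sel a0 γ = a
    · rw [if_pos hs] at hγ
      obtain ⟨h1, h2⟩ := hc _ γ hγ
      refine ⟨h1, fun a' ha' => ?_⟩
      by_cases haa : a' = a
      · rw [haa, ← hs]
        apply sel_spec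
        by_contra hne
        push Not at hne
        have : ∑ a, γ a ≤ ∑ _a : σ, (-1 : ℤ) := Finset.sum_le_sum fun a _ => by
          have := hne a; omega
        rw [h1] at this
        simp at this
        omega
      · apply h2
        rintro ⟨i, hi⟩
        revert hi
        refine Fin.cases ?_ (fun i => ?_) i
        · intro hi; rw [Fin.cons_zero] at hi; exact haa hi.symm
        · intro hi; rw [Fin.cons_succ] at hi; exact ha' ⟨i, hi⟩
    · rw [if_neg hs] at hγ
      exact absurd rfl hγ
  · funext b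
    have h1 : ∀ a, cd (fun b' : Fin n → σ => c (Fin.cons a b')) b = c b := by
      intro a
      have := congrFun hcc (Fin.cons a b)
      rw [cd_cons, Pi.zero_apply, sub_eq_zero] at this
      exact this.symm
    have h2 : (fun b : Fin n → σ => ∑ a, part a0 a (c (Fin.cons a b))) =
        ∑ a, (fun b : Fin n → σ => part a0 a (c (Fin.cons a b))) := by
      funext b'
      rw [Finset.sum_apply]
    have h3 : ∀ (s : Finset σ) (G : σ → (Fin n → σ) → Lau σ k), cd (∑ a ∈ s, G a) = ∑ a ∈ s, cd (G a) := by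
      intro s G
      induction s using Finset.induction_on with
      | empty => simp [cd_zero]
      | insert a s ha ih => rw [Finset.sum_insert ha, Finset.sum_insert ha, cd_add, ih]
    rw [h2, h3, Finset.sum_apply]
    rw [Finset.sum_congr rfl (fun a _ => by rw [cd_map (part a0 a), h1 a]), sum_part]

end laurent

end Pool.Agent.Lib.MP_71be78_ag
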