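import Pool.Agent.Lib.MP_71be78_ag.LemT

/-!
# The splitting operators
-/

set_option linter.unusedSectionVars false

namespace Pool.Agent.Lib.MP_71be78_ag

open MvPolynomial Finset

variable {k : Type*} [Field k]

/-- generalized inverse of a linear map on a subspace -/
lemma gen_inv {V U : Type*} [AddCommGroup V] [Module k V] [AddCommGroup U] [Module k U]
    (E : V →ₗ[k] U) (W : Submodule k V) :
    ∃ s : U →ₗ[k] V, (∀ y, s y ∈ W) ∧ ∀ u ∈ W, E (s (E u)) = E u := by
  set EW : W →ₗ[k] U := E.comp W.subtype with hEW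
  obtain ⟨r, hr⟩ := EW.rangeRestrict.exists_rightInverse_of_surjective
    (LinearMap.range_rangeRestrict EW)
  obtain ⟨g, hg⟩ := LinearMap.exists_extend r
  refine ⟨W.subtype.comp g, fun y => (g y).2, ?_⟩
  intro u hu
  have h1 : g (E u) = r ⟨E u, ⟨⟨u, hu⟩, rfl⟩⟩ := by
    have := LinearMap.congr_fun hg ⟨E u, ⟨⟨u, hu⟩, rfl⟩⟩
    simpa using this
  have h2 := congrArg Subtype.val (LinearMap.congr_fun hr ⟨E u, ⟨⟨u, hu⟩, rfl⟩⟩)
  simp only [LinearMap.comp_apply, Submodule.subtype_apply, LinearMap.id_apply] at h2 ⊢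
  rw [h1]
  exact h2

section ov
variable {σ : Type*} [Fintype σ]

/-- polynomials of degree `d` in the ideal of `p`-th powers of the variables -/
def Ov (k : Type*) [Field k] (σ : Type*) [Fintype σ] (p : ℕ) (d : ℤ) :
    Submodule k (MvPolynomial σ k) where
  carrier := {u | ∃ w : σ → MvPolynomial σ k, (∀ a, w a ∈ Hg k σ (d - p)) ∧
    u = ∑ a, X a ^ p * w a}
  zero_mem' := ⟨0, fun a => Submodule.zero_mem _, by simp⟩
  add_mem' := by
    rintro _ _ ⟨w, hw, rfl⟩ ⟨w', hw', rfl⟩
    refine ⟨w + w', fun a => Submodule.add_mem _ (hw a) (hw' a), ?_⟩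
    rw [← Finset.sum_add_distrib]
    apply Finset.sum_congr rfl
    intro a _
    rw [Pi.add_apply, mul_add]
  smul_mem' := by
    rintro c _ ⟨w, hw, rfl⟩
    refine ⟨c • w, fun a => Submodule.smul_mem _ c (hw a), ?_⟩
    rw [Finset.smul_sum]
    apply Finset.sum_congr rfl
    intro a _
    rw [Pi.smul_apply, mul_smul_comm]

lemma mem_Ov {p : ℕ} {d : ℤ} {u : MvPolynomial σ k} : u ∈ Ov k σ p d ↔
    ∃ w : σ → MvPolynomial σ k, (∀ a, w a ∈ Hg k σ (d - p)) ∧ u = ∑ a, X a ^ p * w a := Iff.rfl

lemma mem_Ov_of {p : ℕ} {d : ℤ} {u : MvPolynomial σ k} (hu : u ∈ Hg k σ d)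
    (h0 : ∀ γ, inBox p γ → coeff γ u = 0) : u ∈ Ov k σ p d := by
  classical
  rw [as_sum u]
  apply Submodule.sum_mem
  intro γ hγ
  rw [mono_eq]
  apply Submodule.smul_mem
  have h1 : ¬ inBox p γ := by
    intro h
    rw [mem_support_iff] at hγ
    exact hγ (h0 γ h)
  have h1' : ∃ a, p ≤ γ a := by
    by_contra hne
    push Not at hne
    exact h1 hne
  obtain ⟨a, ha⟩ := h1'
  have hd : dg γ = d := hu γ (by rwa [mem_support_iff] at hγ)
  have hγ' : Finsupp.single a p + (γ - Finsupp.single a p) = γ := by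
    apply add_tsub_cancel_of_le
    rw [Finsupp.single_le_iff]
    exact ha
  refine ⟨fun b => if b = a then monomial (γ - Finsupp.single a p) 1 else 0, ?_, ?_⟩
  · intro b
    by_cases hb : b = a
    · simp only [hb, if_true]
      apply monomial_mem_Hg'
      have := congrArg dg hγ'
      rw [dg_add, dg_single] at this
      linarith
    · simp only [hb, if_false]
      exact Submodule.zero_mem _
  · rw [Finset.sum_eq_single a]
    · dsimp only
      rw [if_pos rfl, X_pow_eq_monomial, monomial_mul, one_mul, hγ']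
    · intro b _ hb
      dsimp only
      rw [if_neg hb, mul_zero]
    · simp

lemma map_Ov {p : ℕ} {d δ : ℤ} {B : MvPolynomial σ k →ₗ[k] MvPolynomial σ k} (hB : QL p B)
    (hD : DG δ B) {u : MvPolynomial σ k} (hu : u ∈ Ov k σ p d) : B u ∈ Ov k σ p (d + δ) := by
  obtain ⟨w, hw, rfl⟩ := hu
  refine ⟨fun a => B (w a), fun a => ?_, ?_⟩
  · have := hD _ _ (hw a)
    convert this using 2
    ring
  · rw [map_sum]
    apply Finset.sum_congr rfl
    intro a _
    rw [hB]

end ov

theorem lemS {p : ℕ} [Fact p.Prime] [CharP k p] (ρ : ℕ) (hρ : p = 2 * ρ + 1) (n : ℕ) :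
    ∃ ψ : MvPolynomial (Ix n) k →ₗ[k] MvPolynomial (Ix n) k, QL p ψ ∧ DG (-2) ψ ∧
      ∀ γ, inBox p γ → ∃ v, ∃ w ∈ Ov k (Ix n) p (dg γ),
        (if dg γ = n * (p - 1) + ρ then 0 else monomial γ (1 : k)) =
          ψ (qf k n * monomial γ 1) + qf k n * v + w := by
  classical
  have hp : 0 < p := (Fact.out : p.Prime).pos
  set E : MvPolynomial (Ix n) k →ₗ[k] MvPolynomial (Ix n) k :=
    (tr p).comp (LinearMap.mulLeft k (qf k n)) with hE
  choose s hs1 hs2 using fun j : ℤ => gen_inv E (Hg k (Ix n) j)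
  set ℓ : ℤ := n * (p - 1) + ρ with hℓ
  set ψ := lin p (fun γ : Ix n →₀ ℕ => if dg γ - 2 = ℓ then (0 : MvPolynomial (Ix n) k)
    else s (dg γ - 2) (monomial γ 1)) with hψ
  have hψ1 : QL p ψ := lin_QL hp _
  have hψ2 : DG (-2) ψ := by
    apply lin_DG hp
    intro γ _
    by_cases h : dg γ - 2 = ℓ
    · rw [if_pos h]; exact Submodule.zero_mem _
    · rw [if_neg h]; exact hs1 _ _
  -- value on the truncation
  have hψ3 : ∀ j : ℤ, j ≠ ℓ → ∀ u ∈ Hg k (Ix n) (j + 2), ψ (tr p u) = s j (tr p u) := by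
    intro j hj u hu
    have : (ψ.comp (tr p)) u = ((s j).comp (tr p)) u := by
      apply eq_on_Hg _ hu
      intro γ hγ
      simp only [LinearMap.comp_apply]
      by_cases hb : inBox p γ
      · rw [tr_box hb, hψ, lin_box _ hb]
        have : dg γ - 2 = j := by linarith
        rw [this, if_neg hj]
      · rw [tr_not_box hb, map_zero, map_zero]
    exact this
  have hψ4 : ∀ u ∈ Hg k (Ix n) (ℓ + 2), ψ (tr p u) = 0 := by
    intro u hu
    have : (ψ.comp (tr p)) u = (0 : MvPolynomial (Ix n) k →ₗ[k] MvPolynomial (Ix n) k) u := by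
      apply eq_on_Hg _ hu
      intro γ hγ
      simp only [LinearMap.comp_apply]
      by_cases hb : inBox p γ
      · rw [tr_box hb, hψ, lin_box _ hb]
        have : dg γ - 2 = ℓ := by linarith
        rw [if_pos this, LinearMap.zero_apply]
      · rw [tr_not_box hb, map_zero, LinearMap.zero_apply]
    exact this
  refine ⟨ψ, hψ1, hψ2, ?_⟩
  intro γ hγ
  have hf : qf k n * monomial γ 1 ∈ Hg k (Ix n) (dg γ + 2) := by
    have := mul_mem_Hg (qf_mem_Hg (k := k) n) (monomial_mem_Hg γ (1 : k))
    rwa [add_comm] at this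
  have hov : qf k n * monomial γ 1 - tr p (qf k n * monomial γ 1) ∈ Ov k (Ix n) p (dg γ + 2) := by
    apply mem_Ov_of
    · exact Submodule.sub_mem _ hf (tr_mem_Hg hf)
    · intro β hβ
      rw [coeff_sub, (coeff_tr _ _ _).1 hβ, sub_self]
  have hov2 := map_Ov hψ1 hψ2 hov
  rw [map_sub, show dg γ + 2 + -2 = dg γ by ring] at hov2
  by_cases hd : dg γ = ℓ
  · refine ⟨0, -(ψ (qf k n * monomial γ 1) - ψ (tr p (qf k n * monomial γ 1))),
      Submodule.neg_mem _ hov2, ?_⟩
    rw [if_pos hd, hψ4 _ (hd ▸ hf)]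
    ring
  · have h3 := hψ3 _ hd _ hf
    set r := (monomial γ (1 : k)) - s (dg γ) (tr p (qf k n * monomial γ 1)) with hr
    have hr1 : r ∈ Hg k (Ix n) (dg γ) := Submodule.sub_mem _ (monomial_mem_Hg γ 1) (hs1 _ _)
    have hr2 : E r = 0 := by
      have h4 := hs2 (dg γ) _ (monomial_mem_Hg γ (1 : k))
      have h5 : E (monomial γ (1 : k)) = tr p (qf k n * monomial γ 1) := by
        rw [hE, LinearMap.comp_apply, LinearMap.mulLeft_apply]
      rw [hr, map_sub, ← h5, h4, sub_self]
    have hr3 : ∀ β, inBox p β → coeff β (qf k n * r) = 0 := by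
      intro β hβ
      rw [← (coeff_tr p (qf k n * r) β).1 hβ]
      have : tr p (qf k n * r) = E r := by
        rw [hE, LinearMap.comp_apply, LinearMap.mulLeft_apply]
      rw [this, hr2, coeff_zero]
    obtain ⟨v, hv, hv2⟩ := lemT ρ hρ n hd hr1 hr3
    have hv3 : r - qf k n * v ∈ Ov k (Ix n) p (dg γ) := by
      apply mem_Ov_of _ hv2
      apply Submodule.sub_mem _ hr1
      have := mul_mem_Hg (qf_mem_Hg (k := k) n) hv
      rwa [show 2 + (dg γ - 2) = dg γ by ring] at this
    refine ⟨v, (r - qf k n * v) - (ψ (qf k n * monomial γ 1) - ψ (tr p (qf k n * monomial γ 1))),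
      Submodule.sub_mem _ hv3 hov2, ?_⟩
    rw [if_neg hd, h3, hr]
    ring

section ops
variable {σ : Type*} [Fintype σ]

lemma QL.comp {q : ℕ} {A B : MvPolynomial σ k →ₗ[k] MvPolynomial σ k} (hA : QL q A)
    (hB : QL q B) : QL q (A.comp B) := by
  intro a g
  rw [LinearMap.comp_apply, LinearMap.comp_apply, hB, hA]

lemma QL.mulLeft (q : ℕ) (h : MvPolynomial σ k) : QL q (LinearMap.mulLeft k h) := by
  intro a g
  simp only [LinearMap.mulLeft_apply]
  ring

lemma QL.add {q : ℕ} {A B : MvPolynomial σ k →ₗ[k] MvPolynomial σ k} (hA : QL q A)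
    (hB : QL q B) : QL q (A + B) := by
  intro a g
  rw [LinearMap.add_apply, LinearMap.add_apply, hB, hA, mul_add]

lemma QL.zero (q : ℕ) : QL q (0 : MvPolynomial σ k →ₗ[k] MvPolynomial σ k) := by
  intro a g
  simp

lemma QL.smul {q : ℕ} {A : MvPolynomial σ k →ₗ[k] MvPolynomial σ k} (c : k) (hA : QL q A) :
    QL q (c • A) := by
  intro a g
  rw [LinearMap.smul_apply, LinearMap.smul_apply, hA, mul_smul_comm]

lemma QL.sum {q : ℕ} {ι : Type*} (s : Finset ι) {A : ι → MvPolynomial σ k →ₗ[k] MvPolynomial σ k}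
    (hA : ∀ i ∈ s, QL q (A i)) : QL q (∑ i ∈ s, A i) := by
  intro a g
  rw [LinearMap.sum_apply, LinearMap.sum_apply, Finset.mul_sum]
  exact Finset.sum_congr rfl fun i hi => hA i hi a g

lemma DG.comp {δ ε : ℤ} {A B : MvPolynomial σ k →ₗ[k] MvPolynomial σ k} (hA : DG δ A)
    (hB : DG ε B) : DG (δ + ε) (A.comp B) := by
  intro d u hu
  have := hA _ _ (hB _ _ hu)
  rw [LinearMap.comp_apply]
  convert this using 2
  ring

lemma DG.mulLeft {δ : ℤ} {h : MvPolynomial σ k} (hh : h ∈ Hg k σ δ) :
    DG δ (LinearMap.mulLeft k h) := by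
  intro d u hu
  rw [LinearMap.mulLeft_apply, add_comm]
  exact mul_mem_Hg hh hu

lemma DG.add {δ : ℤ} {A B : MvPolynomial σ k →ₗ[k] MvPolynomial σ k} (hA : DG δ A)
    (hB : DG δ B) : DG δ (A + B) := by
  intro d u hu
  exact Submodule.add_mem _ (hA _ _ hu) (hB _ _ hu)

lemma DG.zero (δ : ℤ) : DG δ (0 : MvPolynomial σ k →ₗ[k] MvPolynomial σ k) := by
  intro d u hu
  exact Submodule.zero_mem _

lemma DG.smul {δ : ℤ} {A : MvPolynomial σ k →ₗ[k] MvPolynomial σ k} (c : k) (hA : DG δ A) :
    DG δ (c • A) := by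
  intro d u hu
  exact Submodule.smul_mem _ _ (hA _ _ hu)

lemma DG.sum {δ : ℤ} {ι : Type*} (s : Finset ι) {A : ι → MvPolynomial σ k →ₗ[k] MvPolynomial σ k}
    (hA : ∀ i ∈ s, DG δ (A i)) : DG δ (∑ i ∈ s, A i) := by
  intro d u hu
  rw [LinearMap.sum_apply]
  exact Submodule.sum_mem _ fun i hi => hA i hi d u hu

lemma DG.pderiv (a : σ) : DG (-1) (pderiv (R := k) a).toLinearMap := by
  classical
  intro d u hu
  apply map_Hg _ hu
  intro γ hγ
  rw [Derivation.coeFn_coe, pderiv_monomial]
  by_cases h : γ a = 0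
  · rw [h]
    simp
  · apply monomial_mem_Hg'
    have h1 : (γ - Finsupp.single a 1) + Finsupp.single a 1 = γ := by
      apply tsub_add_cancel_of_le
      rw [Finsupp.single_le_iff]
      omega
    have h2 := congrArg dg h1
    rw [dg_add, dg_single] at h2
    push_cast at h2
    linarith

lemma QL.pderiv (p : ℕ) [CharP k p] (a : σ) : QL p (pderiv (R := k) a).toLinearMap := by
  intro b g
  simp only [Derivation.coeFn_coe]
  rw [Derivation.leibniz, Derivation.leibniz_pow]
  have : (p : ℕ) • ((X b : MvPolynomial σ k) ^ (p - 1) •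
      (MvPolynomial.pderiv (R := k) a) (X b : MvPolynomial σ k)) = 0 := by
    rw [← Nat.cast_smul_eq_nsmul k, CharP.cast_eq_zero, zero_smul]
  rw [this, smul_zero, add_zero, smul_eq_mul]

end ops

lemma qf_pow {p : ℕ} [Fact p.Prime] [CharP k p] (n : ℕ) :
    (qf k n) ^ p = MvPolynomial.expand p (qf k n) := by
  unfold qf
  rw [add_pow_char, sum_pow_char, map_add, map_sum, map_pow, expand_X]
  congr 1
  · apply Finset.sum_congr rfl
    intro i _
    rw [map_mul, expand_X, expand_X, mul_pow]
  · rw [← pow_mul, ← pow_mul, mul_comm]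

/-- the splitting property at the degree class of `m` -/
def VV (k : Type*) [Field k] (p n : ℕ) (m : ℤ) : Prop :=
  ∃ s : ℕ, ∃ B : MvPolynomial (Ix n) k →ₗ[k] MvPolynomial (Ix n) k, QL (p ^ s) B ∧ DG (-2) B ∧
    ∀ γ, ((p ^ s : ℕ) : ℤ) ∣ dg γ - m →
      qf k n ∣ monomial γ 1 - B (qf k n * monomial γ 1)

/-- dual coordinate -/
def dual {n : ℕ} : Ix n → Ix n
  | Sum.inl i => Sum.inr (Sum.inl i)
  | Sum.inr (Sum.inl i) => Sum.inl i
  | Sum.inr (Sum.inr u) => Sum.inr (Sum.inr u)

/-- the normalizing constants: `cst a • ∂_{a*} f = X a` -/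
noncomputable def cst (k : Type*) [Field k] {n : ℕ} : Ix n → k
  | Sum.inl _ => 1
  | Sum.inr (Sum.inl _) => 1
  | Sum.inr (Sum.inr _) => 1 / 2

lemma pderiv_qf_x {n : ℕ} (i : Fin n) : pderiv (Sum.inl i) (qf k n) = X (Sum.inr (Sum.inl i)) := by
  classical
  unfold qf
  rw [map_add, map_sum, Finset.sum_eq_single i]
  · simp [pderiv_X]
  · intro j _ hj
    simp [pderiv_X, hj]
  · simp

lemma pderiv_qf_y {n : ℕ} (i : Fin n) : pderiv (Sum.inr (Sum.inl i)) (qf k n) = X (Sum.inl i) := by
  classical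
  unfold qf
  rw [map_add, map_sum, Finset.sum_eq_single i]
  · simp [pderiv_X]
  · intro j _ hj
    simp [pderiv_X, hj]
  · simp

lemma pderiv_qf_z {n : ℕ} (u : Unit) :
    pderiv (Sum.inr (Sum.inr u)) (qf k n) = 2 * X (Sum.inr (Sum.inr u)) := by
  classical
  unfold qf
  rw [map_add, map_sum, Finset.sum_eq_zero]
  · simp [pderiv_X, Derivation.leibniz_pow]
  · intro j _
    simp [pderiv_X]

lemma cst_pderiv (h2 : (2 : k) ≠ 0) {n : ℕ} (a : Ix n) :
    cst k a • pderiv (dual a) (qf k n) = X a := by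
  rcases a with a | a | a
  · simp only [cst, dual, one_smul, pderiv_qf_y]
  · simp only [cst, dual, one_smul, pderiv_qf_x]
  · simp only [cst, dual, pderiv_qf_z]
    rw [smul_eq_C_mul, ← mul_assoc]
    have : (2 : MvPolynomial (Ix n) k) = C 2 := (map_ofNat C 2).symm
    rw [this, ← C_mul, one_div, inv_mul_cancel₀ h2, C_1, one_mul]

lemma raise_pderiv_one {σ : Type*} [Fintype σ] {q : ℕ} (z : σ) (γ : σ →₀ ℕ) :
    raise q (fun _ => (pderiv (R := k) z).toLinearMap) (monomial γ 1) =
      monomial (γ - Finsupp.single z q) ((γ z / q : ℕ) : k) := by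
  classical
  rw [raise_one, Derivation.coeFn_coe, pderiv_monomial, expand_monomial, monomial_mul, one_mul,
    one_mul]
  by_cases h : γ z / q = 0
  · rw [qt_apply, h]
    simp
  · congr 2
    have h1 : q ≤ γ z := by
      by_contra hlt
      exact h (Nat.div_eq_of_lt (by omega))
    ext a
    by_cases ha : a = z
    · subst ha
      simp only [Finsupp.coe_add, Finsupp.coe_smul, Finsupp.coe_tsub, Pi.add_apply, rm_apply,
        Pi.smul_apply, Pi.sub_apply, qt_apply, Finsupp.single_eq_same, smul_eq_mul]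
      have h2 := Nat.mod_add_div (γ a) q
      have h3 : q * (γ a / q - 1) = q * (γ a / q) - q := by
        rw [Nat.mul_sub, mul_one]
      have h4 : q ≤ q * (γ a / q) := Nat.le_mul_of_pos_right _ (Nat.pos_of_ne_zero h)
      omega
    · simp [ha, Nat.mod_add_div]

/-- characteristic two -/
theorem VV_two [CharP k 2] (n : ℕ) (m : ℤ) : VV k 2 n m := by
  classical
  set z : Ix n := Sum.inr (Sum.inr ()) with hz
  set B := raise 2 (fun _ => (pderiv (R := k) z).toLinearMap) with hB
  refine ⟨2, B, ?_, ?_, ?_⟩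
  · have := raise_QL (q := 2) (Q := 2) (by norm_num)
      (B := fun _ => (pderiv (R := k) z).toLinearMap) (fun _ => QL.pderiv 2 z)
    exact this
  · have := raise_DG (q := 2) (δ := -1)
      (B := fun _ => (pderiv (R := k) z).toLinearMap) (fun _ => DG.pderiv z)
    norm_num at this
    exact this
  · intro γ _
    have key : ∀ u : MvPolynomial (Ix n) k, B (qf k n * u) = u + qf k n * B u := by
      intro u
      have e1 : qf k n = (∑ i : Fin n, X (Sum.inl i) * X (Sum.inr (Sum.inl i)))
        + MvPolynomial.expand 2 (X z) := by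
        unfold qf
        rw [expand_X]
      have e2 : B (MvPolynomial.expand 2 (X z) * u) = u + MvPolynomial.expand 2 (X z) * B u := by
        rw [hB, raise_leibniz (by norm_num)]
        simp
      have e3 : ∀ i : Fin n, B (X (Sum.inl i) * X (Sum.inr (Sum.inl i)) * u) =
          X (Sum.inl i) * X (Sum.inr (Sum.inl i)) * B u := by
        intro i
        have key2 : ∀ a : Ix n, a ≠ z → ∀ w, B (X a * w) = X a * B w := by
          intro a ha w
          have : B.comp (LinearMap.mulLeft k (X a)) = (LinearMap.mulLeft k (X a)).comp B := by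
            apply lin_ext
            intro β
            simp only [LinearMap.comp_apply, LinearMap.mulLeft_apply]
            rw [X, monomial_mul, one_mul, hB, raise_pderiv_one,
              raise_pderiv_one, monomial_mul, one_mul]
            have h1 : (Finsupp.single a 1 + β : Ix n →₀ ℕ) z = β z := by
              simp [Ne.symm ha]
            rw [h1]
            by_cases h2 : β z / 2 = 0
            · rw [h2]; simp
            · congr 2
              ext b
              by_cases hb : b = z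
              · subst hb; simp [ha]
              · simp [hb]
          exact LinearMap.congr_fun this w
        rw [mul_assoc, key2 _ (by rw [hz]; simp), key2 _ (by rw [hz]; simp), mul_assoc]
      rw [e1, add_mul, map_add, e2, Finset.sum_mul, map_sum, Finset.sum_congr rfl (fun i _ => e3 i),
        ← Finset.sum_mul]
      ring
    refine ⟨-B (monomial γ 1), ?_⟩
    rw [key]
    ring

/-- four times the Laplacian -/
noncomputable def lap (k : Type*) [Field k] (n : ℕ) :
    MvPolynomial (Ix n) k →ₗ[k] MvPolynomial (Ix n) k :=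
  (∑ i : Fin n, (4 : k) • ((pderiv (R := k) (Sum.inl i : Ix n)).toLinearMap.comp
    (pderiv (R := k) (Sum.inr (Sum.inl i) : Ix n)).toLinearMap)) +
  (pderiv (R := k) (Sum.inr (Sum.inr ()) : Ix n)).toLinearMap.comp
    (pderiv (R := k) (Sum.inr (Sum.inr ()) : Ix n)).toLinearMap

lemma lap_apply (n : ℕ) (u : MvPolynomial (Ix n) k) :
    lap k n u = (∑ i : Fin n, C 4 * pderiv (Sum.inl i) (pderiv (Sum.inr (Sum.inl i)) u)) +
      pderiv (Sum.inr (Sum.inr ())) (pderiv (Sum.inr (Sum.inr ())) u) := by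
  unfold lap
  rw [LinearMap.add_apply, LinearMap.sum_apply]
  congr 1
  apply Finset.sum_congr rfl
  intro i _
  rw [LinearMap.smul_apply, smul_eq_C_mul]
  rfl

lemma lap_mul {n : ℕ} (γ : Ix n →₀ ℕ) :
    lap k n (qf k n * monomial γ 1) = qf k n * lap k n (monomial γ 1) +
      ((2 * (2 * n + 1) + 4 * dg γ : ℤ) : k) • monomial γ 1 := by
  classical
  set u : MvPolynomial (Ix n) k := monomial γ 1 with hu
  have hX : ∀ a : Ix n, X a * pderiv a u = C ((γ a : ℕ) : k) * u := by
    intro a
    rw [hu, X_mul_pderiv_monomial, ← Nat.cast_smul_eq_nsmul k, smul_eq_C_mul]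
  have e1 : ∀ i : Fin n, pderiv (Sum.inl i) (pderiv (Sum.inr (Sum.inl i)) (qf k n * u)) =
      qf k n * pderiv (Sum.inl i) (pderiv (Sum.inr (Sum.inl i)) u) +
        (1 + C ((γ (Sum.inl i) : ℕ) : k) + C ((γ (Sum.inr (Sum.inl i)) : ℕ) : k)) * u := by
    intro i
    have h1 := hX (Sum.inl i)
    have h2 := hX (Sum.inr (Sum.inl i))
    simp only [Derivation.leibniz, map_add, smul_eq_mul, pderiv_qf_x, pderiv_qf_y, pderiv_X_self]
    rw [add_mul, add_mul, ← h1, ← h2]
    ring
  have e2 : pderiv (Sum.inr (Sum.inr ())) (pderiv (Sum.inr (Sum.inr ())) (qf k n * u)) =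
      qf k n * pderiv (Sum.inr (Sum.inr ())) (pderiv (Sum.inr (Sum.inr ())) u) +
        (2 + 4 * C ((γ (Sum.inr (Sum.inr ())) : ℕ) : k)) * u := by
    have h1 := hX (Sum.inr (Sum.inr ()))
    have h2 : pderiv (Sum.inr (Sum.inr ())) (2 : MvPolynomial (Ix n) k) = 0 := by
      have : (2 : MvPolynomial (Ix n) k) = C 2 := (map_ofNat C 2).symm
      rw [this, pderiv_C]
    simp only [Derivation.leibniz, map_add, smul_eq_mul, pderiv_qf_z, pderiv_X_self, h2]
    rw [add_mul, mul_assoc 4, ← h1]
    ring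
  rw [lap_apply, lap_apply, Finset.sum_congr rfl (fun i _ => by rw [e1 i]), e2]
  rw [mul_add, Finset.mul_sum, smul_eq_C_mul]
  have e3 : C (σ := Ix n) ((2 * (2 * n + 1) + 4 * dg γ : ℤ) : k) =
      (∑ i : Fin n, C 4 * (1 + C ((γ (Sum.inl i) : ℕ) : k) + C ((γ (Sum.inr (Sum.inl i)) : ℕ) : k)))
        + (2 + 4 * C ((γ (Sum.inr (Sum.inr ())) : ℕ) : k)) := by
    rw [← Finset.mul_sum, Finset.sum_add_distrib, Finset.sum_add_distrib]
    unfold dg
    simp only [Fintype.sum_sum_type, Finset.univ_unique, Finset.sum_singleton,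
      Finset.sum_const, Finset.card_univ, Fintype.card_fin]
    push_cast
    simp only [map_add, map_mul, map_sum, map_natCast, map_ofNat, map_one, nsmul_eq_mul, mul_one]
    ring
  rw [e3]
  have e4 : ∀ i : Fin n, C 4 * (qf k n * pderiv (Sum.inl i) (pderiv (Sum.inr (Sum.inl i)) u) +
        (1 + C ((γ (Sum.inl i) : ℕ) : k) + C ((γ (Sum.inr (Sum.inl i)) : ℕ) : k)) * u) =
      qf k n * (C 4 * pderiv (Sum.inl i) (pderiv (Sum.inr (Sum.inl i)) u)) +
      C 4 * (1 + C ((γ (Sum.inl i) : ℕ) : k) + C ((γ (Sum.inr (Sum.inl i)) : ℕ) : k)) * u := by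
    intro i; ring
  rw [Finset.sum_congr rfl (fun i _ => e4 i), Finset.sum_add_distrib, ← Finset.sum_mul]
  ring

lemma lap_QL (p : ℕ) [CharP k p] (n : ℕ) : QL p (lap k n) := by
  unfold lap
  apply QL.add
  · apply QL.sum
    intro i _
    apply QL.smul
    exact (QL.pderiv p _).comp (QL.pderiv p _)
  · exact (QL.pderiv p _).comp (QL.pderiv p _)

lemma lap_DG (n : ℕ) : DG (-2) (lap k n) := by
  unfold lap
  apply DG.add
  · apply DG.sum
    intro i _
    apply DG.smul
    have := (DG.pderiv (k := k) (Sum.inl i : Ix n)).comp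
      (DG.pderiv (k := k) (Sum.inr (Sum.inl i) : Ix n))
    norm_num at this
    exact this
  · have := (DG.pderiv (k := k) (Sum.inr (Sum.inr ()) : Ix n)).comp
      (DG.pderiv (k := k) (Sum.inr (Sum.inr ()) : Ix n))
    norm_num at this
    exact this

/-- odd characteristic, the generic case -/
theorem VV_generic {p : ℕ} [Fact p.Prime] [CharP k p] (h2 : (2 : k) ≠ 0) (n : ℕ) (m : ℤ)
    (hm : ¬ (p : ℤ) ∣ 2 * m + (2 * n + 1)) : VV k p n m := by
  have hc : ((2 * m + (2 * n + 1) : ℤ) : k) ≠ 0 := by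
    intro h
    exact hm ((CharP.intCast_eq_zero_iff k p _).mp h)
  refine ⟨1, ((2 * ((2 * m + (2 * n + 1) : ℤ) : k))⁻¹) • lap k n, ?_, ?_, ?_⟩
  · rw [pow_one]
    exact (lap_QL p n).smul _
  · exact (lap_DG n).smul _
  · intro γ hγ
    rw [pow_one] at hγ
    have h3 : ((dg γ : ℤ) : k) = (m : k) := by
      have := (CharP.intCast_eq_zero_iff k p (dg γ - m)).mpr hγ
      push_cast at this
      exact sub_eq_zero.mp this
    have h4 : ((2 * (2 * n + 1) + 4 * dg γ : ℤ) : k) = 2 * ((2 * m + (2 * n + 1) : ℤ) : k) := by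
      push_cast
      rw [h3]
      ring
    refine ⟨-(((2 * ((2 * m + (2 * n + 1) : ℤ) : k))⁻¹) • lap k n (monomial γ 1)), ?_⟩
    rw [LinearMap.smul_apply, lap_mul, h4, smul_add, smul_smul,
      inv_mul_cancel₀ (mul_ne_zero h2 hc), one_smul, mul_neg, mul_smul_comm]
    ring

/-- odd characteristic, the recursive step -/
theorem VV_step {p : ℕ} [Fact p.Prime] [CharP k p] (h2 : (2 : k) ≠ 0) (ρ : ℕ)
    (hρ : p = 2 * ρ + 1) (n : ℕ) (m' : ℤ) (h : VV k p n m') :
    VV k p n (n * (p - 1) + ρ + p * m') := by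
  classical
  have hp : 0 < p := (Fact.out : p.Prime).pos
  obtain ⟨s', B', hB1, hB2, hB3⟩ := h
  obtain ⟨ψ, hψ1, hψ2, hψ3⟩ := lemS (k := k) (p := p) ρ hρ n
  set ℓ : ℤ := n * (p - 1) + ρ with hℓ
  -- choose the error terms
  have hch : ∀ γ : Ix n →₀ ℕ, ∃ v, ∃ w : Ix n → MvPolynomial (Ix n) k, inBox p γ →
      ((∀ a, w a ∈ Hg k (Ix n) (dg γ - p)) ∧
        (if dg γ = ℓ then 0 else monomial γ (1 : k)) =
          ψ (qf k n * monomial γ 1) + qf k n * v + ∑ a, X a ^ p * w a) := by
    intro γ
    by_cases hγ : inBox p γ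
    · obtain ⟨v, w, ⟨w', hw1, hw2⟩, hv⟩ := hψ3 γ hγ
      exact ⟨v, w', fun _ => ⟨hw1, by rw [← hw2]; exact hv⟩⟩
    · exact ⟨0, 0, fun h => absurd h hγ⟩
  choose v w hvw using hch
  set M := LinearMap.mulLeft k ((qf k n) ^ (p - 1)) with hM
  set R1 := raise p (fun γ => if dg γ = ℓ then B' else 0) with hR1
  set Om : Ix n → MvPolynomial (Ix n) k →ₗ[k] MvPolynomial (Ix n) k :=
    fun a => lin p (fun γ => if inBox p γ then w γ a else 0) with hOm
  set R3 : Ix n → MvPolynomial (Ix n) k →ₗ[k] MvPolynomial (Ix n) k :=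
    fun a => raise p (fun _ => (pderiv (R := k) (dual a)).toLinearMap) with hR3
  refine ⟨max (s' + 1) 2, R1.comp M + ψ + ∑ a, cst k a • (R3 a).comp ((Om a).comp M), ?_, ?_, ?_⟩
  · apply QL.add
    · apply QL.add
      · apply QL.comp
        · have := raise_QL (q := p) (Q := p ^ s') hp
            (B := fun γ : Ix n →₀ ℕ => if dg γ = ℓ then B' else 0) (by
              intro γ
              by_cases hd : dg γ = ℓ
              · rw [if_pos hd]; exact hB1
              · rw [if_neg hd]; exact QL.zero _)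
          refine QL.of_dvd ?_ this
          rw [← pow_succ']
          exact pow_dvd_pow p (le_max_left _ _)
        · exact QL.mulLeft _ _
      · refine QL.of_dvd ?_ hψ1
        exact dvd_pow_self p (by positivity)
    · apply QL.sum
      intro a _
      apply QL.smul
      apply QL.comp
      · have := raise_QL (q := p) (Q := p) hp
            (B := fun _ => (pderiv (R := k) (dual a)).toLinearMap) (fun _ => QL.pderiv p _)
        refine QL.of_dvd ?_ this
        rw [← pow_two]
        exact pow_dvd_pow p (le_max_right _ _)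
      · apply QL.comp
        · refine QL.of_dvd ?_ (lin_QL hp _)
          exact dvd_pow_self p (by positivity)
        · exact QL.mulLeft _ _
  · have hp1 : 1 ≤ p := hp
    have hMD : DG (2 * (p - 1)) M := by
      apply DG.mulLeft
      have := pow_mem_Hg (qf_mem_Hg (k := k) n) (p - 1)
      convert this using 2
      push_cast [Nat.cast_sub hp1]
      ring
    apply DG.add
    · apply DG.add
      · have h1 := raise_DG (q := p) (δ := -2)
            (B := fun γ : Ix n →₀ ℕ => if dg γ = ℓ then B' else 0) (by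
              intro γ
              by_cases hd : dg γ = ℓ
              · rw [if_pos hd]; exact hB2
              · rw [if_neg hd]; exact DG.zero _)
        have h2 := h1.comp hMD
        convert h2 using 1
        ring
      · exact hψ2
    · apply DG.sum
      intro a _
      apply DG.smul
      have h1 := raise_DG (q := p) (δ := -1)
            (B := fun _ : Ix n →₀ ℕ => (pderiv (R := k) (dual a)).toLinearMap) (fun _ => DG.pderiv _)
      have h2 : DG (-p) (Om a) := by
        apply lin_DG hp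
        intro γ hγ
        rw [if_pos hγ, ← sub_eq_add_neg]
        exact (hvw γ hγ).1 a
      have h3 := h1.comp (h2.comp hMD)
      convert h3 using 1
      ring
  · intro γ hγ
    set γ0 := rm p γ with hγ0
    set γ1 := qt p γ with hγ1
    have hb0 : inBox p γ0 := inBox_rm hp γ
    have hsp : (monomial γ (1 : k)) = monomial (p • γ1) 1 * monomial γ0 1 := by
      rw [monomial_mul, one_mul, add_comm, hγ0, hγ1, rm_add_qt]
    have hMf : M (qf k n * monomial γ 1) = MvPolynomial.expand p (qf k n) * monomial γ 1 := by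
      rw [hM, LinearMap.mulLeft_apply, ← mul_assoc, ← pow_succ, Nat.sub_add_cancel hp, qf_pow]
    have hfdvd : qf k n ∣ MvPolynomial.expand p (qf k n) := by
      rw [← qf_pow]
      exact dvd_pow_self _ hp.ne'
    -- first part
    have p1 : qf k n ∣ (if dg γ0 = ℓ then monomial γ 1 else 0) - (R1.comp M) (qf k n * monomial γ 1) := by
      rw [LinearMap.comp_apply, hMf, hR1, raise_expand_mul hp, ← hγ0, ← hγ1]
      by_cases hd : dg γ0 = ℓ
      · rw [if_pos hd, if_pos hd]
        have hdiv : ((p ^ s' : ℕ) : ℤ) ∣ dg γ1 - m' := by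
          have h5 : dg γ - (ℓ + p * m') = p * (dg γ1 - m') := by
            rw [dg_rm_qt p γ, ← hγ0, ← hγ1, hd]; ring
          rw [h5] at hγ
          have h6 : ((p ^ (s' + 1) : ℕ) : ℤ) ∣ p * (dg γ1 - m') := by
            refine dvd_trans ?_ hγ
            exact_mod_cast pow_dvd_pow p (le_max_left _ _)
          rw [pow_succ'] at h6
          push_cast at h6
          have h7 := Int.dvd_of_mul_dvd_mul_left (a := (p : ℤ)) (by exact_mod_cast hp.ne') h6
          exact_mod_cast h7
        obtain ⟨g, hg⟩ := hB3 γ1 hdiv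
        have h8 : monomial γ (1 : k) = monomial γ0 1 * MvPolynomial.expand p (monomial γ1 1) :=
          mono_split p γ
        rw [h8, ← mul_sub, ← map_sub, hg, map_mul]
        exact Dvd.dvd.mul_left (Dvd.dvd.mul_right hfdvd _) _
      · rw [if_neg hd, if_neg hd]
        simp
    -- third part
    have p3 : qf k n ∣ (∑ a, X a ^ p * Om a (monomial γ 1)) -
        (∑ a, cst k a • (R3 a).comp ((Om a).comp M)) (qf k n * monomial γ 1) := by
      rw [LinearMap.sum_apply, ← Finset.sum_sub_distrib]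
      apply Finset.dvd_sum
      intro a _
      rw [LinearMap.smul_apply, LinearMap.comp_apply, LinearMap.comp_apply, hMf]
      have hO : QL p (Om a) := lin_QL hp _
      rw [hO.expand, hR3]
      rw [raise_leibniz hp]
      have h9 : X a ^ p = MvPolynomial.expand p (X a : MvPolynomial (Ix n) k) := by
        rw [expand_X]
      rw [h9, ← cst_pderiv h2 a, map_smul, smul_add, smul_mul_assoc]
      have : ∀ x y z : MvPolynomial (Ix n) k, x - (x + cst k a • (MvPolynomial.expand p (qf k n) * z))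
          = -(cst k a • (MvPolynomial.expand p (qf k n) * z)) := by intro x y z; ring
      rw [this _ 0]
      rw [smul_eq_C_mul, dvd_neg]
      exact Dvd.dvd.mul_left (Dvd.dvd.mul_right hfdvd _) _
    -- assemble
    obtain ⟨-, hv⟩ := hvw γ0 hb0
    have h10 : (if dg γ0 = ℓ then 0 else monomial γ (1 : k)) =
        ψ (qf k n * monomial γ 1) + monomial (p • γ1) 1 * (qf k n * v γ0) +
          ∑ a, X a ^ p * Om a (monomial γ 1) := by
      have h11 : ψ (qf k n * monomial γ 1) = monomial (p • γ1) 1 * ψ (qf k n * monomial γ0 1) := by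
        rw [hsp, mul_left_comm, hψ1.monomial]
      have h12 : ∀ a, Om a (monomial γ 1) = monomial (p • γ1) 1 * w γ0 a := by
        intro a
        rw [hOm]
        dsimp only
        rw [lin_one, ← hγ0, ← hγ1, if_pos hb0]
      rw [h11, Finset.sum_congr rfl (fun a _ => by rw [h12 a]), ← mul_add,
        show (∑ a, X a ^ p * (monomial (p • γ1) 1 * w γ0 a)) =
          monomial (p • γ1) 1 * ∑ a, X a ^ p * w γ0 a by
            rw [Finset.mul_sum]
            exact Finset.sum_congr rfl (fun a _ => by ring),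
        ← mul_add, ← hv]
      by_cases hd : dg γ0 = ℓ
      · rw [if_pos hd, if_pos hd, mul_zero]
      · rw [if_neg hd, if_neg hd, hsp]
    have h13 : monomial γ (1 : k) = (if dg γ0 = ℓ then monomial γ (1 : k) else 0) +
        (if dg γ0 = ℓ then 0 else monomial γ (1 : k)) := by
      by_cases hd : dg γ0 = ℓ
      · rw [if_pos hd, if_pos hd, add_zero]
      · rw [if_neg hd, if_neg hd, zero_add]
    have h14 : monomial γ (1 : k) -
        (R1.comp M + ψ + ∑ a, cst k a • (R3 a).comp ((Om a).comp M)) (qf k n * monomial γ 1) =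
        ((if dg γ0 = ℓ then monomial γ 1 else 0) - (R1.comp M) (qf k n * monomial γ 1)) +
        ((∑ a, X a ^ p * Om a (monomial γ 1)) -
        (∑ a, cst k a • (R3 a).comp ((Om a).comp M)) (qf k n * monomial γ 1)) +
        qf k n * (monomial (p • γ1) 1 * v γ0) := by
      rw [LinearMap.add_apply, LinearMap.add_apply]
      linear_combination h13 + h10
    rw [h14]
    exact dvd_add (dvd_add p1 p3) (Dvd.intro _ rfl)

/-- the splitting property holds for every degree class -/
theorem VV_all {p : ℕ} [Fact p.Prime] [CharP k p] (n : ℕ) (m : ℤ) : VV k p n m := by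
  have hpp : p.Prime := Fact.out
  rcases hpp.eq_two_or_odd' with h2 | hodd
  · subst h2
    exact VV_two n m
  obtain ⟨ρ, hρ⟩ := hodd
  have hp : 0 < p := hpp.pos
  have hp3 : 3 ≤ p := by
    have := hpp.two_le
    omega
  have h2 : (2 : k) ≠ 0 := by
    intro h
    have h3 : ((2 : ℕ) : k) = 0 := by exact_mod_cast h
    rw [CharP.cast_eq_zero_iff k p] at h3
    have := Nat.le_of_dvd (by norm_num) h3
    omega
  -- strong induction on the size of `2 m + (2 n + 1)`
  have main : ∀ N : ℕ, ∀ m : ℤ, (2 * m + (2 * n + 1)).natAbs ≤ N → VV k p n m := by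
    intro N
    induction N using Nat.strong_induction_on with
    | _ N ih =>
      intro m hm
      by_cases hdiv : (p : ℤ) ∣ 2 * m + (2 * n + 1)
      · obtain ⟨c, hc⟩ := hdiv
        have hcodd : Odd c := by
          have h4 : Odd ((p : ℤ) * c) := by
            rw [← hc]
            exact ⟨m + n, by ring⟩
          exact (Int.odd_mul.mp h4).2
        obtain ⟨d, hd⟩ := hcodd
        have hlt : c.natAbs < N := by
          have h5 : (2 * m + (2 * n + 1)).natAbs = p * c.natAbs := by
            rw [hc, Int.natAbs_mul, Int.natAbs_natCast]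
          have h6 : 0 < c.natAbs := by omega
          have h7 : 3 * c.natAbs ≤ p * c.natAbs := Nat.mul_le_mul_right _ hp3
          omega
        have h8 := ih c.natAbs hlt (d - n) (by
          rw [show 2 * (d - n) + (2 * (n : ℤ) + 1) = c by rw [hd]; ring])
        have h9 := VV_step h2 ρ hρ n _ h8
        have h10 : (n : ℤ) * (p - 1) + ρ + p * (d - n) = m := by
          have h11 : (p : ℤ) = 2 * ρ + 1 := by exact_mod_cast hρ
          have h12 : 2 * ((n : ℤ) * (p - 1) + ρ + p * (d - n)) = 2 * m := by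
            have h13 : 2 * m = p * c - (2 * n + 1) := by rw [← hc]; ring
            rw [h13, hd, h11]
            ring
          linarith
        rwa [h10] at h9
      · exact VV_generic h2 n m hdiv
  exact main _ m le_rfl

lemma qf_pow' {p : ℕ} [Fact p.Prime] [CharP k p] (n e : ℕ) :
    (qf k n) ^ (p ^ e) = MvPolynomial.expand (p ^ e) (qf k n) := by
  unfold qf
  rw [add_pow_char_pow, sum_pow_char_pow, map_add, map_sum, map_pow, expand_X]
  congr 1
  · apply Finset.sum_congr rfl
    intro i _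
    rw [map_mul, expand_X, expand_X, mul_pow]
  · rw [← pow_mul, ← pow_mul, mul_comm]

/-- the splitting operator at level `e`: composing with `τ` inverts, in the limit, multiplication
by the quadratic form on homomorphisms. -/
theorem exists_tau {p : ℕ} [Fact p.Prime] [CharP k p] (n e : ℕ) :
    ∃ s : ℕ, e ≤ s ∧ ∃ τ : MvPolynomial (Ix n) k →ₗ[k] MvPolynomial (Ix n) k,
      QL (p ^ s) τ ∧ DG (-2) τ ∧ ∀ γ, ((p ^ s : ℕ) : ℤ) ∣ dg γ + 2 →
        (qf k n) ^ (p ^ e) ∣ monomial γ 1 - τ (qf k n * monomial γ 1) := by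
  classical
  have hp : 0 < p := (Fact.out : p.Prime).pos
  choose sB B hB1 hB2 hB3 using fun m : ℤ => VV_all (k := k) (p := p) n m
  set q := p ^ e with hq
  have hq0 : 0 < q := by positivity
  set mm : (Ix n →₀ ℕ) → ℤ := fun γ => (-2 - dg γ) / q with hmm
  set S := (boxF (Ix n) q).sup (fun γ => sB (mm γ)) with hS
  set R := raise q (fun γ => if inBox q γ then B (mm γ) else 0) with hR
  set M := LinearMap.mulLeft k ((qf k n) ^ (q - 1)) with hM
  refine ⟨e + S, Nat.le_add_right _ _, R.comp M, ?_, ?_, ?_⟩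
  · apply QL.comp _ (QL.mulLeft _ _)
    rw [pow_add]
    apply raise_QL hq0
    intro γ
    by_cases h : inBox q γ
    · rw [if_pos h]
      apply QL.of_dvd _ (hB1 (mm γ))
      apply pow_dvd_pow
      exact Finset.le_sup (f := fun γ => sB (mm γ)) (mem_boxF.mpr h)
    · rw [if_neg h]; exact QL.zero _
  · have hMD : DG (2 * (q - 1)) M := by
      apply DG.mulLeft
      have := pow_mem_Hg (qf_mem_Hg (k := k) n) (q - 1)
      convert this using 2
      push_cast [Nat.cast_sub (show 1 ≤ q from hq0)]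
      ring
    have h1 := raise_DG (q := q) (δ := -2)
            (B := fun γ : Ix n →₀ ℕ => if inBox q γ then B (mm γ) else 0) (by
              intro γ
              by_cases h : inBox q γ
              · rw [if_pos h]; exact hB2 _
              · rw [if_neg h]; exact DG.zero _)
    have h2 := h1.comp hMD
    convert h2 using 1
    ring
  · intro γ hγ
    set γ0 := rm q γ with hγ0
    set γ1 := qt q γ with hγ1
    have hb0 : inBox q γ0 := inBox_rm hq0 γ
    have hMf : M (qf k n * monomial γ 1) = MvPolynomial.expand q (qf k n) * monomial γ 1 := by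
      rw [hM, LinearMap.mulLeft_apply, ← mul_assoc, ← pow_succ, Nat.sub_add_cancel hq0, hq, qf_pow']
    have hdg := dg_rm_qt q γ
    rw [← hγ0, ← hγ1] at hdg
    have h1 : (q : ℤ) ∣ dg γ + 2 := by
      refine dvd_trans ?_ hγ
      rw [hq]
      exact_mod_cast pow_dvd_pow p (Nat.le_add_right e S)
    have h2 : (q : ℤ) ∣ -2 - dg γ0 := by
      have : -2 - dg γ0 = q * dg γ1 - (dg γ + 2) := by rw [hdg]; ring
      rw [this]
      exact dvd_sub (Dvd.intro _ rfl) h1
    have h3 : (q : ℤ) * mm γ0 = -2 - dg γ0 := Int.mul_ediv_cancel' h2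
    have h4 : dg γ + 2 = q * (dg γ1 - mm γ0) := by
      rw [mul_sub, h3, hdg]; ring
    have h5 : ((p ^ S : ℕ) : ℤ) ∣ dg γ1 - mm γ0 := by
      rw [h4, pow_add] at hγ
      push_cast at hγ
      have h6 : (q : ℤ) ≠ 0 := by exact_mod_cast hq0.ne'
      have h7 : (q : ℤ) * (p ^ S : ℤ) ∣ q * (dg γ1 - mm γ0) := by
        rw [hq]; push_cast; rw [hq] at hγ; push_cast at hγ; exact hγ
      have := Int.dvd_of_mul_dvd_mul_left h6 h7
      exact_mod_cast this
    have h6 : ((p ^ sB (mm γ0) : ℕ) : ℤ) ∣ dg γ1 - mm γ0 := by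
      refine dvd_trans ?_ h5
      exact_mod_cast pow_dvd_pow p (Finset.le_sup (f := fun γ => sB (mm γ)) (mem_boxF.mpr hb0))
    obtain ⟨g, hg⟩ := hB3 (mm γ0) γ1 h6
    rw [LinearMap.comp_apply, hMf, hR, raise_expand_mul hq0, ← hγ0, ← hγ1, if_pos hb0]
    have h8 : monomial γ (1 : k) = monomial γ0 1 * MvPolynomial.expand q (monomial γ1 1) :=
      mono_split q γ
    rw [h8, ← mul_sub, ← map_sub, hg, map_mul, hq, qf_pow']
    exact Dvd.dvd.mul_left (Dvd.intro _ rfl) _

end Pool.Agent.Lib.MP_71be78_ag
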