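import Pool.Agent.Lib.MP_71be78_ag.MainAbs
import Pool.Agent.Lib.MP_71be78_ag.Split

/-!
# The quadric
-/

set_option linter.unusedSectionVars false

namespace Pool.Agent.Lib.MP_71be78_ag

open Finset MvPolynomial

variable {k : Type*} [Field k]

section hom
variable {σ : Type*} [Fintype σ]

/-- a homogeneous multiple of a homogeneous polynomial is a homogeneous multiple -/
lemma homog_factor {δ D : ℤ} {f g u : MvPolynomial σ k} (hf : f ∈ Hg k σ δ) (hg : g ∈ Hg k σ D)
    (h : g = f * u) : ∃ v ∈ Hg k σ (D - δ), g = f * v := by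
  classical
  set C : ℤ → MvPolynomial σ k →ₗ[k] MvPolynomial σ k :=
    fun D => mlin fun γ => if dg γ = D then monomial γ 1 else 0 with hC
  have hC1 : ∀ D γ, dg γ = D → C D (monomial γ 1) = monomial γ 1 := by
    intro D γ h
    rw [hC]; simp only; rw [mlin_one, if_pos h]
  have hC2 : ∀ D γ, dg γ ≠ D → C D (monomial γ 1) = 0 := by
    intro D γ h
    rw [hC]; simp only; rw [mlin_one, if_neg h]
  have hC3 : ∀ D u, u ∈ Hg k σ D → C D u = u := by
    intro D u hu
    have : C D u = (LinearMap.id : MvPolynomial σ k →ₗ[k] MvPolynomial σ k) u := by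
      apply eq_on_Hg _ hu
      intro γ hγ
      rw [hC1 D γ hγ]; rfl
    exact this
  have hC4 : ∀ D E u, E ≠ D → u ∈ Hg k σ E → C D u = 0 := by
    intro D E u hne hu
    have : C D u = (0 : MvPolynomial σ k →ₗ[k] MvPolynomial σ k) u := by
      apply eq_on_Hg _ hu
      intro γ hγ
      rw [hC2 D γ (by rw [hγ]; exact hne)]; rfl
    exact this
  have hC5 : ∀ D (u : MvPolynomial σ k), C D (f * u) = f * C (D - δ) u := by
    intro D u
    have key : (C D).comp (LinearMap.mulLeft k f) = (LinearMap.mulLeft k f).comp (C (D - δ)) := by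
      apply lin_ext
      intro γ
      simp only [LinearMap.comp_apply, LinearMap.mulLeft_apply]
      have h1 := mul_mem_Hg hf (monomial_mem_Hg γ (1 : k))
      by_cases h : dg γ = D - δ
      · rw [hC1 _ _ h, hC3]
        rw [h] at h1
        rwa [add_sub_cancel] at h1
      · rw [hC2 _ _ h, mul_zero]
        exact hC4 _ _ _ (fun h' => h (by rw [← h']; ring)) h1
    exact LinearMap.congr_fun key u
  have hC6 : C (D - δ) u ∈ Hg k σ (D - δ) := by
    rw [as_sum u, map_sum]
    apply Submodule.sum_mem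
    intro γ _
    rw [mono_eq, map_smul]
    apply Submodule.smul_mem
    by_cases h : dg γ = D - δ
    · rw [hC1 _ _ h]; exact monomial_mem_Hg' h
    · rw [hC2 _ _ h]; exact Submodule.zero_mem _
  refine ⟨C (D - δ) u, hC6, ?_⟩
  rw [← hC5, ← h, hC3 _ _ hg]

/-- two algebra homomorphisms congruent on variables are congruent -/
lemma hom_congr {R : Type*} [CommRing R] [Algebra k R] {f : R} (A B : MvPolynomial σ k →ₐ[k] R)
    (h : ∀ a, f ∣ A (X a) - B (X a)) (g : MvPolynomial σ k) : f ∣ A g - B g := by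
  induction g using MvPolynomial.induction_on with
  | C a =>
    have h1 : A (C a) = algebraMap k R a := by
      rw [← algebraMap_eq, AlgHom.commutes]
    have h2 : B (C a) = algebraMap k R a := by
      rw [← algebraMap_eq, AlgHom.commutes]
    rw [h1, h2, sub_self]
    exact dvd_zero _
  | add u r hp hr =>
    rw [map_add, map_add, add_sub_add_comm]
    exact dvd_add hp hr
  | mul_X u n hp =>
    rw [map_mul, map_mul]
    have : A u * A (X n) - B u * B (X n) = (A u - B u) * A (X n) + B u * (A (X n) - B (X n)) := by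
      ring
    rw [this]
    exact dvd_add (Dvd.dvd.mul_right hp _) (Dvd.dvd.mul_left (h n) _)

end hom

/-- embedding of the affine coordinates -/
def emb (m : ℕ) : Ix m → Ix (m + 1)
  | Sum.inl i => Sum.inl i.succ
  | Sum.inr (Sum.inl i) => Sum.inr (Sum.inl i.succ)
  | Sum.inr (Sum.inr u) => Sum.inr (Sum.inr u)

lemma emb_injective (m : ℕ) : Function.Injective (emb m) := by
  intro a b h
  rcases a with a | a | a <;> rcases b with b | b | b <;> simp [emb] at h ⊢ <;> exact h

/-- the generic point, as polynomials: `x_0 = 1`, `y_0 = - (∑ x_i y_i + z^2)` -/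
noncomputable def xi' (k : Type*) [Field k] (m : ℕ) : Ix (m + 1) → MvPolynomial (Ix m) k
  | Sum.inl i => Fin.cases 1 (fun j => X (Sum.inl j)) i
  | Sum.inr (Sum.inl i) => Fin.cases (-(qf k m)) (fun j => X (Sum.inr (Sum.inl j))) i
  | Sum.inr (Sum.inr u) => X (Sum.inr (Sum.inr u))

lemma xi'_emb (m : ℕ) (a : Ix m) : xi' k m (emb m a) = X a := by
  rcases a with a | a | a <;> simp [xi', emb]

lemma xi'_x0 (m : ℕ) : xi' k m (Sum.inl 0) = 1 := by simp [xi']
lemma xi'_y0 (m : ℕ) : xi' k m (Sum.inr (Sum.inl 0)) = -(qf k m) := by simp [xi']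

/-- case distinction on coordinates -/
lemma ix_cases {m : ℕ} {P : Ix (m + 1) → Prop} (h1 : P (Sum.inl 0)) (h2 : P (Sum.inr (Sum.inl 0)))
    (h3 : ∀ a, P (emb m a)) : ∀ a, P a := by
  intro a
  rcases a with a | a | a
  · refine Fin.cases h1 (fun i => h3 (Sum.inl i)) a
  · refine Fin.cases h2 (fun i => h3 (Sum.inr (Sum.inl i))) a
  · exact h3 (Sum.inr (Sum.inr a))

lemma qf_succ (m : ℕ) : qf k (m + 1) =
    X (Sum.inl 0) * X (Sum.inr (Sum.inl 0)) + rename (emb m) (qf k m) := by
  unfold qf
  rw [Fin.sum_univ_succ, map_add, map_sum, map_pow, rename_X]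
  simp only [map_mul, rename_X, emb]
  ring

lemma qf_ne_zero (n : ℕ) : qf k n ≠ 0 := by
  intro h
  have h1 : aeval (fun a : Ix n => match a with
    | Sum.inl _ => (0 : k)
    | Sum.inr (Sum.inl _) => 0
    | Sum.inr (Sum.inr _) => 1) (qf k n) = 0 := by rw [h, map_zero]
  unfold qf at h1
  simp at h1

/-- elements killed by `x_0 ↦ 0` are divisible by `x_0` -/
lemma x0_cancel (m : ℕ) {g : MvPolynomial (Ix (m + 1)) k}
    (h : qf k (m + 1) ∣ X (Sum.inl 0) * g) : qf k (m + 1) ∣ g := by
  classical
  obtain ⟨u, hu⟩ := h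
  set Z : MvPolynomial (Ix (m + 1)) k →ₐ[k] MvPolynomial (Ix (m + 1)) k :=
    aeval (fun a => if a = Sum.inl 0 then 0 else X a) with hZ
  have hZ0 : Z (X (Sum.inl 0)) = 0 := by rw [hZ, aeval_X, if_pos rfl]
  have hZr : ∀ w : MvPolynomial (Ix m) k, Z (rename (emb m) w) = rename (emb m) w := by
    intro w
    have : Z.comp (rename (emb m)) = rename (emb m) := by
      apply MvPolynomial.algHom_ext
      intro a
      rw [AlgHom.comp_apply, rename_X, hZ, aeval_X, if_neg]
      rcases a with a | a | a <;> simp [emb]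
    exact DFunLike.congr_fun this w
  have h1 : Z (qf k (m + 1)) = rename (emb m) (qf k m) := by
    rw [qf_succ, map_add, map_mul, hZ0, zero_mul, zero_add, hZr]
  have h2 := congrArg Z hu
  rw [map_mul, map_mul, hZ0, zero_mul, h1] at h2
  have h3 : rename (emb m) (qf k m) ≠ 0 := by
    intro h
    apply qf_ne_zero (k := k) m
    apply rename_injective _ (emb_injective m)
    rw [h, map_zero]
  have h4 : Z u = 0 := by
    rcases mul_eq_zero.mp h2.symm with h | h
    · exact absurd h h3
    · exact h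
  have h5 : X (Sum.inl 0) ∣ u := by
    have := hom_congr (f := (X (Sum.inl 0) : MvPolynomial (Ix (m + 1)) k)) (AlgHom.id k _) Z (by
      intro a
      rw [hZ, aeval_X]
      by_cases ha : a = Sum.inl 0
      · rw [if_pos ha, ha]; simp
      · rw [if_neg ha]; simp) u
    rw [h4, sub_zero] at this
    exact this
  obtain ⟨v, hv⟩ := h5
  refine ⟨v, ?_⟩
  have hx : (X (Sum.inl 0) : MvPolynomial (Ix (m + 1)) k) ≠ 0 := X_ne_zero _
  apply mul_left_cancel₀ hx
  rw [hu, hv]
  ring

lemma x0_cancel_pow (m : ℕ) (D : ℕ) {g : MvPolynomial (Ix (m + 1)) k}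
    (h : qf k (m + 1) ∣ X (Sum.inl 0) ^ D * g) : qf k (m + 1) ∣ g := by
  induction D with
  | zero => simpa using h
  | succ D ih =>
    apply ih
    apply x0_cancel m
    rw [pow_succ'] at h
    rwa [← mul_assoc]

/-- the weights of the coordinates of the generic point -/
def wt (m : ℕ) : Ix (m + 1) → ℕ
  | Sum.inl i => Fin.cases 0 (fun _ => 1) i
  | Sum.inr (Sum.inl i) => Fin.cases 2 (fun _ => 1) i
  | Sum.inr (Sum.inr _) => 1

lemma wt_emb (m : ℕ) (a : Ix m) : wt m (emb m a) = 1 := by
  rcases a with a | a | a <;> simp [wt, emb]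

lemma wt_le (m : ℕ) : ∀ a, wt m a ≤ 2 :=
  ix_cases (by simp [wt]) (by simp [wt]) (fun a => by rw [wt_emb]; norm_num)

lemma xi'_mem (m : ℕ) : ∀ a, xi' k m a ∈ Hg k (Ix m) (wt m a) := by
  apply ix_cases
  · rw [xi'_x0]; simpa [wt] using one_mem_Hg
  · rw [xi'_y0]
    have : ((wt m (Sum.inr (Sum.inl 0)) : ℕ) : ℤ) = 2 := by simp [wt]
    rw [this]
    exact Submodule.neg_mem _ (qf_mem_Hg m)
  · intro a
    rw [xi'_emb, wt_emb]
    exact_mod_cast X_mem_Hg a

lemma prod_mem_Hg {σ τ : Type*} [Fintype σ] [Fintype τ] {F : σ → MvPolynomial τ k} {d : σ → ℤ}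
    (h : ∀ a, F a ∈ Hg k τ (d a)) : ∏ a, F a ∈ Hg k τ (∑ a, d a) := by
  classical
  have : ∀ s : Finset σ, ∏ a ∈ s, F a ∈ Hg k τ (∑ a ∈ s, d a) := by
    intro s
    induction s using Finset.induction_on with
    | empty => rw [Finset.prod_empty, Finset.sum_empty]; exact one_mem_Hg
    | insert a s ha ih =>
      rw [Finset.prod_insert ha, Finset.sum_insert ha]
      exact mul_mem_Hg (h a) ih
  exact this Finset.univ

/-- **the kernel of evaluation at the generic point**: homogeneous polynomials vanishing there are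
multiples of the quadratic form -/
theorem qf_ker (m : ℕ) {D : ℤ} {g : MvPolynomial (Ix (m + 1)) k} (hg : g ∈ Hg k (Ix (m + 1)) D)
    (h0 : aeval (xi' k m) g = 0) : qf k (m + 1) ∣ g := by
  classical
  set Ev : MvPolynomial (Ix (m + 1)) k →ₐ[k] MvPolynomial (Ix m) k := aeval (xi' k m) with hEv
  set x0 : MvPolynomial (Ix (m + 1)) k := X (Sum.inl 0) with hx0
  set A : MvPolynomial (Ix (m + 1)) k →ₐ[k] MvPolynomial (Ix (m + 1)) k :=
    aeval (fun a => x0 ^ (2 - wt m a) * rename (emb m) (xi' k m a)) with hA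
  set A' : MvPolynomial (Ix (m + 1)) k →ₐ[k] MvPolynomial (Ix (m + 1)) k :=
    aeval (fun a => x0 * X a) with hA'
  have hA1 : ∀ γ : Ix (m + 1) →₀ ℕ, A (monomial γ 1) =
      x0 ^ (∑ a, (2 - wt m a) * γ a) * rename (emb m) (Ev (monomial γ 1)) := by
    intro γ
    rw [hA, hEv, aeval_monomial, aeval_monomial, map_one, map_one, one_mul, one_mul,
      Finsupp.prod_fintype _ _ (by simp), Finsupp.prod_fintype _ _ (by simp), map_prod,
      ← Finset.prod_pow_eq_pow_sum, ← Finset.prod_mul_distrib]
    apply Finset.prod_congr rfl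
    intro a _
    rw [mul_pow, map_pow, ← pow_mul]
  have hA'1 : ∀ γ : Ix (m + 1) →₀ ℕ, A' (monomial γ 1) = x0 ^ (∑ a, γ a) * monomial γ 1 := by
    intro γ
    rw [hA', aeval_monomial, map_one, one_mul, Finsupp.prod_fintype _ _ (by simp),
      ← Finset.prod_pow_eq_pow_sum, monomial_eq, C_1, one_mul, Finsupp.prod_fintype _ _ (by simp),
      ← Finset.prod_mul_distrib]
    apply Finset.prod_congr rfl
    intro a _
    rw [mul_pow]
  -- the linear map computing `A` from the value at the generic point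
  set L : MvPolynomial (Ix m) k →ₗ[k] MvPolynomial (Ix (m + 1)) k :=
    mlin (fun β => x0 ^ ((2 * D - dg β).toNat) * rename (emb m) (monomial β 1)) with hL
  have hL1 : ∀ e : ℤ, ∀ u ∈ Hg k (Ix m) e, L u = x0 ^ ((2 * D - e).toNat) * rename (emb m) u := by
    intro e u hu
    have : L u = ((LinearMap.mulLeft k (x0 ^ ((2 * D - e).toNat))).comp
        (rename (emb m) : MvPolynomial (Ix m) k →ₐ[k] _).toLinearMap) u := by
      apply eq_on_Hg _ hu
      intro β hβ
      rw [hL, mlin_one, hβ]
      rfl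
    rw [this]
    rfl
  have h1 : A g = 0 := by
    have : A.toLinearMap g = (L.comp Ev.toLinearMap) g := by
      apply eq_on_Hg _ hg
      intro γ hγ
      simp only [LinearMap.comp_apply, AlgHom.toLinearMap_apply]
      have h2 : Ev (monomial γ (1 : k)) ∈ Hg k (Ix m) (∑ a, (wt m a : ℤ) * γ a) := by
        rw [hEv, aeval_monomial, map_one, one_mul, Finsupp.prod_fintype _ _ (by simp)]
        apply prod_mem_Hg
        intro a
        have := pow_mem_Hg (xi'_mem (k := k) m a) (γ a)
        rwa [mul_comm] at this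
      rw [hA1, hL1 _ _ h2]
      have h3 : (2 * D - ∑ a, (wt m a : ℤ) * γ a) = ((∑ a, (2 - wt m a) * γ a : ℕ) : ℤ) := by
        rw [← hγ]
        unfold dg
        rw [Finset.mul_sum, ← Finset.sum_sub_distrib]
        push_cast
        apply Finset.sum_congr rfl
        intro a _
        rw [Nat.cast_sub (wt_le m a)]
        push_cast
        ring
      rw [h3, Int.toNat_natCast]
    rw [AlgHom.toLinearMap_apply, LinearMap.comp_apply, AlgHom.toLinearMap_apply, h0, map_zero] at this
    exact this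
  have h2 : qf k (m + 1) ∣ A' g - A g := by
    apply hom_congr
    apply ix_cases
    · rw [hA, hA', aeval_X, aeval_X, xi'_x0, map_one, mul_one]
      have : 2 - wt m (Sum.inl 0) = 2 := by simp [wt]
      rw [this, hx0, pow_two, sub_self]
      exact dvd_zero _
    · rw [hA, hA', aeval_X, aeval_X, xi'_y0, map_neg]
      have : 2 - wt m (Sum.inr (Sum.inl 0)) = 0 := by simp [wt]
      rw [this, pow_zero, one_mul, sub_neg_eq_add, hx0, ← qf_succ]
    · intro a
      rw [hA, hA', aeval_X, aeval_X, xi'_emb, rename_X, wt_emb]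
      norm_num
  rw [h1, sub_zero] at h2
  have h3 : A' g = x0 ^ D.toNat * g := by
    have : A'.toLinearMap g = (LinearMap.mulLeft k (x0 ^ D.toNat)) g := by
      apply eq_on_Hg _ hg
      intro γ hγ
      rw [AlgHom.toLinearMap_apply, hA'1, LinearMap.mulLeft_apply]
      congr 2
      have : ((∑ a, γ a : ℕ) : ℤ) = D := by rw [← hγ]; unfold dg; push_cast; rfl
      rw [← this, Int.toNat_natCast]
    exact this
  rw [h3] at h2
  exact x0_cancel_pow m _ h2

lemma xi'_qf (m : ℕ) : aeval (xi' k m) (qf k (m + 1)) = 0 := by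
  rw [qf_succ, map_add, map_mul, aeval_X, aeval_X, xi'_x0, xi'_y0, aeval_rename]
  have : (xi' k m) ∘ (emb m) = X := by funext a; exact xi'_emb m a
  rw [this, aeval_X_left]
  simp

lemma xi'_ne (m : ℕ) : ∀ a, xi' k m a ≠ 0 := by
  apply ix_cases
  · rw [xi'_x0]; exact one_ne_zero
  · rw [xi'_y0]; exact neg_ne_zero.mpr (qf_ne_zero m)
  · intro a; rw [xi'_emb]; exact X_ne_zero _

/-- the setup of the quadric -/
noncomputable def quadSetup (k : Type*) [Field k] (m : ℕ) :
    Setup k (Ix (m + 1)) (FractionRing (MvPolynomial (Ix m) k)) where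
  ξ := fun a => algebraMap (MvPolynomial (Ix m) k) _ (xi' k m a)
  ne := by
    intro a h
    apply xi'_ne (k := k) m a
    exact (IsFractionRing.injective (MvPolynomial (Ix m) k)
      (FractionRing (MvPolynomial (Ix m) k))) (by rw [h, map_zero])
  a0 := Sum.inl 0
  one := by rw [xi'_x0, map_one]
  f := qf k (m + 1)
  hf := qf_mem_Hg _
  f0 := qf_ne_zero _
  evf := by
    have := (aeval_algebraMap_apply (FractionRing (MvPolynomial (Ix m) k)) (xi' k m) (qf k (m + 1)))
    rw [xi'_qf, map_zero] at this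
    exact this
  ker := by
    intro D g hg h
    have h1 := (aeval_algebraMap_apply (FractionRing (MvPolynomial (Ix m) k)) (xi' k m) g)
    have h2 : aeval (xi' k m) g = 0 := by
      apply (IsFractionRing.injective (MvPolynomial (Ix m) k)
        (FractionRing (MvPolynomial (Ix m) k)))
      rw [map_zero, ← h1]
      exact h
    obtain ⟨u, hu⟩ := qf_ker m hg h2
    exact homog_factor (qf_mem_Hg _) hg hu
  frac := by
    intro u
    obtain ⟨a, b, hb, hab⟩ := IsFractionRing.div_surjective (A := MvPolynomial (Ix m) k) u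
    have key : ∀ w : MvPolynomial (Ix m) k, aeval (fun a => algebraMap (MvPolynomial (Ix m) k)
        (FractionRing (MvPolynomial (Ix m) k)) (xi' k m a)) (rename (emb m) w) =
        algebraMap (MvPolynomial (Ix m) k) _ w := by
      intro w
      have h1 := (aeval_algebraMap_apply (FractionRing (MvPolynomial (Ix m) k)) (xi' k m)
        (rename (emb m) w))
      rw [aeval_rename] at h1
      rw [aeval_rename]
      have h2 : (xi' k m) ∘ (emb m) = X := by funext a; exact xi'_emb m a
      have h3 : aeval ((xi' k m) ∘ (emb m)) w = w := by rw [h2, aeval_X_left]; rfl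
      have h4 := (aeval_algebraMap_apply (FractionRing (MvPolynomial (Ix m) k))
        ((xi' k m) ∘ (emb m)) w)
      rw [h3] at h4
      exact h4
    have hb0 : algebraMap (MvPolynomial (Ix m) k) (FractionRing (MvPolynomial (Ix m) k)) b ≠ 0 := by
      intro h
      have : b = 0 := (IsFractionRing.injective (MvPolynomial (Ix m) k)
        (FractionRing (MvPolynomial (Ix m) k))) (by rw [h, map_zero])
      rw [this] at hb
      exact absurd hb (by simp)
    refine ⟨rename (emb m) a, rename (emb m) b, ?_, ?_⟩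
    · rw [key]; exact hb0
    · rw [key, key, ← hab, div_mul_cancel₀ _ hb0]

end Pool.Agent.Lib.MP_71be78_ag
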