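import Pool.Agent.Lib.MP_71be78_ag.HHom

/-!
# Extending graded homomorphisms to the function field, and the main argument
-/

set_option linter.unusedSectionVars false

namespace Pool.Agent.Lib.MP_71be78_ag

open Finset MvPolynomial

/-- a functional total linear relation is the graph of a linear map -/
lemma exists_linearMap_of_rel {k V W : Type*} [Field k] [AddCommGroup V] [Module k V]
    [AddCommGroup W] [Module k W] (G : Submodule k (V × W)) (h1 : ∀ u, ∃ v, (u, v) ∈ G)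
    (h2 : ∀ v, ((0 : V), v) ∈ G → v = 0) : ∃ φ : V →ₗ[k] W, ∀ u, (u, φ u) ∈ G := by
  choose φ hφ using h1
  have huniq : ∀ u v v', (u, v) ∈ G → (u, v') ∈ G → v = v' := by
    intro u v v' h h'
    have := G.sub_mem h h'
    rw [Prod.mk_sub_mk, sub_self] at this
    exact sub_eq_zero.mp (h2 _ this)
  refine ⟨{ toFun := φ, map_add' := ?_, map_smul' := ?_ }, hφ⟩
  · intro x y
    exact huniq _ _ _ (hφ (x + y)) (by simpa using G.add_mem (hφ x) (hφ y))
  · intro c x
    exact huniq _ _ _ (hφ (c • x)) (by simpa using G.smul_mem c (hφ x))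

namespace Setup
variable {σ : Type*} [Fintype σ] [DecidableEq σ] {k : Type*} [Field k] {K : Type*}
    [Field K] [Algebra k K] (S : Setup k σ K)

/-- polynomials all of whose degrees are divisible by `q` -/
def VV' (σ : Type*) [Fintype σ] (k : Type*) [Field k] (q : ℕ) :
    Subalgebra k (MvPolynomial σ k) where
  carrier := {u | ∀ γ, coeff γ u ≠ 0 → (q : ℤ) ∣ dg γ}
  mul_mem' := by
    classical
    intro u v hu hv γ h
    rw [coeff_mul] at h
    obtain ⟨x, hx, hne⟩ := Finset.exists_ne_zero_of_sum_ne_zero h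
    rw [HasAntidiagonal.mem_antidiagonal] at hx
    rw [← hx, dg_add]
    exact dvd_add (hu _ (left_ne_zero_of_mul hne)) (hv _ (right_ne_zero_of_mul hne))
  add_mem' := by
    intro u v hu hv γ h
    by_cases h1 : coeff γ u = 0
    · apply hv γ
      rw [coeff_add, h1, zero_add] at h
      exact h
    · exact hu γ h1
  algebraMap_mem' := by
    classical
    intro c γ h
    rw [algebraMap_eq, coeff_C] at h
    split_ifs at h with h1
    · rw [← h1, dg_zero]; exact dvd_zero _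
    · exact absurd rfl h

lemma mono_mem_VV' {q : ℕ} {γ : σ →₀ ℕ} (c : k) (h : (q : ℤ) ∣ dg γ) :
    monomial γ c ∈ VV' σ k q := by
  intro β hβ
  rw [coeff_monomial] at hβ
  split_ifs at hβ with h1
  · rw [← h1]; exact h
  · exact absurd rfl hβ

lemma pow_mem_VV' {p : ℕ} [Fact p.Prime] [CharP k p] {e : ℕ} (s : MvPolynomial σ k) :
    s ^ (p ^ e) ∈ VV' σ k (p ^ e) := by
  induction s using MvPolynomial.induction_on with
  | C a =>
    rw [← C_pow]
    exact Subalgebra.algebraMap_mem _ _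
  | add u r hp hr =>
    rw [add_pow_char_pow]
    exact Subalgebra.add_mem _ hp hr
  | mul_X u n hp =>
    rw [mul_pow]
    apply Subalgebra.mul_mem _ hp
    rw [X_pow_eq_monomial]
    apply mono_mem_VV'
    rw [dg_single]

/-- two linear maps agreeing on monomials of degree divisible by `q` agree on `VV'` -/
lemma eq_on_VV' {q : ℕ} {M : Type*} [AddCommGroup M] [Module k M]
    {A B : MvPolynomial σ k →ₗ[k] M}
    (h : ∀ γ, (q : ℤ) ∣ dg γ → A (monomial γ 1) = B (monomial γ 1))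
    {u : MvPolynomial σ k} (hu : u ∈ VV' σ k q) : A u = B u := by
  rw [as_sum u, map_sum, map_sum]
  apply Finset.sum_congr rfl
  intro γ hγ
  rw [mono_eq, map_smul, map_smul, h γ (hu γ (by rwa [mem_support_iff] at hγ))]

/-- homogenization into `VV'` -/
noncomputable def kap (q : ℕ) : MvPolynomial σ k →ₐ[k] MvPolynomial σ k :=
  aeval (fun a => X a * X S.a0 ^ (q - 1))

lemma ev_kap (q : ℕ) (u : MvPolynomial σ k) : S.ev (S.kap q u) = S.ev u := by
  have : S.ev.comp (S.kap q) = S.ev := by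
    apply MvPolynomial.algHom_ext
    intro a
    rw [AlgHom.comp_apply]
    unfold kap
    rw [aeval_X, map_mul, map_pow, S.ev_X, S.ev_X, S.one, one_pow, mul_one]
  exact DFunLike.congr_fun this u

lemma kap_mem {q : ℕ} (hq : 0 < q) (u : MvPolynomial σ k) : S.kap q u ∈ VV' σ k q := by
  induction u using MvPolynomial.induction_on with
  | C a =>
    unfold kap
    rw [aeval_C]
    exact Subalgebra.algebraMap_mem _ _
  | add u r hp hr =>
    rw [map_add]
    exact Subalgebra.add_mem _ hp hr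
  | mul_X u n hp =>
    rw [map_mul]
    apply Subalgebra.mul_mem _ hp
    unfold kap
    rw [aeval_X, X_pow_eq_monomial, X, monomial_mul, one_mul]
    apply mono_mem_VV'
    rw [dg_add, dg_single, dg_single]
    have : ((1 : ℕ) : ℤ) + ((q - 1 : ℕ) : ℤ) = q := by
      push_cast [Nat.cast_sub (show 1 ≤ q from hq)]; ring
    rw [this]

lemma exists_rep {p : ℕ} [Fact p.Prime] [CharP k p] (e : ℕ) (u : K) :
    ∃ g ∈ VV' σ k (p ^ e), ∃ s : MvPolynomial σ k, S.ev s ≠ 0 ∧ u * S.ev s ^ (p ^ e) = S.ev g := by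
  obtain ⟨g, s, hs, h⟩ := S.frac u
  have hq : 0 < p ^ e := pow_pos (Fact.out : p.Prime).pos _
  refine ⟨S.kap (p ^ e) (g * s ^ (p ^ e - 1)), S.kap_mem hq _, s, hs, ?_⟩
  rw [ev_kap, map_mul, map_pow]
  have h' : u * S.ev s = S.ev g := h
  rw [← h', mul_assoc, ← pow_succ', Nat.sub_add_cancel hq]

/-- the key vanishing: a graded homomorphism killing the multiples of the equation only depends on
the value of the polynomial at the generic point -/
lemma vanish {q : ℕ} (hq : 0 < q) {Φ : MvPolynomial σ k →ₗ[k] K} (hΦ : S.QK q Φ)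
    (hf : ∀ g, Φ (S.f * g) = 0) {g : MvPolynomial σ k} (hg : g ∈ VV' σ k q) (h0 : S.ev g = 0) :
    Φ g = 0 := by
  classical
  -- a common degree
  obtain ⟨T, hT⟩ : ∃ T : ℕ, ∀ γ ∈ g.support, dg γ ≤ T := by
    refine ⟨∑ γ ∈ g.support, (dg γ).natAbs, ?_⟩
    intro γ hγ
    have h1 : (dg γ).natAbs ≤ ∑ γ ∈ g.support, (dg γ).natAbs :=
      Finset.single_le_sum (f := fun γ => (dg γ).natAbs) (fun _ _ => Nat.zero_le _) hγ
    have h2 := dg_nonneg γ
    omega
  set D : ℤ := q * T with hD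
  set g' : MvPolynomial σ k := ∑ γ ∈ g.support,
    monomial (γ + Finsupp.single S.a0 ((D - dg γ).toNat)) (coeff γ g) with hg'
  have hle : ∀ γ ∈ g.support, dg γ ≤ D := by
    intro γ hγ
    have h1 := hT γ hγ
    have h2 : (T : ℤ) ≤ q * T := by
      have : (1 : ℤ) ≤ q := by exact_mod_cast hq
      nlinarith
    linarith
  have h1 : g' ∈ Hg k σ D := by
    apply Submodule.sum_mem
    intro γ hγ
    apply monomial_mem_Hg'
    rw [dg_add, dg_single, Int.toNat_of_nonneg (by have := hle γ hγ; linarith)]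
    ring
  have h2 : S.ev g' = 0 := by
    rw [← h0, hg']
    conv_rhs => rw [as_sum g]
    rw [map_sum, map_sum]
    apply Finset.sum_congr rfl
    intro γ _
    rw [monomial_add_single, map_mul, map_pow, S.ev_X, S.one, one_pow, mul_one]
  have h3 : Φ g' = Φ g := by
    rw [hg']
    conv_rhs => rw [as_sum g]
    rw [map_sum, map_sum]
    apply Finset.sum_congr rfl
    intro γ hγ
    have h4 : (q : ℤ) ∣ D - dg γ := dvd_sub (Dvd.intro _ rfl) (hg γ (by rwa [mem_support_iff] at hγ))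
    obtain ⟨t, ht⟩ := h4
    have h5 : 0 ≤ t := by
      by_contra hneg
      push Not at hneg
      have h6 := hle γ hγ
      have h7 : (0 : ℤ) < q := by exact_mod_cast hq
      nlinarith
    obtain ⟨t', rfl⟩ := Int.eq_ofNat_of_zero_le h5
    have h6 : (D - dg γ).toNat = q * t' := by
      rw [ht]
      have : (q : ℤ) * (t' : ℤ) = ((q * t' : ℕ) : ℤ) := by push_cast; ring
      rw [this, Int.toNat_natCast]
    rw [h6, monomial_add_single, mul_comm, hΦ.of_dvd (Dvd.intro _ rfl), S.one, one_pow, one_mul]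
  obtain ⟨h, _, hh⟩ := S.ker D g' h1 h2
  rw [← h3, hh, hf]

/-- **extension** -/
theorem exists_ext {p : ℕ} [Fact p.Prime] [CharP k p] {e : ℕ} {Φ : MvPolynomial σ k →ₗ[k] K}
    (hΦ : S.QK (p ^ e) Φ) (hf : ∀ g, Φ (S.f * g) = 0) :
    ∃ φ : K →ₗ[k] K, (∀ a b, φ (a ^ (p ^ e) * b) = a ^ (p ^ e) * φ b) ∧
      ∀ g ∈ VV' σ k (p ^ e), φ (S.ev g) = Φ g := by
  have hq : 0 < p ^ e := pow_pos (Fact.out : p.Prime).pos _
  have hvan := fun g hg h0 => S.vanish hq hΦ hf (g := g) hg h0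
  have hpow : ∀ s : MvPolynomial σ k, S.ev (s ^ (p ^ e)) = S.ev s ^ (p ^ e) := fun s => map_pow _ _ _
  set G : Submodule k (K × K) :=
    { carrier := {x | ∃ g ∈ VV' σ k (p ^ e), ∃ s : MvPolynomial σ k, S.ev s ≠ 0 ∧
        x.1 * S.ev s ^ (p ^ e) = S.ev g ∧ x.2 * S.ev s ^ (p ^ e) = Φ g}
      zero_mem' := ⟨0, Subalgebra.zero_mem _, 1, by simp, by simp, by simp⟩
      add_mem' := by
        rintro ⟨u1, v1⟩ ⟨u2, v2⟩ ⟨g1, hg1, s1, hs1, h1, h1'⟩ ⟨g2, hg2, s2, hs2, h2, h2'⟩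
        refine ⟨s2 ^ (p ^ e) * g1 + s1 ^ (p ^ e) * g2, Subalgebra.add_mem _
          (Subalgebra.mul_mem _ (pow_mem_VV' _) hg1) (Subalgebra.mul_mem _ (pow_mem_VV' _) hg2),
          s1 * s2, by rw [map_mul]; exact mul_ne_zero hs1 hs2, ?_, ?_⟩
        · simp only [Prod.fst_add, map_add, map_mul, map_pow]
          simp only at h1 h2
          rw [← h1, ← h2]
          ring
        · simp only [Prod.snd_add, map_add, map_mul]
          rw [QK.pow_char hΦ, QK.pow_char hΦ]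
          simp only at h1' h2'
          rw [← h1', ← h2']
          ring
      smul_mem' := by
        rintro c ⟨u, v⟩ ⟨g, hg, s, hs, h, h'⟩
        refine ⟨c • g, Subalgebra.smul_mem _ hg c, s, hs, ?_, ?_⟩
        · simp only [Prod.smul_fst, map_smul, smul_mul_assoc] at h ⊢
          rw [h]
        · simp only [Prod.smul_snd, map_smul, smul_mul_assoc] at h' ⊢
          rw [h'] } with hG
  have hG0 : ∀ v, ((0 : K), v) ∈ G → v = 0 := by
    rintro v ⟨g, hg, s, hs, h, h'⟩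
    simp only [zero_mul] at h
    simp only at h'
    rw [hvan g hg h.symm] at h'
    rcases mul_eq_zero.mp h' with h'' | h''
    · exact h''
    · exact absurd h'' (pow_ne_zero _ hs)
  obtain ⟨φ, hφ⟩ := exists_linearMap_of_rel G (by
    intro u
    obtain ⟨g, hg, s, hs, h⟩ := S.exists_rep (p := p) e u
    refine ⟨Φ g / S.ev s ^ (p ^ e), g, hg, s, hs, h, ?_⟩
    simp only
    rw [div_mul_cancel₀ _ (pow_ne_zero _ hs)]) hG0
  have huniq : ∀ u v v', (u, v) ∈ G → (u, v') ∈ G → v = v' := by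
    intro u v v' h h'
    have := G.sub_mem h h'
    rw [Prod.mk_sub_mk, sub_self] at this
    exact sub_eq_zero.mp (hG0 _ this)
  refine ⟨φ, ?_, ?_⟩
  · intro a b
    apply huniq _ _ _ (hφ _)
    obtain ⟨g, hg, s, hs, h, h'⟩ := hφ b
    obtain ⟨ga, sa, hsa, ha⟩ := S.frac a
    have ha' : a * S.ev sa = S.ev ga := ha
    have hsa' : S.ev sa ≠ 0 := hsa
    refine ⟨ga ^ (p ^ e) * g, Subalgebra.mul_mem _ (pow_mem_VV' _) hg, sa * s, ?_, ?_, ?_⟩
    · rw [map_mul]; exact mul_ne_zero hsa' hs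
    · simp only [map_mul, map_pow] at h ⊢
      rw [← h, ← ha']
      ring
    · simp only at h' ⊢
      rw [QK.pow_char hΦ, ← h', ← ha', map_mul]
      ring
  · intro g hg
    apply huniq _ _ _ (hφ _)
    exact ⟨g, hg, 1, by simp, by simp, by simp⟩

/-- **uniqueness** -/
theorem ext_uniq {p : ℕ} [Fact p.Prime] [CharP k p] {e : ℕ} {φ φ' : K →ₗ[k] K}
    (h : ∀ a b, φ (a ^ (p ^ e) * b) = a ^ (p ^ e) * φ b)
    (h' : ∀ a b, φ' (a ^ (p ^ e) * b) = a ^ (p ^ e) * φ' b)
    (heq : ∀ γ, ((p ^ e : ℕ) : ℤ) ∣ dg γ →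
      φ (S.ev (monomial γ 1)) = φ' (S.ev (monomial γ 1))) : φ = φ' := by
  apply LinearMap.ext
  intro u
  obtain ⟨g, hg, s, hs, hu⟩ := S.exists_rep (p := p) e u
  have h1 : φ (S.ev g) = φ' (S.ev g) :=
    eq_on_VV' (A := φ.comp S.ev.toLinearMap) (B := φ'.comp S.ev.toLinearMap) heq hg
  rw [← hu, mul_comm, h, h'] at h1
  exact mul_left_cancel₀ (pow_ne_zero _ hs) h1

/-- operators over an open set of the standard covering -/
def DD (p : ℕ) (J : Set σ) : Set (K →ₗ[k] K) :=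
  {φ | (∃ e : ℕ, ∀ a b, φ (a ^ (p ^ e) * b) = a ^ (p ^ e) * φ b) ∧
    ∀ u ∈ S.OO 0 J, φ u ∈ S.OO 0 J}

lemma level_mono {p : ℕ} {φ : K →ₗ[k] K} {e e' : ℕ} (hee : e ≤ e')
    (h : ∀ a b, φ (a ^ (p ^ e) * b) = a ^ (p ^ e) * φ b) :
    ∀ a b, φ (a ^ (p ^ e') * b) = a ^ (p ^ e') * φ b := by
  intro a b
  obtain ⟨t, ht⟩ := pow_dvd_pow p hee
  rw [ht, mul_comm (p ^ e) t, pow_mul a t (p ^ e)]
  exact h _ _

/-- operators preserving functions give elements of the homomorphism system -/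
lemma toHH {p : ℕ} [Fact p.Prime] [CharP k p] {e : ℕ} {J : Set σ} (hJ : J.Nonempty)
    {φ : K →ₗ[k] K} (h : ∀ a b, φ (a ^ (p ^ e) * b) = a ^ (p ^ e) * φ b)
    (hO : ∀ u ∈ S.OO 0 J, φ u ∈ S.OO 0 J) :
    restr K (p ^ e) 0 (φ.comp S.ev.toLinearMap) ∈ S.HH (p ^ e) 0 J := by
  refine ⟨?_, ?_, ?_⟩
  · intro a g
    rw [restr_apply, restr_apply, prj_QL]
    simp only [LinearMap.comp_apply, AlgHom.toLinearMap_apply, map_mul, map_pow, S.ev_X, h]
  · intro γ hγ
    rw [restr_apply, prj_pos hγ]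
    rw [add_zero] at hγ ⊢
    obtain ⟨b, hb⟩ := hJ
    obtain ⟨t, ht⟩ := hγ
    have ht0 : 0 ≤ t := by
      by_contra hneg
      push Not at hneg
      have h6 := dg_nonneg γ
      have h7 : (0 : ℤ) < ((p ^ e : ℕ) : ℤ) := by
        exact_mod_cast pow_pos (Fact.out : p.Prime).pos _
      nlinarith
    obtain ⟨t', rfl⟩ := Int.eq_ofNat_of_zero_le ht0
    set δ : σ → ℤ := cst' γ - Pi.single b (dg γ) with hδ
    have h1 : cst' γ = Pi.single b (dg γ) + δ := by rw [hδ]; ring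
    have h2 : S.xm δ ∈ S.OO 0 J := by
      apply S.xm_mem
      · rw [hδ]
        simp only [Pi.sub_apply, Finset.sum_sub_distrib, Finset.sum_pi_single', Finset.mem_univ,
          if_true]
        rw [sum_cst', sub_self]
      · intro a ha
        have hab : a ≠ b := fun h => ha (h ▸ hb)
        rw [hδ, Pi.sub_apply, Pi.single_eq_of_ne hab, sub_zero]
        exact Int.natCast_nonneg _
    have h3 := hO _ h2
    have h4 : φ (S.ev (monomial γ 1)) = S.xm (Pi.single b (dg γ)) * φ (S.xm δ) := by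
      rw [S.ev_monomial, h1, S.xm_add, S.xm_single, ht]
      have : (S.ξ b) ^ (((p ^ e : ℕ) : ℤ) * (t' : ℤ)) = ((S.ξ b) ^ t') ^ (p ^ e) := by
        rw [← pow_mul, mul_comm t', ← zpow_natCast]
        push_cast
        rfl
      rw [this, h]
    show φ (S.ev (monomial γ 1)) ∈ _
    rw [h4]
    have h5 := S.OO_mul (S.xm_mem (J := J) (γ := Pi.single b (dg γ)) (d := dg γ)
      (by simp) (fun a ha => by
        have hab : a ≠ b := fun h => ha (h ▸ hb)
        rw [Pi.single_eq_of_ne hab])) h3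
    rwa [add_zero] at h5
  · intro γ hγ
    rw [restr_apply, prj_neg hγ, map_zero]

/-- graded homomorphisms extend to operators preserving functions -/
lemma ext_mem {p : ℕ} [Fact p.Prime] [CharP k p] {e : ℕ} {J : Set σ}
    {Φ : MvPolynomial σ k →ₗ[k] K} (hΦ : Φ ∈ S.HH (p ^ e) 0 J) {φ : K →ₗ[k] K}
    (h : ∀ a b, φ (a ^ (p ^ e) * b) = a ^ (p ^ e) * φ b)
    (hφ : ∀ g ∈ VV' σ k (p ^ e), φ (S.ev g) = Φ g) : ∀ u ∈ S.OO 0 J, φ u ∈ S.OO 0 J := by
  classical
  intro u hu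
  apply S.OO_map _ hu
  intro γ h1 h2
  set B : ℕ := ∑ a, (γ a).natAbs with hB
  have hBa : ∀ a, (γ a).natAbs ≤ B := fun a =>
    Finset.single_le_sum (f := fun a => (γ a).natAbs) (fun _ _ => Nat.zero_le _) (Finset.mem_univ a)
  set β : σ → ℤ := fun a => if a ∈ J then (B : ℤ) else 0 with hβ
  have hβ0 : ∀ a, a ∉ J → β a = 0 := fun a ha => by rw [hβ]; exact if_neg ha
  have hq : 0 < p ^ e := pow_pos (Fact.out : p.Prime).pos _
  have hq' : (1 : ℤ) ≤ ((p ^ e : ℕ) : ℤ) := by exact_mod_cast hq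
  set δ : σ → ℤ := γ + ((p ^ e : ℕ) : ℤ) • β with hδ
  have hδ0 : ∀ a, 0 ≤ δ a := by
    intro a
    rw [hδ, Pi.add_apply, Pi.smul_apply, smul_eq_mul]
    by_cases ha : a ∈ J
    · have h4 : β a = B := by rw [hβ]; exact if_pos ha
      rw [h4]
      have h5 := hBa a
      have h6 : -(B : ℤ) ≤ γ a := by omega
      nlinarith
    · rw [hβ0 a ha, mul_zero, add_zero]; exact h2 a ha
  set ε : σ →₀ ℕ := Finsupp.equivFunOnFinite.symm (fun a => (δ a).toNat) with hε
  have hε1 : cst' ε = δ := by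
    funext a
    show (((δ a).toNat : ℕ) : ℤ) = δ a
    exact Int.toNat_of_nonneg (hδ0 a)
  have hdε : dg ε = ((p ^ e : ℕ) : ℤ) * ∑ a, β a := by
    rw [← sum_cst', hε1, hδ]
    simp only [Pi.add_apply, Pi.smul_apply, smul_eq_mul, Finset.sum_add_distrib, h1, zero_add,
      Finset.mul_sum]
  have h3 : ((p ^ e : ℕ) : ℤ) ∣ dg ε := by rw [hdε]; exact Dvd.intro _ rfl
  have h4 : φ (S.xm δ) = Φ (monomial ε 1) := by
    rw [← hφ _ (mono_mem_VV' 1 h3), S.ev_monomial, hε1]
  have h5 : S.xm δ = (S.xm β) ^ (p ^ e) * S.xm γ := by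
    rw [hδ, S.xm_add, mul_comm]
    congr 1
    unfold xm
    rw [← Finset.prod_pow]
    apply Finset.prod_congr rfl
    intro a _
    rw [Pi.smul_apply, smul_eq_mul, mul_comm, zpow_mul, zpow_natCast]
  have h6 : (S.xm β) ^ (p ^ e) = S.xm (((p ^ e : ℕ) : ℤ) • β) := by
    unfold xm
    rw [← Finset.prod_pow]
    apply Finset.prod_congr rfl
    intro a _
    rw [Pi.smul_apply, smul_eq_mul, mul_comm, zpow_mul, zpow_natCast]
  rw [h5, h] at h4
  have h7 : φ (S.xm γ) = S.xm (-(((p ^ e : ℕ) : ℤ) • β)) * Φ (monomial ε 1) := by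
    rw [← h4, h6, ← mul_assoc, ← S.xm_add, neg_add_cancel, S.xm_zero, one_mul]
  rw [h7]
  have h8 := hΦ.2.1 ε (by rw [add_zero]; exact h3)
  rw [add_zero] at h8
  have h9 := S.OO_mul (S.xm_mem (J := J) (γ := -(((p ^ e : ℕ) : ℤ) • β)) (d := -dg ε)
    (by
      rw [hdε]
      simp only [Pi.neg_apply, Pi.smul_apply, smul_eq_mul, Finset.sum_neg_distrib, Finset.mul_sum])
    (fun a ha => by rw [Pi.neg_apply, Pi.smul_apply, hβ0 a ha, smul_zero, neg_zero])) h8
  rwa [neg_add_cancel] at h9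

end Setup

end Pool.Agent.Lib.MP_71be78_ag
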