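import Pool.Agent.Lib.MP_71be78_ag.Cech

/-!
# Functions on a hypersurface given by a generic point of its cone
-/

set_option linter.unusedSectionVars false

namespace Pool.Agent.Lib.MP_71be78_ag

open Finset MvPolynomial

section laurent2
variable {σ : Type*} [Fintype σ] [DecidableEq σ] {k : Type*} [Field k]

/-- Laurent monomials -/
noncomputable def lm (k : Type*) [Field k] {σ : Type*} (γ : σ → ℤ) : Lau σ k :=
  AddMonoidAlgebra.single γ 1

lemma lm_mul (α β : σ → ℤ) : lm k α * lm k β = lm k (α + β) := by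
  unfold lm; rw [AddMonoidAlgebra.single_mul_single, one_mul]

lemma lm_zero : lm k (0 : σ → ℤ) = 1 := rfl

lemma lau_sum (u : Lau σ k) : u = ∑ γ ∈ u.coeff.support, u.coeff γ • lm k γ := by
  apply AddMonoidAlgebra.ext
  rw [AddMonoidAlgebra.coeff_sum]
  conv_lhs => rw [← Finsupp.sum_single u.coeff]
  unfold Finsupp.sum
  apply Finset.sum_congr rfl
  intro γ _
  unfold lm
  rw [AddMonoidAlgebra.coeff_smul, AddMonoidAlgebra.coeff_single, Finsupp.smul_single, smul_eq_mul,
    mul_one]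

lemma lm_mem {d : ℤ} {J : Set σ} {γ : σ → ℤ} (h1 : ∑ a, γ a = d) (h2 : ∀ a, a ∉ J → 0 ≤ γ a) :
    lm k γ ∈ LH σ k d J := by
  classical
  intro β hβ
  unfold lm at hβ
  rw [AddMonoidAlgebra.coeff_single, Finsupp.single_apply] at hβ
  split_ifs at hβ with h
  · rw [← h]; exact ⟨h1, h2⟩
  · exact absurd rfl hβ

lemma LH_map {M : Type*} [AddCommGroup M] [Module k M] {A : Lau σ k →ₗ[k] M} {S : Submodule k M}
    {d : ℤ} {J : Set σ}
    (h : ∀ γ : σ → ℤ, ∑ a, γ a = d → (∀ a, a ∉ J → 0 ≤ γ a) → A (lm k γ) ∈ S)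
    {u : Lau σ k} (hu : u ∈ LH σ k d J) : A u ∈ S := by
  rw [lau_sum u, map_sum]
  apply Submodule.sum_mem
  intro γ hγ
  rw [map_smul]
  apply Submodule.smul_mem
  obtain ⟨h1, h2⟩ := hu γ (by rwa [Finsupp.mem_support_iff] at hγ)
  exact h γ h1 h2

lemma LH_mul {d e : ℤ} {J : Set σ} {u v : Lau σ k} (hu : u ∈ LH σ k d J) (hv : v ∈ LH σ k e J) :
    u * v ∈ LH σ k (d + e) J := by
  have h1 : (LinearMap.mulRight k v) u ∈ LH σ k (d + e) J := by
    apply LH_map _ hu
    intro γ h1 h2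
    rw [LinearMap.mulRight_apply]
    have h3 : (LinearMap.mulLeft k (lm k γ)) v ∈ LH σ k (d + e) J := by
      apply LH_map _ hv
      intro β h3 h4
      rw [LinearMap.mulLeft_apply, lm_mul]
      apply lm_mem
      · simp only [Pi.add_apply, Finset.sum_add_distrib, h1, h3]
      · intro a ha
        exact add_nonneg (h2 a ha) (h4 a ha)
    exact h3
  exact h1

/-- exponents of polynomials as Laurent exponents -/
def cst' (γ : σ →₀ ℕ) : σ → ℤ := fun a => (γ a : ℤ)

lemma cst'_add (α β : σ →₀ ℕ) : cst' (α + β) = cst' α + cst' β := by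
  funext a; simp [cst']

lemma sum_cst' (γ : σ →₀ ℕ) : ∑ a, cst' γ a = dg γ := rfl

/-- polynomials as Laurent polynomials -/
noncomputable def inc (σ : Type*) [Fintype σ] [DecidableEq σ] (k : Type*) [Field k] :
    MvPolynomial σ k →ₐ[k] Lau σ k :=
  aeval (fun a => lm k (Pi.single a 1))

lemma lm_pow (α : σ → ℤ) (n : ℕ) : lm k α ^ n = lm k (n • α) := by
  induction n with
  | zero => rw [pow_zero, zero_smul, lm_zero]
  | succ n ih => rw [pow_succ, ih, lm_mul, succ_nsmul]

lemma lm_sum {ι : Type*} (s : Finset ι) (F : ι → σ → ℤ) :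
    ∏ i ∈ s, lm k (F i) = lm k (∑ i ∈ s, F i) := by
  classical
  induction s using Finset.induction_on with
  | empty => rw [Finset.prod_empty, Finset.sum_empty, lm_zero]
  | insert a s ha ih => rw [Finset.prod_insert ha, Finset.sum_insert ha, ih, lm_mul]

lemma inc_monomial (γ : σ →₀ ℕ) : inc σ k (monomial γ 1) = lm k (cst' γ) := by
  unfold inc
  rw [aeval_monomial, map_one, one_mul, Finsupp.prod_fintype _ _ (by simp)]
  have h1 : ∀ a, lm k (Pi.single a 1 : σ → ℤ) ^ (γ a) = lm k ((γ a) • (Pi.single a 1 : σ → ℤ)) :=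
    fun a => lm_pow _ _
  rw [Finset.prod_congr rfl (fun a _ => h1 a), lm_sum]
  congr 1
  funext b
  simp [cst', Pi.single_apply]

lemma inc_coeff (u : MvPolynomial σ k) (γ : σ →₀ ℕ) : (inc σ k u).coeff (cst' γ) = coeff γ u := by
  set L : Lau σ k →ₗ[k] k :=
    { toFun := fun u => u.coeff (cst' γ)
      map_add' := fun u v => by rw [AddMonoidAlgebra.coeff_add, Finsupp.add_apply]
      map_smul' := fun c u => by
        rw [AddMonoidAlgebra.coeff_smul, Finsupp.smul_apply]; rfl } with hL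
  have : L.comp (inc σ k).toLinearMap = lcoeff k γ := by
    apply lin_ext
    intro β
    rw [LinearMap.comp_apply, AlgHom.toLinearMap_apply, inc_monomial, lcoeff_apply, coeff_monomial]
    show (lm k (cst' β)).coeff (cst' γ) = _
    unfold lm
    rw [AddMonoidAlgebra.coeff_single, Finsupp.single_apply]
    have : cst' β = cst' γ ↔ β = γ := by
      constructor
      · intro h
        ext a
        have := congrFun h a
        simpa [cst'] using this
      · rintro rfl; rfl
    simp only [this]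
  exact LinearMap.congr_fun this u

lemma inc_injective : Function.Injective (inc σ k) := by
  intro u v h
  ext γ
  rw [← inc_coeff, ← inc_coeff, h]

lemma inc_mem {D : ℤ} (J : Set σ) {u : MvPolynomial σ k} (hu : u ∈ Hg k σ D) :
    inc σ k u ∈ LH σ k D J := by
  have : (inc σ k).toLinearMap u ∈ LH σ k D J := by
    apply map_Hg _ hu
    intro γ hγ
    rw [AlgHom.toLinearMap_apply, inc_monomial]
    exact lm_mem hγ (fun a _ => Int.natCast_nonneg _)
  exact this

/-- Laurent polynomials with non-negative exponents are polynomials -/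
lemma exists_inc {D : ℤ} {w : Lau σ k} (hw : w ∈ LH σ k D ∅) : ∃ g ∈ Hg k σ D, inc σ k g = w := by
  have : (LinearMap.id : Lau σ k →ₗ[k] Lau σ k) w ∈ (Hg k σ D).map (inc σ k).toLinearMap := by
    apply LH_map _ hw
    intro γ h1 h2
    have h3 : ∀ a, 0 ≤ γ a := fun a => h2 a (Set.notMem_empty a)
    set β : σ →₀ ℕ := Finsupp.equivFunOnFinite.symm (fun a => (γ a).toNat) with hβ
    have h4 : cst' β = γ := by
      funext a
      show (((γ a).toNat : ℕ) : ℤ) = γ a
      exact Int.toNat_of_nonneg (h3 a)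
    refine ⟨monomial β 1, monomial_mem_Hg' ?_, ?_⟩
    · rw [← sum_cst', h4, h1]
    · rw [AlgHom.toLinearMap_apply, inc_monomial, h4]; rfl
  obtain ⟨g, hg1, hg2⟩ := this
  exact ⟨g, hg1, hg2⟩

end laurent2

/-- A hypersurface of degree two in projective space together with its function field: `ξ` are the
homogeneous coordinates of the generic point, normalized at `a0`. -/
structure Setup (k : Type*) [Field k] (σ : Type*) [Fintype σ] (K : Type*)
    [Field K] [Algebra k K] where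
  ξ : σ → K
  ne : ∀ a, ξ a ≠ 0
  a0 : σ
  one : ξ a0 = 1
  f : MvPolynomial σ k
  hf : f ∈ Hg k σ 2
  f0 : f ≠ 0
  evf : aeval ξ f = 0
  ker : ∀ D, ∀ g ∈ Hg k σ D, aeval ξ g = 0 → ∃ h ∈ Hg k σ (D - 2), g = f * h
  frac : ∀ u : K, ∃ g s : MvPolynomial σ k, aeval ξ s ≠ 0 ∧ u * aeval ξ s = aeval ξ g

namespace Setup
variable {σ : Type*} [Fintype σ] [DecidableEq σ] {k : Type*} [Field k] {K : Type*}
    [Field K] [Algebra k K] (S : Setup k σ K)

/-- the value of a Laurent monomial -/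
noncomputable def xm (γ : σ → ℤ) : K := ∏ a, S.ξ a ^ (γ a)

lemma xm_add (α β : σ → ℤ) : S.xm (α + β) = S.xm α * S.xm β := by
  unfold xm
  rw [← Finset.prod_mul_distrib]
  exact Finset.prod_congr rfl fun a _ => zpow_add₀ (S.ne a) _ _

@[simp] lemma xm_zero : S.xm 0 = 1 := by simp [xm]

lemma xm_ne (γ : σ → ℤ) : S.xm γ ≠ 0 := Finset.prod_ne_zero_iff.mpr fun a _ => zpow_ne_zero _ (S.ne a)

lemma xm_single (a : σ) (n : ℤ) : S.xm (Pi.single a n) = S.ξ a ^ n := by
  unfold xm
  rw [Finset.prod_eq_single a]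
  · rw [Pi.single_eq_same]
  · intro b _ hb
    rw [Pi.single_eq_of_ne hb, zpow_zero]
  · simp

/-- evaluation of Laurent polynomials -/
noncomputable def evL : Lau σ k →ₐ[k] K :=
  AddMonoidAlgebra.lift k K (σ → ℤ)
    { toFun := fun γ => S.xm γ.toAdd
      map_one' := S.xm_zero
      map_mul' := fun _ _ => S.xm_add _ _ }

lemma evL_lm (γ : σ → ℤ) : S.evL (lm k γ) = S.xm γ := by
  unfold evL lm
  rw [AddMonoidAlgebra.lift_single, one_smul]
  rfl

/-- evaluation of polynomials -/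
noncomputable def ev : MvPolynomial σ k →ₐ[k] K := aeval S.ξ

lemma ev_X (a : σ) : S.ev (X a) = S.ξ a := aeval_X _ _

lemma evL_inc (u : MvPolynomial σ k) : S.evL (inc σ k u) = S.ev u := by
  have : S.evL.comp (inc σ k) = S.ev := by
    apply MvPolynomial.algHom_ext
    intro a
    rw [AlgHom.comp_apply, S.ev_X]
    unfold inc
    rw [aeval_X, evL_lm, xm_single, zpow_one]
  exact DFunLike.congr_fun this u

lemma ev_monomial (γ : σ →₀ ℕ) : S.ev (monomial γ 1) = S.xm (cst' γ) := by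
  rw [← evL_inc, inc_monomial, evL_lm]

lemma evL_ker {d : ℤ} {J : Set σ} {u : Lau σ k} (hu : u ∈ LH σ k d J) (h0 : S.evL u = 0) :
    ∃ v ∈ LH σ k (d - 2) J, u = inc σ k S.f * v := by
  classical
  -- a bound for the exponents
  obtain ⟨B, hB⟩ : ∃ B : ℕ, ∀ γ ∈ u.coeff.support, ∀ a, -(B : ℤ) ≤ γ a := by
    refine ⟨∑ γ ∈ u.coeff.support, ∑ a, (γ a).natAbs, ?_⟩
    intro γ hγ a
    have h1 : (γ a).natAbs ≤ ∑ a, (γ a).natAbs :=
      Finset.single_le_sum (f := fun a => (γ a).natAbs) (fun _ _ => Nat.zero_le _) (Finset.mem_univ a)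
    have h2 : ∑ a, (γ a).natAbs ≤ ∑ γ ∈ u.coeff.support, ∑ a, (γ a).natAbs :=
      Finset.single_le_sum (f := fun γ : σ → ℤ => ∑ a, (γ a).natAbs)
        (fun _ _ => Nat.zero_le _) hγ
    omega
  set β : σ → ℤ := fun a => if a ∈ J then (B : ℤ) else 0 with hβ
  have hβ0 : ∀ a, a ∉ J → β a = 0 := fun a ha => by rw [hβ]; exact if_neg ha
  have h1 : u * lm k β ∈ LH σ k (d + ∑ a, β a) ∅ := by
    have : (LinearMap.mulRight k (lm k β)) u ∈ LH σ k (d + ∑ a, β a) ∅ := by
      rw [lau_sum u, map_sum]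
      apply Submodule.sum_mem
      intro γ hγ
      rw [map_smul]
      apply Submodule.smul_mem
      rw [LinearMap.mulRight_apply, lm_mul]
      obtain ⟨h1, h2⟩ := hu γ (by rwa [Finsupp.mem_support_iff] at hγ)
      apply lm_mem
      · simp only [Pi.add_apply, Finset.sum_add_distrib, h1]
      · intro a _
        rw [Pi.add_apply]
        by_cases ha : a ∈ J
        · have h3 := hB γ hγ a
          have h4 : β a = B := by rw [hβ]; exact if_pos ha
          omega
        · rw [hβ0 a ha, add_zero]; exact h2 a ha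
    exact this
  obtain ⟨g, hg1, hg2⟩ := exists_inc h1
  have h2 : S.ev g = 0 := by rw [← evL_inc, hg2, map_mul, h0, zero_mul]
  obtain ⟨h, hh1, hh2⟩ := S.ker _ g hg1 h2
  refine ⟨inc σ k h * lm k (-β), ?_, ?_⟩
  · have h3 := LH_mul (inc_mem J hh1) (lm_mem (k := k) (γ := -β) (d := -∑ a, β a) (J := J)
      (by simp) (fun a ha => by rw [Pi.neg_apply, hβ0 a ha, neg_zero]))
    convert h3 using 2
    ring
  · rw [← mul_assoc, ← map_mul, ← hh2, hg2, mul_assoc, lm_mul, add_neg_cancel, lm_zero, mul_one]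

/-- homogeneous functions of degree `d` on the open set where the coordinates of `J` are
invertible -/
noncomputable def OO (d : ℤ) (J : Set σ) : Submodule k K := (LH σ k d J).map S.evL.toLinearMap

lemma OO_mono (d : ℤ) : Monotone (S.OO d) := fun _ _ h => Submodule.map_mono (LH_mono d h)

lemma xm_mem {d : ℤ} {J : Set σ} {γ : σ → ℤ} (h1 : ∑ a, γ a = d) (h2 : ∀ a, a ∉ J → 0 ≤ γ a) :
    S.xm γ ∈ S.OO d J := ⟨lm k γ, lm_mem h1 h2, S.evL_lm γ⟩

lemma OO_mul {d e : ℤ} {J : Set σ} {u v : K} (hu : u ∈ S.OO d J) (hv : v ∈ S.OO e J) :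
    u * v ∈ S.OO (d + e) J := by
  obtain ⟨u', hu', rfl⟩ := hu
  obtain ⟨v', hv', rfl⟩ := hv
  refine ⟨u' * v', LH_mul hu' hv', ?_⟩
  simp only [AlgHom.toLinearMap_apply, map_mul]

lemma OO_map {M : Type*} [AddCommGroup M] [Module k M] {A : K →ₗ[k] M} {T : Submodule k M}
    {d : ℤ} {J : Set σ}
    (h : ∀ γ : σ → ℤ, ∑ a, γ a = d → (∀ a, a ∉ J → 0 ≤ γ a) → A (S.xm γ) ∈ T)
    {u : K} (hu : u ∈ S.OO d J) : A u ∈ T := by
  obtain ⟨u', hu', rfl⟩ := hu
  have : (A.comp S.evL.toLinearMap) u' ∈ T := by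
    apply LH_map _ hu'
    intro γ h1 h2
    rw [LinearMap.comp_apply, AlgHom.toLinearMap_apply, evL_lm]
    exact h γ h1 h2
  exact this

theorem OO_exact (hN : 3 ≤ Fintype.card σ) {d : ℤ} (hd : 0 ≤ d) : CExact (S.OO d) := by
  have : Nonempty σ := ⟨S.a0⟩
  have hN' : (3 : ℤ) ≤ Fintype.card σ := by exact_mod_cast hN
  have hne : inc σ k S.f ≠ 0 := by
    intro h
    apply S.f0
    apply inc_injective (k := k)
    rw [h, map_zero]
  have h1 : CExact (LH σ k (d - 2)) := LH_exact (by omega)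
  have h2 : CExact (LH σ k d) := LH_exact (by omega)
  refine h1.quot h2 (LH_mono d) (LinearMap.mulLeft k (inc σ k S.f)) ?_ ?_ S.evL.toLinearMap ?_ ?_
  · intro u v huv
    simp only [LinearMap.mulLeft_apply] at huv
    exact mul_left_cancel₀ hne huv
  · intro J v hv
    rw [LinearMap.mulLeft_apply]
    have := LH_mul (inc_mem J S.hf) hv
    rwa [add_sub_cancel] at this
  · intro v
    rw [LinearMap.mulLeft_apply, AlgHom.toLinearMap_apply, map_mul, evL_inc]
    rw [show S.ev S.f = 0 from S.evf, zero_mul]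
  · intro J u hu h0
    obtain ⟨v, hv1, hv2⟩ := S.evL_ker hu h0
    exact ⟨v, hv1, hv2⟩

end Setup

end Pool.Agent.Lib.MP_71be78_ag
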