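import Pool.Agent.Lib.MP_71be78_ag.Func

/-!
# Homomorphism systems and their exactness
-/

set_option linter.unusedSectionVars false

namespace Pool.Agent.Lib.MP_71be78_ag

open Finset MvPolynomial

namespace Setup
variable {σ : Type*} [Fintype σ] [DecidableEq σ] {k : Type*} [Field k] {K : Type*}
    [Field K] [Algebra k K] (S : Setup k σ K)

/-- linearity over the `q`-th powers of the coordinates, for maps to the function field -/
def QK (q : ℕ) (Φ : MvPolynomial σ k →ₗ[k] K) : Prop := ∀ a g, Φ (X a ^ q * g) = S.ξ a ^ q * Φ g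

variable {S}

lemma QK.expand {q : ℕ} {Φ : MvPolynomial σ k →ₗ[k] K} (hΦ : S.QK q Φ)
    (h g : MvPolynomial σ k) :
    Φ (MvPolynomial.expand q h * g) = S.ev (MvPolynomial.expand q h) * Φ g := by
  induction h using MvPolynomial.induction_on generalizing g with
  | C a =>
    rw [expand_C, ← smul_eq_C_mul, map_smul]
    unfold ev
    rw [aeval_C, Algebra.smul_def]
  | add p r hp hr =>
    rw [map_add, add_mul, map_add, hp, hr, map_add, add_mul]
  | mul_X p n hp =>
    rw [map_mul (MvPolynomial.expand q), expand_X, mul_assoc, hp, hΦ, map_mul, map_pow, S.ev_X,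
      mul_assoc]

lemma QK.pow_char {p : ℕ} [Fact p.Prime] [CharP k p] {e : ℕ} {Φ : MvPolynomial σ k →ₗ[k] K}
    (hΦ : S.QK (p ^ e) Φ) (h g : MvPolynomial σ k) :
    Φ (h ^ (p ^ e) * g) = S.ev h ^ (p ^ e) * Φ g := by
  have : CharP K p := charP_of_injective_algebraMap (algebraMap k K).injective p
  induction h using MvPolynomial.induction_on generalizing g with
  | C a =>
    rw [← C_pow, ← smul_eq_C_mul, map_smul]
    unfold ev
    rw [aeval_C, Algebra.smul_def, map_pow]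
  | add u r hp hr =>
    rw [add_pow_char_pow, add_mul, map_add, hp, hr, map_add, add_pow_char_pow, add_mul]
  | mul_X u n hp =>
    rw [mul_pow, mul_assoc, hp, hΦ, map_mul, mul_pow, S.ev_X, mul_assoc]

lemma QK.of_dvd {q q' : ℕ} (h : q ∣ q') {Φ : MvPolynomial σ k →ₗ[k] K} (hΦ : S.QK q Φ) :
    S.QK q' Φ := by
  obtain ⟨s, rfl⟩ := h
  intro a g
  have := hΦ.expand (X a ^ s) g
  rw [map_pow, expand_X, ← pow_mul] at this
  rw [this, map_pow, S.ev_X]

lemma QK.mono {q : ℕ} {Φ : MvPolynomial σ k →ₗ[k] K} (hΦ : S.QK q Φ)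
    (γ : σ →₀ ℕ) (g : MvPolynomial σ k) :
    Φ (monomial (q • γ) 1 * g) = S.xm (cst' (q • γ)) * Φ g := by
  have := hΦ.expand (monomial γ 1) g
  rw [expand_monomial, S.ev_monomial] at this
  exact this

variable (S)

/-- the system of homomorphisms -/
def HH (q : ℕ) (w : ℤ) (J : Set σ) : Submodule k (MvPolynomial σ k →ₗ[k] K) where
  carrier := {Φ | S.QK q Φ ∧
    (∀ γ, (q : ℤ) ∣ dg γ + w → Φ (monomial γ 1) ∈ S.OO (dg γ + w) J) ∧
    (∀ γ, ¬ (q : ℤ) ∣ dg γ + w → Φ (monomial γ 1) = 0)}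
  zero_mem' := ⟨fun a g => by simp, fun γ _ => Submodule.zero_mem _, fun γ _ => rfl⟩
  add_mem' := by
    rintro Φ Ψ ⟨h1, h2, h3⟩ ⟨h1', h2', h3'⟩
    refine ⟨fun a g => ?_, fun γ h => ?_, fun γ h => ?_⟩
    · rw [LinearMap.add_apply, LinearMap.add_apply, h1, h1', mul_add]
    · exact Submodule.add_mem _ (h2 γ h) (h2' γ h)
    · rw [LinearMap.add_apply, h3 γ h, h3' γ h, add_zero]
  smul_mem' := by
    rintro c Φ ⟨h1, h2, h3⟩
    refine ⟨fun a g => ?_, fun γ h => ?_, fun γ h => ?_⟩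
    · rw [LinearMap.smul_apply, LinearMap.smul_apply, h1, mul_smul_comm]
    · exact Submodule.smul_mem _ _ (h2 γ h)
    · rw [LinearMap.smul_apply, h3 γ h, smul_zero]

variable {S}

lemma HH_val {q : ℕ} {w : ℤ} {J : Set σ} {Φ : MvPolynomial σ k →ₗ[k] K} (hΦ : Φ ∈ S.HH q w J)
    {D : ℤ} {u : MvPolynomial σ k} (hu : u ∈ Hg k σ D) :
    ((q : ℤ) ∣ D + w → Φ u ∈ S.OO (D + w) J) ∧ (¬ (q : ℤ) ∣ D + w → Φ u = 0) := by
  obtain ⟨-, h2, h3⟩ := hΦ
  constructor
  · intro h
    apply map_Hg _ hu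
    intro γ hγ
    rw [← hγ]
    exact h2 γ (hγ ▸ h)
  · intro h
    have : Φ u = (0 : MvPolynomial σ k →ₗ[k] K) u := by
      apply eq_on_Hg _ hu
      intro γ hγ
      rw [LinearMap.zero_apply]
      exact h3 γ (hγ ▸ h)
    exact this

lemma HH_mono (q : ℕ) (w : ℤ) : Monotone (S.HH q w) := by
  rintro J J' h Φ ⟨h1, h2, h3⟩
  exact ⟨h1, fun γ hγ => S.OO_mono _ h (h2 γ hγ), h3⟩

theorem HH_exact (hN : 3 ≤ Fintype.card σ) {q : ℕ} (hq : 0 < q) {w : ℤ} (hw : 0 ≤ w) :
    CExact (S.HH q w) := by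
  classical
  intro n c hc hcc
  have hcv : ∀ γ : σ →₀ ℕ, cd (fun b : Fin (n + 1) → σ => c b (monomial γ 1)) = 0 := by
    intro γ
    funext b
    have h1 := cd_map (LinearMap.applyₗ (monomial γ (1 : k)) :
      (MvPolynomial σ k →ₗ[k] K) →ₗ[k] K) c b
    simp only [LinearMap.applyₗ_apply_apply] at h1
    rw [h1, hcc]
    rfl
  have hex : ∀ γ : σ →₀ ℕ, ∃ hγ : (Fin n → σ) → K,
      ((q : ℤ) ∣ dg γ + w → ∀ b, hγ b ∈ S.OO (dg γ + w) (Set.range b)) ∧
      (¬ (q : ℤ) ∣ dg γ + w → ∀ b, hγ b = 0) ∧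
      cd hγ = (fun b : Fin (n + 1) → σ => c b (monomial γ 1)) := by
    intro γ
    by_cases hd : (q : ℤ) ∣ dg γ + w
    · obtain ⟨h, hh1, hh2⟩ := S.OO_exact hN (d := dg γ + w) (add_nonneg (dg_nonneg γ) hw) n
        (fun b : Fin (n + 1) → σ => c b (monomial γ 1)) (fun b => (hc b).2.1 γ hd) (hcv γ)
      exact ⟨h, fun _ => hh1, fun h => absurd hd h, hh2⟩
    · refine ⟨0, fun h => absurd h hd, fun _ _ => rfl, ?_⟩
      rw [cd_zero]
      funext b
      rw [(hc b).2.2 γ hd]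
      rfl
  choose hh hh1 hh2 hh3 using hex
  refine ⟨fun b => mlin (fun γ => S.xm (cst' (q • qt q γ)) * hh (rm q γ) b), ?_, ?_⟩
  · intro b
    refine ⟨?_, ?_, ?_⟩
    · intro a g
      have key : (mlin (fun γ => S.xm (cst' (q • qt q γ)) * hh (rm q γ) b)).comp
          (LinearMap.mulLeft k (X a ^ q)) = (LinearMap.mulLeft k (S.ξ a ^ q)).comp
          (mlin (fun γ => S.xm (cst' (q • qt q γ)) * hh (rm q γ) b)) := by
        apply lin_ext
        intro γ
        simp only [LinearMap.comp_apply, LinearMap.mulLeft_apply]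
        rw [X_pow_eq_monomial, monomial_mul, one_mul, mlin_one, mlin_one, ← mul_assoc]
        have h1 : rm q (Finsupp.single a q + γ) = rm q γ := by
          ext b
          by_cases hb : b = a
          · subst hb; simp
          · simp [Ne.symm hb]
        have h2 : qt q (Finsupp.single a q + γ) = Finsupp.single a 1 + qt q γ := by
          ext b
          by_cases hb : b = a
          · subst hb; simp [Nat.add_div_left _ hq, add_comm]
          · simp [Ne.symm hb]
        have h3 : cst' (q • Finsupp.single a 1 : σ →₀ ℕ) = Pi.single a (q : ℤ) := by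
          funext b
          by_cases hb : b = a
          · subst hb; simp [cst']
          · simp [cst', hb]
        rw [h1, h2, smul_add, cst'_add, S.xm_add, h3, S.xm_single, zpow_natCast]
      exact LinearMap.congr_fun key g
    · intro γ hγ
      rw [mlin_one]
      have h1 := dg_rm_qt q γ
      have h2 : (q : ℤ) ∣ dg (rm q γ) + w := by
        have : dg (rm q γ) + w = (dg γ + w) - q * dg (qt q γ) := by rw [h1]; ring
        rw [this]
        exact dvd_sub hγ (Dvd.intro _ rfl)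
      have h3 := S.OO_mul (S.xm_mem (J := Set.range b) (γ := cst' (q • qt q γ)) rfl
        (fun a _ => Int.natCast_nonneg _)) (hh1 (rm q γ) h2 b)
      convert h3 using 2
      rw [sum_cst', dg_smul, h1]
      ring
    · intro γ hγ
      rw [mlin_one]
      have h1 := dg_rm_qt q γ
      have h2 : ¬ (q : ℤ) ∣ dg (rm q γ) + w := by
        intro h
        apply hγ
        have : dg γ + w = (dg (rm q γ) + w) + q * dg (qt q γ) := by rw [h1]; ring
        rw [this]
        exact dvd_add h (Dvd.intro _ rfl)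
      rw [hh2 _ h2, mul_zero]
  · funext b
    apply lin_ext
    intro γ
    have h1 := cd_map (LinearMap.applyₗ (monomial γ (1 : k)) :
      (MvPolynomial σ k →ₗ[k] K) →ₗ[k] K)
      (fun b : Fin n → σ => mlin (fun γ => S.xm (cst' (q • qt q γ)) * hh (rm q γ) b)) b
    simp only [LinearMap.applyₗ_apply_apply] at h1
    rw [← h1]
    have h2 : (fun b : Fin n → σ => (mlin (fun γ => S.xm (cst' (q • qt q γ)) * hh (rm q γ) b) :
        MvPolynomial σ k →ₗ[k] K) (monomial γ 1)) =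
        (fun b : Fin n → σ => (LinearMap.mulLeft k (S.xm (cst' (q • qt q γ)))) (hh (rm q γ) b)) := by
      funext b
      rw [mlin_one, LinearMap.mulLeft_apply]
    rw [h2, cd_map, hh3, LinearMap.mulLeft_apply, ← (hc b).1.mono, monomial_mul, one_mul, add_comm,
      rm_add_qt]

/-- the projection to degrees `≡ -w` modulo `q` -/
noncomputable def prj (σ : Type*) [Fintype σ] (k : Type*) [Field k] (q : ℕ) (w : ℤ) :
    MvPolynomial σ k →ₗ[k] MvPolynomial σ k := by
  classical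
  exact mlin fun γ => if (q : ℤ) ∣ dg γ + w then monomial γ 1 else 0

lemma prj_pos {q : ℕ} {w : ℤ} {γ : σ →₀ ℕ} (h : (q : ℤ) ∣ dg γ + w) :
    prj σ k q w (monomial γ 1) = monomial γ 1 := by
  unfold prj
  rw [mlin_one, if_pos h]

lemma prj_neg {q : ℕ} {w : ℤ} {γ : σ →₀ ℕ} (h : ¬ (q : ℤ) ∣ dg γ + w) :
    prj σ k q w (monomial γ 1) = 0 := by
  unfold prj
  rw [mlin_one, if_neg h]

lemma prj_Hg {q : ℕ} {w D : ℤ} {u : MvPolynomial σ k} (hu : u ∈ Hg k σ D) :
    ((q : ℤ) ∣ D + w → prj σ k q w u = u) ∧ (¬ (q : ℤ) ∣ D + w → prj σ k q w u = 0) := by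
  constructor
  · intro h
    have : prj σ k q w u = (LinearMap.id : MvPolynomial σ k →ₗ[k] MvPolynomial σ k) u := by
      apply eq_on_Hg _ hu
      intro γ hγ
      rw [prj_pos (hγ ▸ h)]
      rfl
    exact this
  · intro h
    have : prj σ k q w u = (0 : MvPolynomial σ k →ₗ[k] MvPolynomial σ k) u := by
      apply eq_on_Hg _ hu
      intro γ hγ
      rw [prj_neg (hγ ▸ h)]
      rfl
    exact this

lemma prj_QL (q : ℕ) (w : ℤ) : QL q (prj σ k q w) := by
  intro a g
  have key : (prj σ k q w).comp (LinearMap.mulLeft k (X a ^ q)) =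
      (LinearMap.mulLeft k (X a ^ q)).comp (prj σ k q w) := by
    apply lin_ext
    intro γ
    simp only [LinearMap.comp_apply, LinearMap.mulLeft_apply]
    rw [X_pow_eq_monomial, monomial_mul, one_mul]
    have h1 : dg (Finsupp.single a q + γ) + w = (dg γ + w) + q := by
      rw [dg_add, dg_single]; ring
    by_cases h : (q : ℤ) ∣ dg γ + w
    · rw [prj_pos h, prj_pos (by rw [h1]; exact dvd_add h (dvd_refl _)), monomial_mul, one_mul]
    · rw [prj_neg h, prj_neg (by rw [h1]; exact fun h' => h ((dvd_add_left (dvd_refl _)).mp h')),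
        mul_zero]
  exact LinearMap.congr_fun key g

lemma prj_mul {q : ℕ} {w δ : ℤ} {f : MvPolynomial σ k} (hf : f ∈ Hg k σ δ)
    (u : MvPolynomial σ k) : prj σ k q w (f * u) = f * prj σ k q (w + δ) u := by
  have key : (prj σ k q w).comp (LinearMap.mulLeft k f) =
      (LinearMap.mulLeft k f).comp (prj σ k q (w + δ)) := by
    apply lin_ext
    intro γ
    simp only [LinearMap.comp_apply, LinearMap.mulLeft_apply]
    have h1 := mul_mem_Hg hf (monomial_mem_Hg γ (1 : k))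
    have h2 : δ + dg γ + w = dg γ + (w + δ) := by ring
    by_cases h : (q : ℤ) ∣ dg γ + (w + δ)
    · rw [prj_pos h, (prj_Hg h1).1 (h2 ▸ h)]
    · rw [prj_neg h, (prj_Hg h1).2 (h2 ▸ h), mul_zero]
  exact LinearMap.congr_fun key u

variable (S)

/-- restriction to degrees `≡ -w` modulo `q` -/
noncomputable def restr (K : Type*) [Field K] [Algebra k K] (q : ℕ) (w : ℤ) :
    (MvPolynomial σ k →ₗ[k] K) →ₗ[k] (MvPolynomial σ k →ₗ[k] K) :=
  LinearMap.lcomp k K (prj σ k q w)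

/-- multiplication by the equation -/
noncomputable def rho : (MvPolynomial σ k →ₗ[k] K) →ₗ[k] (MvPolynomial σ k →ₗ[k] K) :=
  LinearMap.lcomp k K (LinearMap.mulLeft k S.f)

variable {S}

lemma restr_apply (q : ℕ) (w : ℤ) (Φ : MvPolynomial σ k →ₗ[k] K) (u : MvPolynomial σ k) :
    restr K q w Φ u = Φ (prj σ k q w u) := rfl

lemma rho_apply (Φ : MvPolynomial σ k →ₗ[k] K) (u : MvPolynomial σ k) :
    S.rho Φ u = Φ (S.f * u) := rfl

lemma rho_restr (q : ℕ) (Φ : MvPolynomial σ k →ₗ[k] K) :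
    S.rho (restr K q 0 Φ) = restr K q 2 (S.rho Φ) := by
  apply LinearMap.ext
  intro u
  rw [rho_apply, restr_apply, restr_apply, rho_apply, prj_mul S.hf, zero_add]

lemma rho_mem {q : ℕ} {J : Set σ} {Φ : MvPolynomial σ k →ₗ[k] K} (hΦ : Φ ∈ S.HH q 0 J) :
    S.rho Φ ∈ S.HH q 2 J := by
  refine ⟨?_, ?_, ?_⟩
  · intro a g
    rw [rho_apply, rho_apply, mul_left_comm, hΦ.1]
  · intro γ h
    rw [rho_apply]
    have h1 := (HH_val hΦ (mul_mem_Hg S.hf (monomial_mem_Hg γ (1 : k)))).1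
      (by rw [add_zero, add_comm]; exact h)
    rwa [add_zero, add_comm] at h1
  · intro γ h
    rw [rho_apply]
    exact (HH_val hΦ (mul_mem_Hg S.hf (monomial_mem_Hg γ (1 : k)))).2
      (by rw [add_zero, add_comm]; exact h)

lemma restr_mem {q q' : ℕ} (hqq : q ∣ q') {w : ℤ} {J : Set σ} {Φ : MvPolynomial σ k →ₗ[k] K}
    (hΦ : Φ ∈ S.HH q w J) : restr K q' w Φ ∈ S.HH q' w J := by
  have hqq' : (q : ℤ) ∣ q' := by exact_mod_cast hqq
  refine ⟨?_, ?_, ?_⟩
  · intro a g
    rw [restr_apply, restr_apply, prj_QL, hΦ.1.of_dvd hqq]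
  · intro γ h
    rw [restr_apply, prj_pos h]
    exact hΦ.2.1 γ (dvd_trans hqq' h)
  · intro γ h
    rw [restr_apply, prj_neg h, map_zero]

/-- the inverse of `rho` in the limit -/
lemma exists_T {p : ℕ} [Fact p.Prime] [CharP k p] {e s : ℕ} (hes : e ≤ s)
    {τ : MvPolynomial σ k →ₗ[k] MvPolynomial σ k} (h1 : QL (p ^ s) τ) (h2 : DG (-2) τ)
    (h3 : ∀ γ, ((p ^ s : ℕ) : ℤ) ∣ dg γ + 2 →
        S.f ^ (p ^ e) ∣ monomial γ 1 - τ (S.f * monomial γ 1))
    {J : Set σ} {Φ : MvPolynomial σ k →ₗ[k] K} (hΦ : Φ ∈ S.HH (p ^ e) 2 J) :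
    ∃ Ψ ∈ S.HH (p ^ s) 0 J, S.rho Ψ = restr K (p ^ s) 2 Φ := by
  have hdvd : p ^ e ∣ p ^ s := pow_dvd_pow p hes
  have hdvd' : ((p ^ e : ℕ) : ℤ) ∣ ((p ^ s : ℕ) : ℤ) := by exact_mod_cast hdvd
  refine ⟨Φ.comp (τ.comp (prj σ k (p ^ s) 0)), ⟨?_, ?_, ?_⟩, ?_⟩
  · intro a g
    simp only [LinearMap.comp_apply]
    rw [prj_QL, h1, hΦ.1.of_dvd hdvd]
  · intro γ h
    simp only [LinearMap.comp_apply]
    rw [prj_pos h]
    have h4 := (HH_val hΦ (h2 _ _ (monomial_mem_Hg γ (1 : k)))).1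
      (by
        have : dg γ + -2 + 2 = dg γ + 0 := by ring
        rw [this]; exact dvd_trans hdvd' h)
    convert h4 using 2
    ring
  · intro γ h
    simp only [LinearMap.comp_apply]
    rw [prj_neg h, map_zero, map_zero]
  · apply lin_ext
    intro γ
    rw [rho_apply, restr_apply]
    simp only [LinearMap.comp_apply]
    rw [prj_mul S.hf, zero_add]
    by_cases h : ((p ^ s : ℕ) : ℤ) ∣ dg γ + 2
    · rw [prj_pos h]
      obtain ⟨u, hu⟩ := h3 γ h
      have h5 : Φ (monomial γ 1 - τ (S.f * monomial γ 1)) = 0 := by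
        rw [hu, QK.pow_char hΦ.1, show S.ev S.f = 0 from S.evf,
          zero_pow (pow_ne_zero _ (Fact.out : p.Prime).ne_zero), zero_mul]
      rw [map_sub, sub_eq_zero] at h5
      exact h5.symm
    · rw [prj_neg h, mul_zero, map_zero, map_zero]

end Setup

end Pool.Agent.Lib.MP_71be78_ag
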