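import Mathlib

/-!
# Polynomials: degree pieces, operators given on monomials, linearity over `q`-th powers
-/

namespace Pool.Agent.Lib.MP_71be78_ag

open MvPolynomial Finset

variable {k : Type*} [Field k] {σ : Type*} [Fintype σ]

/-- the degree of an exponent, as an integer -/
def dg (γ : σ →₀ ℕ) : ℤ := ∑ a, (γ a : ℤ)

@[simp] lemma dg_zero : dg (0 : σ →₀ ℕ) = 0 := by simp [dg]

lemma dg_add (α β : σ →₀ ℕ) : dg (α + β) = dg α + dg β := by
  simp [dg, Finset.sum_add_distrib]

lemma dg_single [DecidableEq σ] (a : σ) (n : ℕ) : dg (Finsupp.single a n) = n := by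
  unfold dg
  rw [Finset.sum_eq_single a]
  · simp
  · intro b _ hb
    simp [Ne.symm hb]
  · simp

lemma dg_smul (n : ℕ) (γ : σ →₀ ℕ) : dg (n • γ) = n * dg γ := by
  simp [dg, Finset.mul_sum]

lemma dg_nonneg (γ : σ →₀ ℕ) : 0 ≤ dg γ := by
  unfold dg; positivity

/-- homogeneous polynomials of (integer) degree `d` -/
def Hg (k : Type*) [Field k] (σ : Type*) [Fintype σ] (d : ℤ) :
    Submodule k (MvPolynomial σ k) where
  carrier := {u | ∀ γ, coeff γ u ≠ 0 → dg γ = d}
  zero_mem' := by intro γ h; simp at h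
  add_mem' := by
    intro u v hu hv γ h
    by_cases h1 : coeff γ u = 0
    · apply hv γ
      rw [coeff_add, h1, zero_add] at h
      exact h
    · exact hu γ h1
  smul_mem' := by
    intro c u hu γ h
    apply hu γ
    intro h1
    rw [coeff_smul, h1] at h
    simp at h

lemma mem_Hg {d : ℤ} {u : MvPolynomial σ k} :
    u ∈ Hg k σ d ↔ ∀ γ, coeff γ u ≠ 0 → dg γ = d := Iff.rfl

lemma monomial_mem_Hg (γ : σ →₀ ℕ) (c : k) : monomial γ c ∈ Hg k σ (dg γ) := by
  classical
  intro β h
  rw [coeff_monomial] at h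
  split_ifs at h with h1
  · rw [h1]
  · exact absurd rfl h

lemma monomial_mem_Hg' {γ : σ →₀ ℕ} {c : k} {d : ℤ} (h : dg γ = d) :
    monomial γ c ∈ Hg k σ d := h ▸ monomial_mem_Hg γ c

lemma mul_mem_Hg {d e : ℤ} {u v : MvPolynomial σ k} (hu : u ∈ Hg k σ d) (hv : v ∈ Hg k σ e) :
    u * v ∈ Hg k σ (d + e) := by
  classical
  intro γ h
  rw [coeff_mul] at h
  obtain ⟨x, hx, hne⟩ := Finset.exists_ne_zero_of_sum_ne_zero h
  rw [HasAntidiagonal.mem_antidiagonal] at hx
  rw [← hx, dg_add, hu _ (left_ne_zero_of_mul hne), hv _ (right_ne_zero_of_mul hne)]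

lemma X_mem_Hg (a : σ) : (X a : MvPolynomial σ k) ∈ Hg k σ 1 := by
  classical
  have := monomial_mem_Hg (Finsupp.single a 1) (1 : k)
  rw [dg_single] at this
  exact_mod_cast this

lemma X_pow_mem_Hg (a : σ) (n : ℕ) : (X a ^ n : MvPolynomial σ k) ∈ Hg k σ n := by
  classical
  have := monomial_mem_Hg (Finsupp.single a n) (1 : k)
  rw [dg_single, ← X_pow_eq_monomial] at this
  exact this

lemma one_mem_Hg : (1 : MvPolynomial σ k) ∈ Hg k σ 0 := by
  have := monomial_mem_Hg (0 : σ →₀ ℕ) (1 : k)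
  rw [dg_zero] at this
  exact this

lemma pow_mem_Hg {d : ℤ} {u : MvPolynomial σ k} (hu : u ∈ Hg k σ d) (n : ℕ) :
    u ^ n ∈ Hg k σ (n * d) := by
  induction n with
  | zero => simpa using (one_mem_Hg (k := k) (σ := σ))
  | succ n ih =>
    rw [pow_succ]
    have := mul_mem_Hg ih hu
    convert this using 2
    push_cast; ring

/-- the linear operator with prescribed values on the monomials -/
noncomputable def mlin {M : Type*} [AddCommGroup M] [Module k M] (F : (σ →₀ ℕ) → M) :
    MvPolynomial σ k →ₗ[k] M := (basisMonomials σ k).constr k F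

omit [Fintype σ] in
lemma mlin_one {M : Type*} [AddCommGroup M] [Module k M] (F : (σ →₀ ℕ) → M) (γ : σ →₀ ℕ) :
    mlin F (monomial γ (1 : k)) = F γ := by
  have := (basisMonomials σ k).constr_basis k F γ
  rw [coe_basisMonomials] at this
  exact this

omit [Fintype σ] in
lemma mono_eq (γ : σ →₀ ℕ) (c : k) : monomial γ c = c • monomial γ (1 : k) := by
  rw [smul_monomial]; simp

omit [Fintype σ] in
lemma mlin_mono {M : Type*} [AddCommGroup M] [Module k M] (F : (σ →₀ ℕ) → M) (γ : σ →₀ ℕ)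
    (c : k) : mlin F (monomial γ c) = c • F γ := by
  rw [mono_eq, map_smul, mlin_one]

omit [Fintype σ] in
/-- linear maps are equal if they agree on monomials with coefficient one -/
lemma lin_ext {M : Type*} [AddCommGroup M] [Module k M] {A B : MvPolynomial σ k →ₗ[k] M}
    (h : ∀ γ, A (monomial γ 1) = B (monomial γ 1)) : A = B := by
  apply (basisMonomials σ k).ext
  intro γ
  rw [coe_basisMonomials]
  exact h γ

/-- to show that a linear map sends `Hg d` to a submodule, it suffices to look at monomials. -/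
lemma map_Hg {M : Type*} [AddCommGroup M] [Module k M] {A : MvPolynomial σ k →ₗ[k] M}
    {d : ℤ} {S : Submodule k M} (h : ∀ γ, dg γ = d → A (monomial γ 1) ∈ S)
    {u : MvPolynomial σ k} (hu : u ∈ Hg k σ d) : A u ∈ S := by
  rw [as_sum u, map_sum]
  apply Submodule.sum_mem
  intro γ hγ
  rw [mono_eq, map_smul]
  apply Submodule.smul_mem
  exact h γ (hu γ (by rwa [mem_support_iff] at hγ))

/-- two linear maps agree on `Hg d` if they agree on monomials of degree `d` -/
lemma eq_on_Hg {M : Type*} [AddCommGroup M] [Module k M] {A B : MvPolynomial σ k →ₗ[k] M}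
    {d : ℤ} (h : ∀ γ, dg γ = d → A (monomial γ 1) = B (monomial γ 1))
    {u : MvPolynomial σ k} (hu : u ∈ Hg k σ d) : A u = B u := by
  have : (A - B) u ∈ (⊥ : Submodule k M) := by
    apply map_Hg (d := d) _ hu
    intro γ hγ
    rw [Submodule.mem_bot, LinearMap.sub_apply, h γ hγ, sub_self]
  rw [Submodule.mem_bot, LinearMap.sub_apply] at this
  exact sub_eq_zero.mp this

/-- linearity over `q`-th powers of the variables -/
def QL (q : ℕ) (B : MvPolynomial σ k →ₗ[k] MvPolynomial σ k) : Prop :=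
  ∀ a g, B (X a ^ q * g) = X a ^ q * B g

/-- the operator has degree `δ` -/
def DG (δ : ℤ) (B : MvPolynomial σ k →ₗ[k] MvPolynomial σ k) : Prop :=
  ∀ d, ∀ u ∈ Hg k σ d, B u ∈ Hg k σ (d + δ)

omit [Fintype σ] in
lemma QL.mul_pow {q : ℕ} {B : MvPolynomial σ k →ₗ[k] MvPolynomial σ k} (hB : QL q B)
    (s : ℕ) (a : σ) (g : MvPolynomial σ k) : B (X a ^ (q * s) * g) = X a ^ (q * s) * B g := by
  induction s with
  | zero => simp
  | succ s ih =>
    rw [Nat.mul_succ, pow_add, mul_comm (X a ^ (q * s)), mul_assoc, hB, ih, ← mul_assoc]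

omit [Fintype σ] in
lemma QL.of_dvd {q q' : ℕ} (h : q ∣ q') {B : MvPolynomial σ k →ₗ[k] MvPolynomial σ k}
    (hB : QL q B) : QL q' B := by
  obtain ⟨s, rfl⟩ := h
  intro a g
  exact hB.mul_pow s a g

omit [Fintype σ] in
/-- a `q`-linear operator commutes with multiplication by all `q`-expanded polynomials -/
lemma QL.expand {q : ℕ} {B : MvPolynomial σ k →ₗ[k] MvPolynomial σ k} (hB : QL q B)
    (h g : MvPolynomial σ k) :
    B (MvPolynomial.expand q h * g) = MvPolynomial.expand q h * B g := by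
  induction h using MvPolynomial.induction_on generalizing g with
  | C a =>
    rw [expand_C, ← smul_eq_C_mul, ← smul_eq_C_mul, map_smul]
  | add p r hp hr =>
    rw [map_add, add_mul, map_add, hp, hr, add_mul]
  | mul_X p n hp =>
    rw [map_mul (MvPolynomial.expand q), expand_X, mul_assoc, hp, hB, mul_assoc]

omit [Fintype σ] in
lemma QL.monomial {q : ℕ} {B : MvPolynomial σ k →ₗ[k] MvPolynomial σ k} (hB : QL q B)
    (γ : σ →₀ ℕ) (g : MvPolynomial σ k) :
    B (MvPolynomial.monomial (q • γ) 1 * g) = MvPolynomial.monomial (q • γ) 1 * B g := by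
  have := hB.expand (MvPolynomial.monomial γ 1) g
  rw [expand_monomial] at this
  exact this

/-- residue of an exponent modulo `q` -/
noncomputable def rm (q : ℕ) (γ : σ →₀ ℕ) : σ →₀ ℕ := γ.mapRange (· % q) (by simp)
/-- quotient of an exponent modulo `q` -/
noncomputable def qt (q : ℕ) (γ : σ →₀ ℕ) : σ →₀ ℕ := γ.mapRange (· / q) (by simp)

omit [Fintype σ] in
@[simp] lemma rm_apply (q : ℕ) (γ : σ →₀ ℕ) (a : σ) : rm q γ a = γ a % q := rfl
omit [Fintype σ] in
@[simp] lemma qt_apply (q : ℕ) (γ : σ →₀ ℕ) (a : σ) : qt q γ a = γ a / q := rfl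

omit [Fintype σ] in
lemma rm_add_qt (q : ℕ) (γ : σ →₀ ℕ) : rm q γ + q • qt q γ = γ := by
  ext a
  simp [Nat.mod_add_div]

/-- the box `[0,q)^σ` -/
def inBox (q : ℕ) (γ : σ →₀ ℕ) : Prop := ∀ a, γ a < q

omit [Fintype σ] in
lemma inBox_rm {q : ℕ} (hq : 0 < q) (γ : σ →₀ ℕ) : inBox q (rm q γ) := fun _ => Nat.mod_lt _ hq

omit [Fintype σ] in
lemma rm_add_smul {q : ℕ} {α : σ →₀ ℕ} (hα : inBox q α) (β : σ →₀ ℕ) : rm q (α + q • β) = α := by
  ext a
  simp [Nat.mod_eq_of_lt (hα a)]

omit [Fintype σ] in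
lemma qt_add_smul {q : ℕ} (hq : 0 < q) {α : σ →₀ ℕ} (hα : inBox q α) (β : σ →₀ ℕ) :
    qt q (α + q • β) = β := by
  ext a
  simp only [qt_apply, Finsupp.coe_add, Finsupp.coe_smul, Pi.add_apply, Pi.smul_apply,
    smul_eq_mul]
  rw [Nat.add_mul_div_left _ _ hq, Nat.div_eq_of_lt (hα a), zero_add]

omit [Fintype σ] in
lemma rm_of_inBox {q : ℕ} {α : σ →₀ ℕ} (hα : inBox q α) : rm q α = α := by
  ext a
  simp [Nat.mod_eq_of_lt (hα a)]

omit [Fintype σ] in
lemma qt_of_inBox {q : ℕ} {α : σ →₀ ℕ} (hα : inBox q α) : qt q α = 0 := by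
  ext a
  simp [Nat.div_eq_of_lt (hα a)]

lemma dg_rm_qt (q : ℕ) (γ : σ →₀ ℕ) : dg γ = dg (rm q γ) + q * dg (qt q γ) := by
  conv_lhs => rw [← rm_add_qt q γ]
  rw [dg_add, dg_smul]

/-- the `q`-linear extension of a map given on the box -/
noncomputable def lin (q : ℕ) (F : (σ →₀ ℕ) → MvPolynomial σ k) :
    MvPolynomial σ k →ₗ[k] MvPolynomial σ k :=
  mlin fun γ => monomial (q • qt q γ) 1 * F (rm q γ)

omit [Fintype σ] in
lemma lin_one (q : ℕ) (F : (σ →₀ ℕ) → MvPolynomial σ k) (γ : σ →₀ ℕ) :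
    lin q F (monomial γ (1 : k)) = monomial (q • qt q γ) 1 * F (rm q γ) := mlin_one _ _

omit [Fintype σ] in
lemma lin_box {q : ℕ} (F : (σ →₀ ℕ) → MvPolynomial σ k) {γ : σ →₀ ℕ} (hγ : inBox q γ) :
    lin q F (monomial γ (1 : k)) = F γ := by
  rw [lin_one, rm_of_inBox hγ, qt_of_inBox hγ, smul_zero]
  simp [← C_apply]

omit [Fintype σ] in
lemma lin_QL {q : ℕ} (hq : 0 < q) (F : (σ →₀ ℕ) → MvPolynomial σ k) : QL q (lin q F) := by
  classical
  intro a g
  have key : (lin q F).comp (LinearMap.mulLeft k (X a ^ q)) =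
      (LinearMap.mulLeft k (X a ^ q)).comp (lin q F) := by
    apply lin_ext
    intro γ
    simp only [LinearMap.comp_apply, LinearMap.mulLeft_apply]
    rw [X_pow_eq_monomial, monomial_mul, one_mul, lin_one, lin_one, ← mul_assoc, monomial_mul,
      one_mul]
    have h1 : rm q (Finsupp.single a q + γ) = rm q γ := by
      ext b
      by_cases hb : b = a
      · subst hb; simp
      · simp [Ne.symm hb]
    have h2 : qt q (Finsupp.single a q + γ) = Finsupp.single a 1 + qt q γ := by
      ext b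
      by_cases hb : b = a
      · subst hb; simp [Nat.add_div_left _ hq, add_comm]
      · simp [Ne.symm hb]
    rw [h1, h2, smul_add, Finsupp.smul_single, smul_eq_mul, mul_one]
  exact LinearMap.congr_fun key g

lemma lin_DG {q : ℕ} (hq : 0 < q) (δ : ℤ) (F : (σ →₀ ℕ) → MvPolynomial σ k)
    (hF : ∀ γ, inBox q γ → F γ ∈ Hg k σ (dg γ + δ)) : DG δ (lin q F) := by
  intro d u hu
  apply map_Hg _ hu
  intro γ hγ
  rw [lin_one]
  have h1 := mul_mem_Hg (monomial_mem_Hg (q • qt q γ) (1 : k)) (hF (rm q γ) (inBox_rm hq γ))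
  rw [dg_smul] at h1
  have h2 := dg_rm_qt q γ
  rw [hγ] at h2
  convert h1 using 2
  rw [h2]; ring

/-- raising a family of operators by `q`:
`x^{γ₀} h(x^q) ↦ x^{γ₀} (B_{γ₀} h)(x^q)` for `γ₀` in the box -/
noncomputable def raise (q : ℕ) (B : (σ →₀ ℕ) → (MvPolynomial σ k →ₗ[k] MvPolynomial σ k)) :
    MvPolynomial σ k →ₗ[k] MvPolynomial σ k :=
  mlin fun γ => monomial (rm q γ) 1 * MvPolynomial.expand q (B (rm q γ) (monomial (qt q γ) 1))

omit [Fintype σ] in
lemma raise_mul {q : ℕ} (hq : 0 < q)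
    (B : (σ →₀ ℕ) → (MvPolynomial σ k →ₗ[k] MvPolynomial σ k)) {γ : σ →₀ ℕ} (hγ : inBox q γ)
    (h : MvPolynomial σ k) :
    raise q B (monomial γ 1 * MvPolynomial.expand q h) =
      monomial γ 1 * MvPolynomial.expand q (B γ h) := by
  have key : (raise q B).comp ((LinearMap.mulLeft k (monomial γ (1 : k))).comp
      (MvPolynomial.expand q).toLinearMap) =
      (LinearMap.mulLeft k (monomial γ (1 : k))).comp
        ((MvPolynomial.expand q).toLinearMap.comp (B γ)) := by
    apply lin_ext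
    intro β
    simp only [LinearMap.comp_apply, LinearMap.mulLeft_apply, AlgHom.toLinearMap_apply]
    rw [expand_monomial, monomial_mul, one_mul]
    unfold raise
    rw [mlin_one, rm_add_smul hγ, qt_add_smul hq hγ]
  have := LinearMap.congr_fun key h
  simpa only [LinearMap.comp_apply, LinearMap.mulLeft_apply, AlgHom.toLinearMap_apply] using this

omit [Fintype σ] in
lemma mono_split (q : ℕ) (γ : σ →₀ ℕ) :
    (monomial γ (1 : k)) = monomial (rm q γ) 1 * MvPolynomial.expand q (monomial (qt q γ) 1) := by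
  rw [expand_monomial, monomial_mul, one_mul, rm_add_qt]

omit [Fintype σ] in
/-- the value of a raised operator on `(expand h) * x^γ` -/
lemma raise_expand_mul {q : ℕ} (hq : 0 < q)
    (B : (σ →₀ ℕ) → (MvPolynomial σ k →ₗ[k] MvPolynomial σ k)) (γ : σ →₀ ℕ)
    (h : MvPolynomial σ k) :
    raise q B (MvPolynomial.expand q h * monomial γ 1) =
      monomial (rm q γ) 1 * MvPolynomial.expand q (B (rm q γ) (h * monomial (qt q γ) 1)) := by
  rw [mono_split q γ, mul_left_comm, ← map_mul, raise_mul hq B (inBox_rm hq γ)]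

omit [Fintype σ] in
lemma raise_one (q : ℕ)
    (B : (σ →₀ ℕ) → (MvPolynomial σ k →ₗ[k] MvPolynomial σ k)) (γ : σ →₀ ℕ) :
    raise q B (monomial γ 1) =
      monomial (rm q γ) 1 * MvPolynomial.expand q (B (rm q γ) (monomial (qt q γ) 1)) :=
  mlin_one _ _

lemma expand_mem_Hg {q : ℕ} {d : ℤ} {u : MvPolynomial σ k} (hu : u ∈ Hg k σ d) :
    MvPolynomial.expand q u ∈ Hg k σ (q * d) := by
  have : (MvPolynomial.expand q).toLinearMap u ∈ Hg k σ (q * d) := by
    apply map_Hg _ hu
    intro γ hγ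
    rw [AlgHom.toLinearMap_apply, expand_monomial]
    apply monomial_mem_Hg'
    rw [dg_smul, hγ]
  exact this

lemma raise_DG {q : ℕ} {δ : ℤ}
    {B : (σ →₀ ℕ) → (MvPolynomial σ k →ₗ[k] MvPolynomial σ k)}
    (hB : ∀ γ, DG δ (B γ)) : DG (q * δ) (raise q B) := by
  intro d u hu
  apply map_Hg _ hu
  intro γ hγ
  rw [raise_one]
  have h1 := mul_mem_Hg (monomial_mem_Hg (rm q γ) (1 : k))
    (expand_mem_Hg (q := q) (hB (rm q γ) _ _ (monomial_mem_Hg (qt q γ) (1 : k))))
  have h2 := dg_rm_qt q γ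
  rw [hγ] at h2
  convert h1 using 2
  rw [h2]; ring

omit [Fintype σ] in
lemma raise_QL {q Q : ℕ} (hq : 0 < q)
    {B : (σ →₀ ℕ) → (MvPolynomial σ k →ₗ[k] MvPolynomial σ k)}
    (hB : ∀ γ, QL Q (B γ)) : QL (q * Q) (raise q B) := by
  intro a g
  have key : (raise q B).comp (LinearMap.mulLeft k (X a ^ (q * Q))) =
      (LinearMap.mulLeft k (X a ^ (q * Q))).comp (raise q B) := by
    apply lin_ext
    intro γ
    simp only [LinearMap.comp_apply, LinearMap.mulLeft_apply]
    have h1 : (X a ^ (q * Q) : MvPolynomial σ k) = MvPolynomial.expand q (X a ^ Q) := by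
      rw [map_pow, expand_X, pow_mul]
    rw [h1, raise_expand_mul hq, hB, map_mul, raise_one, mul_left_comm]
  exact LinearMap.congr_fun key g

omit [Fintype σ] in
/-- Leibniz rule for a raised derivation -/
lemma raise_leibniz {q : ℕ} (hq : 0 < q) (D : Derivation k (MvPolynomial σ k) (MvPolynomial σ k))
    (h u : MvPolynomial σ k) :
    raise q (fun _ => D.toLinearMap) (MvPolynomial.expand q h * u) =
      MvPolynomial.expand q (D h) * u +
        MvPolynomial.expand q h * raise q (fun _ => D.toLinearMap) u := by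
  have key : (raise q (fun _ => D.toLinearMap)).comp
        (LinearMap.mulLeft k (MvPolynomial.expand q h)) =
      LinearMap.mulLeft k (MvPolynomial.expand q (D h)) +
        (LinearMap.mulLeft k (MvPolynomial.expand q h)).comp
          (raise q (fun _ => D.toLinearMap)) := by
    apply lin_ext
    intro γ
    simp only [LinearMap.comp_apply, LinearMap.mulLeft_apply, LinearMap.add_apply]
    rw [raise_expand_mul hq, raise_one]
    simp only [Derivation.coeFn_coe, Derivation.leibniz, smul_eq_mul, map_add, map_mul]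
    conv_rhs => rw [mono_split q γ]
    rw [← mono_split q γ]
    conv_rhs => rw [mono_split q γ]
    ring
  exact LinearMap.congr_fun key u

end Pool.Agent.Lib.MP_71be78_ag
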