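import Pool.Agent.Lib.MP_71be78_ag.Trunc
import Pool.Agent.Lib.MP_71be78_ag.PolyBase

/-!
# The middle-degree lemma for truncated polynomials, stated in the polynomial ring
-/

set_option linter.unusedSectionVars false

namespace Pool.Agent.Lib.MP_71be78_ag

open MvPolynomial Finset

variable {k : Type*} [Field k]

/-- index set of `n` pairs and one extra variable -/
abbrev Ix (n : ℕ) := Fin n ⊕ Fin n ⊕ Unit

/-- the quadratic form `∑ x_i y_i + z^2` -/
noncomputable def qf (k : Type*) [Field k] (n : ℕ) : MvPolynomial (Ix n) k :=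
  (∑ i, X (Sum.inl i) * X (Sum.inr (Sum.inl i))) + X (Sum.inr (Sum.inr ())) ^ 2

lemma qf_mem_Hg (n : ℕ) : qf k n ∈ Hg k (Ix n) 2 := by
  apply Submodule.add_mem
  · apply Submodule.sum_mem
    intro i _
    have := mul_mem_Hg (X_mem_Hg (k := k) (σ := Ix n) (Sum.inl i)) (X_mem_Hg (Sum.inr (Sum.inl i)))
    norm_num at this
    exact this
  · exact_mod_cast X_pow_mem_Hg (k := k) (σ := Ix n) (Sum.inr (Sum.inr ())) 2

section box
variable {σ : Type*} [Fintype σ]

/-- the box as a finset -/
noncomputable def boxF (σ : Type*) [Fintype σ] (p : ℕ) : Finset (σ →₀ ℕ) := by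
  classical
  exact (Fintype.piFinset fun _ : σ => Finset.range p).map Finsupp.equivFunOnFinite.symm.toEmbedding

lemma mem_boxF {p : ℕ} {γ : σ →₀ ℕ} : γ ∈ boxF σ p ↔ inBox p γ := by
  classical
  unfold boxF
  simp only [Finset.mem_map_equiv, Equiv.symm_symm, Fintype.mem_piFinset, Finset.mem_range,
    Finsupp.equivFunOnFinite_apply]
  rfl

/-- the polynomial with prescribed coefficients on the box -/
noncomputable def polyOf (p : ℕ) (c : (σ →₀ ℕ) → k) : MvPolynomial σ k :=
  ∑ γ ∈ boxF σ p, monomial γ (c γ)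

lemma coeff_polyOf (p : ℕ) (c : (σ →₀ ℕ) → k) (γ : σ →₀ ℕ) :
    (inBox p γ → coeff γ (polyOf p c) = c γ) ∧ (¬ inBox p γ → coeff γ (polyOf p c) = 0) := by
  classical
  unfold polyOf
  rw [coeff_sum]
  constructor
  · intro h
    rw [Finset.sum_eq_single γ]
    · rw [coeff_monomial, if_pos rfl]
    · intro b _ hb
      rw [coeff_monomial, if_neg hb]
    · intro h1
      exact absurd (mem_boxF.mpr h) h1
  · intro h
    apply Finset.sum_eq_zero
    intro b hb
    rw [coeff_monomial, if_neg]
    rintro rfl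
    exact h (mem_boxF.mp hb)

end box

/-- exponent with given components -/
noncomputable def ex {n : ℕ} (α β : Fin n → ℕ) (ζ : ℕ) : Ix n →₀ ℕ :=
  Finsupp.equivFunOnFinite.symm (Sum.elim α (Sum.elim β fun _ => ζ))

@[simp] lemma ex_inl {n : ℕ} (α β : Fin n → ℕ) (ζ : ℕ) (i : Fin n) : ex α β ζ (Sum.inl i) = α i :=
  rfl
@[simp] lemma ex_inr {n : ℕ} (α β : Fin n → ℕ) (ζ : ℕ) (i : Fin n) :
    ex α β ζ (Sum.inr (Sum.inl i)) = β i := rfl
@[simp] lemma ex_z {n : ℕ} (α β : Fin n → ℕ) (ζ : ℕ) (u : Unit) :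
    ex α β ζ (Sum.inr (Sum.inr u)) = ζ := rfl

lemma ex_eta {n : ℕ} (γ : Ix n →₀ ℕ) :
    ex (fun i => γ (Sum.inl i)) (fun i => γ (Sum.inr (Sum.inl i))) (γ (Sum.inr (Sum.inr ()))) = γ := by
  ext a
  rcases a with a | a | a <;> simp

lemma dg_ex {n : ℕ} (α β : Fin n → ℕ) (ζ : ℕ) :
    dg (ex α β ζ) = (∑ j, (α j : ℤ)) + (∑ j, (β j : ℤ)) + ζ := by
  unfold dg
  simp [Fintype.sum_sum_type, add_assoc]

lemma inBox_ex {n p : ℕ} {α β : Fin n → ℕ} {ζ : ℕ} : inBox p (ex α β ζ) ↔ box p n α β ζ := by
  unfold inBox box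
  constructor
  · intro h
    exact ⟨fun i => h (Sum.inl i), fun i => h (Sum.inr (Sum.inl i)), h (Sum.inr (Sum.inr ()))⟩
  · rintro ⟨h1, h2, h3⟩ a
    rcases a with a | a | a
    · exact h1 a
    · exact h2 a
    · exact h3

lemma coeff_qf_mul {n : ℕ} (u : MvPolynomial (Ix n) k) (α β : Fin n → ℕ) (ζ : ℕ) :
    coeff (ex α β ζ) (qf k n * u) =
      (∑ i, if α i = 0 ∨ β i = 0 then 0
        else coeff (ex (Function.update α i (α i - 1)) (Function.update β i (β i - 1)) ζ) u)
      + (if ζ < 2 then 0 else coeff (ex α β (ζ - 2)) u) := by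
  classical
  have h1 : qf k n = (∑ i, monomial (Finsupp.single (Sum.inl i) 1 +
      Finsupp.single (Sum.inr (Sum.inl i)) 1) 1) + monomial (Finsupp.single (Sum.inr (Sum.inr ())) 2) 1 := by
    unfold qf
    rw [X_pow_eq_monomial]
    congr 1
    apply Finset.sum_congr rfl
    intro i _
    rw [X, X, monomial_mul, one_mul]
  rw [h1, add_mul, Finset.sum_mul, coeff_add, coeff_sum]
  congr 1
  · apply Finset.sum_congr rfl
    intro i _
    rw [coeff_monomial_mul']
    by_cases h : α i = 0 ∨ β i = 0
    · rw [if_pos h, if_neg]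
      intro hle
      have h2 := hle (Sum.inl i)
      have h3 := hle (Sum.inr (Sum.inl i))
      simp at h2 h3
      omega
    · rw [if_neg h, if_pos, one_mul]
      · congr 1
        ext a
        rcases a with a | a | a
        · by_cases ha : a = i
          · subst ha; simp
          · simp [ha]
        · by_cases ha : a = i
          · subst ha; simp
          · simp [ha]
        · simp
      · push Not at h
        intro a
        rcases a with a | a | a
        · by_cases ha : a = i
          · subst ha; simp; omega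
          · simp [ha]
        · by_cases ha : a = i
          · subst ha; simp; omega
          · simp [ha]
        · simp
  · rw [coeff_monomial_mul']
    by_cases h : ζ < 2
    · rw [if_pos h, if_neg]
      intro hle
      have h2 := hle (Sum.inr (Sum.inr ()))
      simp at h2
      omega
    · rw [if_neg h, if_pos, one_mul]
      · congr 1
        ext a
        rcases a with a | a | a
        · simp
        · simp
        · simp
      · intro a
        rcases a with a | a | a
        · simp
        · simp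
        · simp; omega

/-- the truncated coefficient function -/
noncomputable def toA (p : ℕ) {n : ℕ} (u : MvPolynomial (Ix n) k) : AF k n :=
  fun α β ζ => if box p n α β ζ then coeff (ex α β ζ) u else 0

lemma toA_mem {p n : ℕ} {i : ℤ} {u : MvPolynomial (Ix n) k} (hu : u ∈ Hg k (Ix n) i) :
    toA p u ∈ GA (k := k) p n i := by
  intro α β ζ h
  unfold toA at h
  by_cases hb : box p n α β ζ
  · rw [if_pos hb] at h
    refine ⟨hb, ?_⟩
    rw [← dg_ex]
    exact hu _ h
  · rw [if_neg hb] at h
    exact absurd rfl h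

lemma box_update {p n : ℕ} {α β : Fin n → ℕ} {ζ : ℕ} (h : box p n α β ζ) (i : Fin n) :
    box p n (Function.update α i (α i - 1)) (Function.update β i (β i - 1)) ζ := by
  refine ⟨fun j => ?_, fun j => ?_, h.2.2⟩
  · by_cases hj : j = i
    · subst hj; simp; have := h.1 j; omega
    · rw [Function.update_of_ne hj]; exact h.1 j
  · by_cases hj : j = i
    · subst hj; simp; have := h.2.1 j; omega
    · rw [Function.update_of_ne hj]; exact h.2.1 j

lemma opA_toA {p n : ℕ} (u : MvPolynomial (Ix n) k) :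
    opA p n (toA p u) = toA p (qf k n * u) := by
  funext α β ζ
  rw [opA_apply]
  unfold toA
  by_cases hb : box p n α β ζ
  · rw [if_pos hb, if_pos hb, coeff_qf_mul]
    congr 1
    · apply Finset.sum_congr rfl
      intro i _
      rw [if_pos (box_update hb i)]
    · by_cases hz : ζ < 2
      · rw [if_pos hz, if_pos hz]
      · rw [if_neg hz, if_neg hz, if_pos]
        exact ⟨hb.1, hb.2.1, by have := hb.2.2; omega⟩
  · rw [if_neg hb, if_neg hb]

lemma toA_eq_zero {p n : ℕ} {u : MvPolynomial (Ix n) k}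
    (h : ∀ γ, inBox p γ → coeff γ u = 0) : toA p u = 0 := by
  funext α β ζ
  unfold toA
  by_cases hb : box p n α β ζ
  · rw [if_pos hb]; exact h _ (inBox_ex.mpr hb)
  · rw [if_neg hb]; rfl

/-- lower half of the middle-degree lemma -/
theorem lemT_lower {p : ℕ} [Fact p.Prime] [CharP k p] (ρ : ℕ) (hρ : p = 2 * ρ + 1) (n : ℕ)
    {i : ℤ} (hi : i < n * (p - 1) + ρ) {u : MvPolynomial (Ix n) k} (hu : u ∈ Hg k (Ix n) i)
    (h0 : ∀ γ, inBox p γ → coeff γ (qf k n * u) = 0) :
    ∃ v ∈ Hg k (Ix n) (i - 2), ∀ γ, inBox p γ → coeff γ (u - qf k n * v) = 0 := by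
  have hp2 : 2 ≤ p := (Fact.out : p.Prime).two_le
  have h := LL_A (k := k) (p := p) ρ hρ n 1 (by omega) i (by push_cast; linarith) (toA p u)
    (toA_mem hu) (by rw [pow_one, opA_toA]; exact toA_eq_zero h0)
  obtain ⟨y, hy, hyu⟩ := h
  have hmem : ∀ s : ℕ, ∀ j : ℤ, y ∈ GA (k := k) p n j →
      ((opA (k := k) p n) ^ s) y ∈ GA (k := k) p n (j + 2 * s) := by
    intro s
    induction s with
    | zero => intro j hj; simpa using hj
    | succ s ih =>
      intro j hj
      rw [pow_succ', Module.End.mul_apply]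
      have := opA_mem _ _ (ih j hj)
      convert this using 2
      push_cast; ring
  set w := ((opA (k := k) p n) ^ (p - 2)) y with hw
  have hw1 : w ∈ GA (k := k) p n (i - 2) := by
    have := hmem (p - 2) _ hy
    rw [← hw] at this
    convert this using 2
    push_cast [Nat.cast_sub (show 1 ≤ p by omega), Nat.cast_sub hp2]
    ring
  have hw2 : toA p u = opA p n w := by
    rw [hyu, hw, ← Module.End.mul_apply, ← pow_succ']
    congr 2
    omega
  set v : MvPolynomial (Ix n) k := polyOf p (fun γ =>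
    w (fun i => γ (Sum.inl i)) (fun i => γ (Sum.inr (Sum.inl i))) (γ (Sum.inr (Sum.inr ())))) with hv
  have hv1 : toA p v = w := by
    funext α β ζ
    unfold toA
    by_cases hb : box p n α β ζ
    · rw [if_pos hb, hv, (coeff_polyOf _ _ _).1 (inBox_ex.mpr hb)]
      rfl
    · rw [if_neg hb]
      by_contra hne
      exact hb (hw1 _ _ _ (Ne.symm hne)).1
  refine ⟨v, ?_, ?_⟩
  · intro γ hγ
    by_cases hb : inBox p γ
    · rw [hv, (coeff_polyOf _ _ _).1 hb] at hγ
      have := (hw1 _ _ _ hγ).2
      rw [← this]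
      conv_lhs => rw [← ex_eta γ]
      rw [dg_ex]
    · rw [hv, (coeff_polyOf _ _ _).2 hb] at hγ
      exact absurd rfl hγ
  · intro γ hb
    have h1 : toA p u = toA p (qf k n * v) := by
      rw [hw2, ← hv1, opA_toA]
    have h2 := congrFun (congrFun (congrFun h1 (fun i => γ (Sum.inl i)))
      (fun i => γ (Sum.inr (Sum.inl i)))) (γ (Sum.inr (Sum.inr ())))
    have hb' : box p n (fun i => γ (Sum.inl i)) (fun i => γ (Sum.inr (Sum.inl i)))
        (γ (Sum.inr (Sum.inr ()))) := by
      rw [← inBox_ex, ex_eta]; exact hb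
    unfold toA at h2
    rw [if_pos hb', if_pos hb', ex_eta] at h2
    rw [coeff_sub, h2, sub_self]

section trunc
variable {σ : Type*} [Fintype σ]

/-- truncation: keep the box part -/
noncomputable def tr (p : ℕ) : MvPolynomial σ k →ₗ[k] MvPolynomial σ k := by
  classical
  exact mlin fun γ => if inBox p γ then monomial γ 1 else 0

lemma tr_box {p : ℕ} {γ : σ →₀ ℕ} (h : inBox p γ) : tr p (monomial γ (1 : k)) = monomial γ 1 := by
  classical
  unfold tr
  rw [mlin_one, if_pos h]

lemma tr_not_box {p : ℕ} {γ : σ →₀ ℕ} (h : ¬ inBox p γ) : tr p (monomial γ (1 : k)) = 0 := by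
  classical
  unfold tr
  rw [mlin_one, if_neg h]

lemma coeff_tr (p : ℕ) (u : MvPolynomial σ k) (γ : σ →₀ ℕ) :
    (inBox p γ → coeff γ (tr p u) = coeff γ u) ∧ (¬ inBox p γ → coeff γ (tr p u) = 0) := by
  classical
  constructor
  · intro h
    have : (lcoeff k γ).comp (tr p) = lcoeff k γ := by
      apply lin_ext
      intro β
      rw [LinearMap.comp_apply]
      by_cases hb : inBox p β
      · rw [tr_box hb]
      · rw [tr_not_box hb, map_zero, lcoeff_apply, coeff_monomial, if_neg]
        rintro rfl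
        exact hb h
    exact LinearMap.congr_fun this u
  · intro h
    have : (lcoeff k γ).comp (tr p) = 0 := by
      apply lin_ext
      intro β
      rw [LinearMap.comp_apply]
      by_cases hb : inBox p β
      · rw [tr_box hb, lcoeff_apply, coeff_monomial, if_neg, LinearMap.zero_apply]
        rintro rfl
        exact h hb
      · rw [tr_not_box hb, map_zero, LinearMap.zero_apply]
    exact LinearMap.congr_fun this u

lemma tr_mem_Hg {p : ℕ} {d : ℤ} {u : MvPolynomial σ k} (hu : u ∈ Hg k σ d) :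
    tr p u ∈ Hg k σ d := by
  intro γ h
  by_cases hb : inBox p γ
  · rw [(coeff_tr p u γ).1 hb] at h; exact hu γ h
  · rw [(coeff_tr p u γ).2 hb] at h; exact absurd rfl h

/-- the top exponent of the box -/
noncomputable def topx (σ : Type*) [Fintype σ] (p : ℕ) : σ →₀ ℕ :=
  Finsupp.equivFunOnFinite.symm fun _ => p - 1

@[simp] lemma topx_apply (p : ℕ) (a : σ) : topx σ p a = p - 1 := rfl

lemma inBox_iff_le {p : ℕ} (hp : 0 < p) {γ : σ →₀ ℕ} : inBox p γ ↔ γ ≤ topx σ p := by
  constructor
  · intro h a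
    have := h a
    simp; omega
  · intro h a
    have := h a
    simp at this; omega

lemma coeff_top_mul {p : ℕ} (hp : 0 < p) {a b : MvPolynomial σ k}
    (ha : ∀ γ, inBox p γ → coeff γ a = 0) : coeff (topx σ p) (a * b) = 0 := by
  classical
  rw [coeff_mul]
  apply Finset.sum_eq_zero
  intro x hx
  rw [HasAntidiagonal.mem_antidiagonal] at hx
  rw [ha, zero_mul]
  rw [inBox_iff_le hp, ← hx]
  exact le_self_add

end trunc

/-- **middle-degree lemma**: away from the middle degree, the kernel of multiplication by the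
quadratic form on the truncated polynomial ring is contained in its image. -/
theorem lemT {p : ℕ} [Fact p.Prime] [CharP k p] (ρ : ℕ) (hρ : p = 2 * ρ + 1) (n : ℕ)
    {i : ℤ} (hi : i ≠ n * (p - 1) + ρ) {u : MvPolynomial (Ix n) k} (hu : u ∈ Hg k (Ix n) i)
    (h0 : ∀ γ, inBox p γ → coeff γ (qf k n * u) = 0) :
    ∃ v ∈ Hg k (Ix n) (i - 2), ∀ γ, inBox p γ → coeff γ (u - qf k n * v) = 0 := by
  classical
  have hp : 0 < p := (Fact.out : p.Prime).pos
  rcases lt_or_gt_of_ne hi with hlt | hgt
  · exact lemT_lower ρ hρ n hlt hu h0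
  set E : MvPolynomial (Ix n) k →ₗ[k] MvPolynomial (Ix n) k :=
    (tr p).comp (LinearMap.mulLeft k (qf k n)) with hE
  by_cases hmem : tr p u ∈ (Hg k (Ix n) (i - 2)).map E
  · obtain ⟨v, hv, hvu⟩ := hmem
    refine ⟨v, hv, ?_⟩
    intro γ hγ
    have := congrArg (coeff γ) hvu
    rw [hE, LinearMap.comp_apply, (coeff_tr _ _ _).1 hγ, (coeff_tr _ _ _).1 hγ,
      LinearMap.mulLeft_apply] at this
    rw [coeff_sub, this, sub_self]
  exfalso
  obtain ⟨lam, hl1, hl2⟩ := Submodule.exists_le_ker_of_notMem hmem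
  apply hl1
  set top := topx (Ix n) p with htop
  set v : MvPolynomial (Ix n) k := polyOf p (fun γ =>
    if dg γ = dg top - i then lam (monomial (top - γ) 1) else 0) with hv
  have hvd : v ∈ Hg k (Ix n) (dg top - i) := by
    intro γ hγ
    by_cases hb : inBox p γ
    · rw [hv, (coeff_polyOf _ _ _).1 hb] at hγ
      by_contra hne
      rw [if_neg hne] at hγ
      exact hγ rfl
    · rw [hv, (coeff_polyOf _ _ _).2 hb] at hγ
      exact absurd rfl hγ
  have hsub : ∀ γ, inBox p γ → dg (top - γ) = dg top - dg γ := by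
    intro γ hγ
    have h1 : (top - γ) + γ = top := tsub_add_cancel_of_le ((inBox_iff_le hp).mp hγ)
    have h2 := congrArg dg h1
    rw [dg_add] at h2
    linarith
  have hinb : ∀ γ, inBox p (top - γ) := by
    intro γ
    rw [inBox_iff_le hp]
    exact tsub_le_self
  have hsubsub : ∀ γ, inBox p γ → top - (top - γ) = γ := by
    intro γ hγ
    exact tsub_tsub_cancel_of_le ((inBox_iff_le hp).mp hγ)
  -- claim 1
  have c1 : ∀ w ∈ Hg k (Ix n) i, coeff top (w * v) = lam (tr p w) := by
    intro w hw
    have : ((lcoeff k top).comp (LinearMap.mulRight k v)) w = (lam.comp (tr p)) w := by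
      apply eq_on_Hg _ hw
      intro δ hδ
      simp only [LinearMap.comp_apply, LinearMap.mulRight_apply, lcoeff_apply]
      rw [coeff_monomial_mul']
      by_cases hb : inBox p δ
      · rw [if_pos ((inBox_iff_le hp).mp hb), one_mul, tr_box hb, hv,
          (coeff_polyOf _ _ _).1 (hinb δ), if_pos, hsubsub δ hb]
        rw [hsub δ hb, hδ]
      · rw [if_neg, tr_not_box hb, map_zero]
        intro hle
        exact hb ((inBox_iff_le hp).mpr hle)
    simpa using this
  -- claim 2
  have c2 : ∀ γ, inBox p γ → coeff γ (qf k n * v) = 0 := by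
    intro γ hγ
    by_contra hne
    have hd := (mul_mem_Hg (qf_mem_Hg n) hvd) γ hne
    apply hne
    have h1 : coeff top (monomial (top - γ) 1 * (qf k n * v)) = coeff γ (qf k n * v) := by
      rw [coeff_monomial_mul', if_pos tsub_le_self, one_mul, hsubsub γ hγ]
    rw [← h1, ← mul_assoc]
    have hd' : dg (top - γ) = i - 2 := by rw [hsub γ hγ, hd]; ring
    have hm := mul_mem_Hg (monomial_mem_Hg' (c := (1 : k)) hd') (qf_mem_Hg (k := k) n)
    rw [show i - 2 + 2 = i by ring] at hm
    rw [c1 _ hm]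
    have : tr p (monomial (top - γ) 1 * qf k n) ∈ (Hg k (Ix n) (i - 2)).map E := by
      refine ⟨monomial (top - γ) 1, monomial_mem_Hg' hd', ?_⟩
      rw [hE, LinearMap.comp_apply, LinearMap.mulLeft_apply, mul_comm]
    exact hl2 this
  -- lower half applied to v
  have hdtop : dg top = (2 * n + 1) * (p - 1) := by
    unfold dg
    simp [htop, Fintype.card_sum]
    rw [Nat.cast_sub (by omega)]
    push_cast
    ring
  obtain ⟨v', hv', hv''⟩ := lemT_lower (p := p) ρ hρ n (i := dg top - i) (by
    rw [hdtop]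
    have : (p : ℤ) = 2 * ρ + 1 := by exact_mod_cast hρ
    nlinarith) hvd c2
  rw [← c1 u hu]
  have e1 : u * v = (qf k n * u) * v' + (v - qf k n * v') * u := by ring
  rw [e1, coeff_add, coeff_top_mul hp h0, coeff_top_mul hp hv'', add_zero]

end Pool.Agent.Lib.MP_71be78_ag
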