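import Pool.Agent.Lib.MP_71be78_ag.Ext

/-!
# The main argument, for an abstract setup
-/

set_option linter.unusedSectionVars false

namespace Pool.Agent.Lib.MP_71be78_ag

open Finset MvPolynomial

namespace Setup
variable {σ : Type*} [Fintype σ] [DecidableEq σ] {k : Type*} [Field k] {K : Type*}
    [Field K] [Algebra k K] (S : Setup k σ K)

theorem main (p : ℕ) [Fact p.Prime] [CharP k p] (hN : 3 ≤ Fintype.card σ)
    (htau : ∀ e : ℕ, ∃ s : ℕ, e ≤ s ∧ ∃ τ : MvPolynomial σ k →ₗ[k] MvPolynomial σ k,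
      QL (p ^ s) τ ∧ DG (-2) τ ∧ ∀ γ, ((p ^ s : ℕ) : ℤ) ∣ dg γ + 2 →
        S.f ^ (p ^ e) ∣ monomial γ 1 - τ (S.f * monomial γ 1))
    (n : ℕ) (c : (Fin (n + 2) → σ) → (K →ₗ[k] K)) (hc : ∀ b, c b ∈ S.DD p (Set.range b))
    (hcc : cd c = 0) :
    ∃ h : (Fin (n + 1) → σ) → (K →ₗ[k] K), (∀ b, h b ∈ S.DD p (Set.range b)) ∧ cd h = c := by
  classical
  have hp : 0 < p := (Fact.out : p.Prime).pos
  -- common level
  obtain ⟨e, he⟩ : ∃ e : ℕ, ∀ b, ∀ x y, c b (x ^ (p ^ e) * y) = x ^ (p ^ e) * c b y := by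
    choose eb heb using fun b => (hc b).1
    refine ⟨Finset.univ.sup eb, fun b => level_mono (Finset.le_sup (Finset.mem_univ b)) (heb b)⟩
  have hq : 0 < p ^ e := pow_pos hp _
  -- graded version of the cocycle
  set C : (Fin (n + 2) → σ) → (MvPolynomial σ k →ₗ[k] K) :=
    fun b => restr K (p ^ e) 0 ((c b).comp S.ev.toLinearMap) with hC
  have hC1 : ∀ b, C b ∈ S.HH (p ^ e) 0 (Set.range b) := fun b =>
    S.toHH (Set.range_nonempty b) (he b) (hc b).2
  have hC2 : cd C = 0 := by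
    funext b
    have h1 := cd_map ((restr K (p ^ e) 0).comp (LinearMap.lcomp k K S.ev.toLinearMap)) c b
    have h2 : (fun b => ((restr K (p ^ e) 0).comp (LinearMap.lcomp k K S.ev.toLinearMap)) (c b)) = C :=
      rfl
    rw [h2, hcc, Pi.zero_apply, map_zero] at h1
    exact h1
  obtain ⟨H, hH1, hH2⟩ := HH_exact hN hq (le_refl (0 : ℤ)) (n + 1) C hC1 hC2
  -- the obstruction
  have hrC : ∀ b, S.rho (C b) = 0 := by
    intro b
    apply LinearMap.ext
    intro u
    rw [rho_apply, hC]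
    simp only
    rw [restr_apply, prj_mul S.hf]
    simp only [LinearMap.comp_apply, AlgHom.toLinearMap_apply, map_mul]
    rw [show S.ev S.f = 0 from S.evf, zero_mul, map_zero, LinearMap.zero_apply]
  set g : (Fin (n + 1) → σ) → (MvPolynomial σ k →ₗ[k] K) := fun b => S.rho (H b) with hg
  have hg1 : ∀ b, g b ∈ S.HH (p ^ e) 2 (Set.range b) := fun b => rho_mem (hH1 b)
  have hg2 : cd g = 0 := by
    funext b
    rw [hg, cd_map, hH2, hrC]
    rfl
  obtain ⟨g', hg'1, hg'2⟩ := HH_exact hN hq (show (0 : ℤ) ≤ 2 by norm_num) n g hg1 hg2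
  -- the splitting
  obtain ⟨s, hes, τ, ht1, ht2, ht3⟩ := htau e
  have hdvd : p ^ e ∣ p ^ s := pow_dvd_pow p hes
  have hdvd' : ((p ^ e : ℕ) : ℤ) ∣ ((p ^ s : ℕ) : ℤ) := by exact_mod_cast hdvd
  choose h' hh'1 hh'2 using fun b => exists_T hes ht1 ht2 ht3 (hg'1 b)
  set H2 : (Fin (n + 1) → σ) → (MvPolynomial σ k →ₗ[k] K) :=
    (fun b => restr K (p ^ s) 0 (H b)) - cd h' with hH2'
  have hH21 : ∀ b, H2 b ∈ S.HH (p ^ s) 0 (Set.range b) := by
    intro b
    apply Submodule.sub_mem _ (restr_mem hdvd (hH1 b))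
    apply cd_mem
    intro j
    apply HH_mono (S := S) (p ^ s) 0 _ (hh'1 _)
    rintro _ ⟨i, rfl⟩; exact ⟨_, rfl⟩
  have hH22 : ∀ b, S.rho (H2 b) = 0 := by
    intro b
    rw [hH2', Pi.sub_apply, map_sub, rho_restr, ← cd_map]
    have h1 : (fun b => S.rho (h' b)) = fun b => restr K (p ^ s) 2 (g' b) := funext hh'2
    rw [h1, cd_map, hg'2, sub_self]
  have hH23 : cd H2 = fun b => restr K (p ^ s) 0 (C b) := by
    rw [hH2', cd_sub, cd_cd, sub_zero]
    funext b
    rw [cd_map, hH2]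
  -- extend
  choose φ hφ1 hφ2 using fun b => S.exists_ext (hH21 b).1
    (fun u => LinearMap.congr_fun (hH22 b) u)
  refine ⟨φ, fun b => ⟨⟨s, hφ1 b⟩, S.ext_mem (hH21 b) (hφ1 b) (hφ2 b)⟩, ?_⟩
  funext b
  apply S.ext_uniq (p := p) (e := s) _ (level_mono hes (he b))
  · intro γ hγ
    have h1 := cd_map (LinearMap.applyₗ (S.ev (monomial γ (1 : k))) : (K →ₗ[k] K) →ₗ[k] K) φ b
    simp only [LinearMap.applyₗ_apply_apply] at h1
    rw [← h1]
    have h2 : (fun b : Fin (n + 1) → σ => φ b (S.ev (monomial γ 1))) =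
        fun b => H2 b (monomial γ 1) := by
      funext b
      exact hφ2 b _ (mono_mem_VV' 1 hγ)
    have h3 := cd_map (LinearMap.applyₗ (monomial γ (1 : k)) :
      (MvPolynomial σ k →ₗ[k] K) →ₗ[k] K) H2 b
    simp only [LinearMap.applyₗ_apply_apply] at h3
    rw [h2, h3, hH23]
    simp only
    rw [restr_apply, prj_pos (by rw [add_zero]; exact hγ), hC]
    simp only
    rw [restr_apply, prj_pos (by rw [add_zero]; exact dvd_trans hdvd' hγ)]
    rfl
  · intro x y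
    simp only [cd, LinearMap.sum_apply, LinearMap.smul_apply, hφ1, Finset.mul_sum]
    apply Finset.sum_congr rfl
    intro j _
    rw [mul_smul_comm]

end Setup

end Pool.Agent.Lib.MP_71be78_ag
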