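import Pool.Agent.Lib.MP_71be78_ag.Ext

/-!
# Degree zero functions form the expected rings, and operators on them extend to the function field
-/

set_option linter.unusedSectionVars false

namespace Pool.Agent.Lib.MP_71be78_ag

open Finset MvPolynomial

namespace Setup
variable {σ : Type*} [Fintype σ] [DecidableEq σ] {k : Type*} [Field k] {K : Type*}
    [Field K] [Algebra k K] (S : Setup k σ K)

/-- the ring generated by the quotients of coordinates with denominators in `J` -/
noncomputable def RJ (J : Set σ) : Subalgebra k K :=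
  Algebra.adjoin k {w | ∃ a, ∃ b ∈ J, w = S.ξ a / S.ξ b}

lemma quot_mem {J : Set σ} (a : σ) {b : σ} (hb : b ∈ J) : S.ξ a / S.ξ b ∈ S.RJ J :=
  Algebra.subset_adjoin ⟨a, b, hb, rfl⟩

theorem OO_zero (J : Set σ) : S.OO 0 J = Subalgebra.toSubmodule (S.RJ J) := by
  classical
  apply le_antisymm
  · intro u hu
    have : (LinearMap.id : K →ₗ[k] K) u ∈ Subalgebra.toSubmodule (S.RJ J) := by
      apply S.OO_map _ hu
      intro γ h1 h2
      rw [LinearMap.id_apply, Subalgebra.mem_toSubmodule]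
      by_cases hJ : J.Nonempty
      · obtain ⟨b, hb⟩ := hJ
        have h3 : S.xm γ = ∏ a, (S.ξ a / S.ξ b) ^ (γ a) := by
          have h4 : ∏ a, (S.ξ b) ^ (γ a) = 1 := by
            have : ∀ s : Finset σ, ∏ a ∈ s, (S.ξ b) ^ (γ a) = (S.ξ b) ^ (∑ a ∈ s, γ a) := by
              intro s
              induction s using Finset.induction_on with
              | empty => simp
              | insert a s ha ih => rw [Finset.prod_insert ha, Finset.sum_insert ha, ih,
                  zpow_add₀ (S.ne b)]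
            rw [this, h1, zpow_zero]
          have h5 : ∀ a, (S.ξ a / S.ξ b) ^ (γ a) = (S.ξ a) ^ (γ a) * ((S.ξ b) ^ (γ a))⁻¹ := by
            intro a
            rw [div_zpow, div_eq_mul_inv]
          rw [Finset.prod_congr rfl (fun a _ => h5 a), Finset.prod_mul_distrib,
            Finset.prod_inv_distrib, h4, inv_one, mul_one]
          rfl
        rw [h3]
        apply Subalgebra.prod_mem
        intro a _
        by_cases ha : 0 ≤ γ a
        · obtain ⟨t, ht⟩ := Int.eq_ofNat_of_zero_le ha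
          rw [ht, zpow_natCast]
          exact Subalgebra.pow_mem _ (S.quot_mem a hb) _
        · have haJ : a ∈ J := by
            by_contra hne
            exact ha (h2 a hne)
          obtain ⟨t, ht⟩ := Int.eq_ofNat_of_zero_le (show 0 ≤ -(γ a) by omega)
          have h6 : (S.ξ a / S.ξ b) ^ (γ a) = (S.ξ b / S.ξ a) ^ t := by
            have : γ a = -(t : ℤ) := by omega
            rw [this, zpow_neg, zpow_natCast, ← inv_pow, inv_div]
          rw [h6]
          exact Subalgebra.pow_mem _ (S.quot_mem b haJ) _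
      · have h3 : ∀ a, 0 ≤ γ a := fun a => h2 a (fun h => hJ ⟨a, h⟩)
        have h4 : γ = 0 := by
          funext a
          have := (Finset.sum_eq_zero_iff_of_nonneg (fun a _ => h3 a)).mp h1 a (Finset.mem_univ a)
          exact this
        rw [h4, S.xm_zero]
        exact Subalgebra.one_mem _
    exact this
  · intro u hu
    have hone : (1 : K) ∈ S.OO 0 J := by
      rw [← S.xm_zero]
      exact S.xm_mem (by simp) (fun _ _ => le_rfl)
    have hmul : ∀ u v, u ∈ S.OO 0 J → v ∈ S.OO 0 J → u * v ∈ S.OO 0 J := by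
      intro u v h h'
      have := S.OO_mul h h'
      rwa [add_zero] at this
    set T : Subalgebra k K := (S.OO 0 J).toSubalgebra hone hmul with hT
    have h1 : S.RJ J ≤ T := by
      apply Algebra.adjoin_le
      rintro _ ⟨a, b, hb, rfl⟩
      show S.ξ a / S.ξ b ∈ S.OO 0 J
      have h2 : S.ξ a / S.ξ b = S.xm (Pi.single a 1 + Pi.single b (-1)) := by
        rw [S.xm_add, S.xm_single, S.xm_single, zpow_one, zpow_neg, zpow_one, div_eq_mul_inv]
      rw [h2]
      apply S.xm_mem
      · simp [Finset.sum_add_distrib]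
      · intro c hc
        have hcb : c ≠ b := fun h => hc (h ▸ hb)
        rw [Pi.add_apply, Pi.single_eq_of_ne hcb, add_zero]
        by_cases hca : c = a
        · rw [hca, Pi.single_eq_same]; norm_num
        · rw [Pi.single_eq_of_ne hca]
    exact h1 hu

/-- the function field is the field of fractions of `RJ J` for nonempty `J` -/
theorem frac_RJ {J : Set σ} (hJ : J.Nonempty) (u : K) :
    ∃ a ∈ S.RJ J, ∃ b ∈ S.RJ J, b ≠ 0 ∧ u * b = a := by
  obtain ⟨c, hc⟩ := hJ
  -- polynomials first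
  have hpoly : ∀ g : MvPolynomial σ k, ∃ a ∈ S.RJ J, ∃ b ∈ S.RJ J, b ≠ 0 ∧ S.ev g * b = a := by
    intro g
    induction g using MvPolynomial.induction_on with
    | C x =>
      refine ⟨algebraMap k K x, Subalgebra.algebraMap_mem _ _, 1, Subalgebra.one_mem _,
        one_ne_zero, ?_⟩
      rw [mul_one]
      unfold ev
      rw [aeval_C]
    | add g h hg hh =>
      obtain ⟨a, ha, b, hb, hb0, hab⟩ := hg
      obtain ⟨a', ha', b', hb', hb0', hab'⟩ := hh
      refine ⟨a * b' + a' * b, Subalgebra.add_mem _ (Subalgebra.mul_mem _ ha hb')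
        (Subalgebra.mul_mem _ ha' hb), b * b', Subalgebra.mul_mem _ hb hb',
        mul_ne_zero hb0 hb0', ?_⟩
      rw [map_add, ← hab, ← hab']
      ring
    | mul_X g n hg =>
      obtain ⟨a, ha, b, hb, hb0, hab⟩ := hg
      refine ⟨a * (S.ξ n / S.ξ c), Subalgebra.mul_mem _ ha (S.quot_mem n hc),
        b * (S.ξ S.a0 / S.ξ c), Subalgebra.mul_mem _ hb (S.quot_mem S.a0 hc),
        mul_ne_zero hb0 (div_ne_zero (S.ne _) (S.ne _)), ?_⟩
      rw [map_mul, S.ev_X, ← hab, S.one]
      ring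
  obtain ⟨g, s, hs, h⟩ := S.frac u
  have h' : u * S.ev s = S.ev g := h
  have hs' : S.ev s ≠ 0 := hs
  obtain ⟨a, ha, b, hb, hb0, hab⟩ := hpoly g
  obtain ⟨a', ha', b', hb', hb0', hab'⟩ := hpoly s
  refine ⟨a * b', Subalgebra.mul_mem _ ha hb', a' * b, Subalgebra.mul_mem _ ha' hb, ?_, ?_⟩
  · rw [← hab']
    exact mul_ne_zero (mul_ne_zero hs' hb0') hb0
  · rw [← hab', ← hab, ← h']
    ring

/-- **operators on the ring of functions extend uniquely to the function field** -/
theorem extend_RJ {p e : ℕ} [Fact p.Prime] [CharP k p] {J : Set σ} (hJ : J.Nonempty)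
    (ψ : S.RJ J →ₗ[k] S.RJ J)
    (hψ : ∀ u v : S.RJ J, ψ (u ^ (p ^ e) * v) = u ^ (p ^ e) * ψ v) :
    ∃! φ : K →ₗ[k] K, (∀ u v : K, φ (u ^ (p ^ e) * v) = u ^ (p ^ e) * φ v) ∧
      ∀ u : S.RJ J, φ (u : K) = (ψ u : K) := by
  have hq : 0 < p ^ e := pow_pos (Fact.out : p.Prime).pos _
  have : CharP K p := charP_of_injective_algebraMap (algebraMap k K).injective p
  set G : Submodule k (K × K) :=
    { carrier := {x | ∃ a b : S.RJ J, (b : K) ≠ 0 ∧ x.1 * (b : K) ^ (p ^ e) = (a : K) ∧
        x.2 * (b : K) ^ (p ^ e) = (ψ a : K)}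
      zero_mem' := ⟨0, 1, by simp, by simp, by simp⟩
      add_mem' := by
        rintro ⟨u1, v1⟩ ⟨u2, v2⟩ ⟨a1, b1, hb1, h1, h1'⟩ ⟨a2, b2, hb2, h2, h2'⟩
        refine ⟨b2 ^ (p ^ e) * a1 + b1 ^ (p ^ e) * a2, b1 * b2, ?_, ?_, ?_⟩
        · rw [Subalgebra.coe_mul]; exact mul_ne_zero hb1 hb2
        · simp only [Prod.fst_add, Subalgebra.coe_add, Subalgebra.coe_mul, Subalgebra.coe_pow]
          simp only at h1 h2
          rw [← h1, ← h2]
          ring
        · rw [map_add, hψ, hψ]
          simp only [Prod.snd_add, Subalgebra.coe_add, Subalgebra.coe_mul, Subalgebra.coe_pow]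
          simp only at h1' h2'
          rw [← h1', ← h2']
          ring
      smul_mem' := by
        rintro c ⟨u, v⟩ ⟨a, b, hb, h, h'⟩
        refine ⟨c • a, b, hb, ?_, ?_⟩
        · simp only [Prod.smul_fst, Subalgebra.coe_smul, smul_mul_assoc] at h ⊢
          rw [h]
        · simp only [Prod.smul_snd, map_smul, Subalgebra.coe_smul, smul_mul_assoc] at h' ⊢
          rw [h'] } with hG
  have hG0 : ∀ v, ((0 : K), v) ∈ G → v = 0 := by
    rintro v ⟨a, b, hb, h, h'⟩
    simp only [zero_mul] at h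
    have ha : a = 0 := Subtype.ext h.symm
    simp only at h'
    rw [ha, map_zero, Subalgebra.coe_zero] at h'
    rcases mul_eq_zero.mp h' with h'' | h''
    · exact h''
    · exact absurd h'' (pow_ne_zero _ hb)
  have htot : ∀ u : K, ∃ a b : S.RJ J, (b : K) ≠ 0 ∧ u * (b : K) ^ (p ^ e) = (a : K) := by
    intro u
    obtain ⟨a, ha, b, hb, hb0, hab⟩ := S.frac_RJ hJ u
    refine ⟨⟨a * b ^ (p ^ e - 1), Subalgebra.mul_mem _ ha (Subalgebra.pow_mem _ hb _)⟩, ⟨b, hb⟩,
      hb0, ?_⟩
    simp only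
    rw [← hab, mul_assoc, ← pow_succ', Nat.sub_add_cancel hq]
  obtain ⟨φ, hφ⟩ := exists_linearMap_of_rel G (by
    intro u
    obtain ⟨a, b, hb, h⟩ := htot u
    refine ⟨(ψ a : K) / (b : K) ^ (p ^ e), a, b, hb, h, ?_⟩
    simp only
    rw [div_mul_cancel₀ _ (pow_ne_zero _ hb)]) hG0
  have huniq : ∀ u v v', (u, v) ∈ G → (u, v') ∈ G → v = v' := by
    intro u v v' h h'
    have := G.sub_mem h h'
    rw [Prod.mk_sub_mk, sub_self] at this
    exact sub_eq_zero.mp (hG0 _ this)
  refine ⟨φ, ⟨?_, ?_⟩, ?_⟩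
  · intro u v
    apply huniq _ _ _ (hφ _)
    obtain ⟨a, b, hb, h, h'⟩ := hφ v
    obtain ⟨a2, ha2, b2, hb2, hb20, hab2⟩ := S.frac_RJ hJ u
    refine ⟨(⟨a2, ha2⟩ : S.RJ J) ^ (p ^ e) * a, ⟨b2, hb2⟩ * b, ?_, ?_, ?_⟩
    · rw [Subalgebra.coe_mul]; exact mul_ne_zero hb20 hb
    · simp only [Subalgebra.coe_mul, Subalgebra.coe_pow] at h ⊢
      rw [← h, ← hab2]
      ring
    · rw [hψ]
      simp only [Subalgebra.coe_mul, Subalgebra.coe_pow] at h' ⊢
      rw [← h', ← hab2]
      ring
  · intro u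
    apply huniq _ _ _ (hφ _)
    exact ⟨u, 1, by simp, by simp, by simp⟩
  · rintro φ' ⟨h1, h2⟩
    apply LinearMap.ext
    intro u
    obtain ⟨a, b, hb, h⟩ := htot u
    have h3 := h2 a
    rw [← h, mul_comm, h1] at h3
    have h4 : (u, φ' u) ∈ G := ⟨a, b, hb, h, by simp only; rw [mul_comm]; exact h3⟩
    exact huniq _ _ _ h4 (hφ u)

end Setup

end Pool.Agent.Lib.MP_71be78_ag
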