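import Mathlib

/-!
Jordan strings in characteristic `p`: the property `LL p e G C` says that the graded module
`(V, G)` with the degree `2` operator `e` has no Tate cohomology below its centre `C`.
It is preserved under tensor products with strings of length at most `p`.
-/

set_option autoImplicit false

namespace Pool.Agent.Lib.MP_71be78_ag

variable {k : Type*} [Field k] {V : Type*} [AddCommGroup V] [Module k V]

/-- Property `L`: for `t ≤ p`, below the centre `C`, the kernel of `e ^ t` is the image of
`e ^ (p - t)`. -/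
def LL (p : ℕ) (e : V →ₗ[k] V) (G : ℤ → Submodule k V) (C : ℤ) : Prop :=
  ∀ t : ℕ, t ≤ p → ∀ i : ℤ, i + t - 1 < C → ∀ v ∈ G i, (e ^ t) v = 0 →
    ∃ y ∈ G (i - 2 * ((p - t : ℕ) : ℤ)), v = (e ^ (p - t)) y

/-- the operator on `V ⊗ J_2` -/
def e2 (e : V →ₗ[k] V) : (V × V) →ₗ[k] (V × V) :=
  LinearMap.prod (e ∘ₗ LinearMap.fst k V V) (e ∘ₗ LinearMap.snd k V V + LinearMap.fst k V V)

@[simp] lemma e2_apply (e : V →ₗ[k] V) (w : V × V) : e2 e w = (e w.1, e w.2 + w.1) := rfl

/-- grading on `V ⊗ J_2` -/
def G2 (G : ℤ → Submodule k V) (i : ℤ) : Submodule k (V × V) := (G i).prod (G (i - 2))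

lemma e2_pow (e : V →ₗ[k] V) (t : ℕ) (w : V × V) :
    ((e2 e) ^ (t + 1)) w
      = ((e ^ (t + 1)) w.1, (e ^ (t + 1)) w.2 + ((t + 1 : ℕ) : k) • (e ^ t) w.1) := by
  induction t with
  | zero => simp
  | succ t ih =>
    rw [pow_succ', Module.End.mul_apply, ih]
    simp only [e2_apply, map_add, map_smul]
    rw [← Module.End.mul_apply, ← pow_succ', ← Module.End.mul_apply, ← pow_succ',
      ← Module.End.mul_apply, ← pow_succ']
    ext
    · rfl
    · simp only [Nat.cast_add, Nat.cast_one]
      module

lemma pow_add_apply (e : V →ₗ[k] V) (a b : ℕ) (v : V) :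
    (e ^ (a + b)) v = (e ^ a) ((e ^ b) v) := by
  rw [pow_add, Module.End.mul_apply]

theorem LL_J2 {p : ℕ} [Fact p.Prime] [CharP k p] {e : V →ₗ[k] V} {G : ℤ → Submodule k V} {C : ℤ}
    (he : ∀ i, ∀ v ∈ G i, e v ∈ G (i + 2)) (h : LL p e G C) :
    LL p (e2 e) (G2 G) (C + 1) := by
  intro t ht i hi w hw hw0
  rcases Nat.lt_or_ge t p with htp | htp
  swap
  · have : t = p := le_antisymm ht htp
    subst this
    refine ⟨w, ?_, ?_⟩
    · simpa using hw
    · simp
  rcases t with _ | t
  · refine ⟨0, Submodule.zero_mem _, ?_⟩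
    simp only [pow_zero, Module.End.one_apply] at hw0
    simp [hw0]
  obtain ⟨w0, w1⟩ := w
  rw [e2_pow] at hw0
  simp only [Prod.mk_eq_zero] at hw0
  obtain ⟨ha, hb⟩ := hw0
  obtain ⟨hw0G, hw1G⟩ : w0 ∈ G i ∧ w1 ∈ G (i - 2) := by
    simpa [G2, Submodule.mem_prod] using hw
  have hne : ((t + 1 : ℕ) : k) ≠ 0 := by
    intro h0
    rw [CharP.cast_eq_zero_iff k p] at h0
    exact absurd (Nat.le_of_dvd (Nat.succ_pos t) h0) (by omega)
  -- z = (t+1) w0 + e w1
  set z : V := ((t + 1 : ℕ) : k) • w0 + e w1 with hz
  have hzG : z ∈ G i := by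
    refine Submodule.add_mem _ (Submodule.smul_mem _ _ hw0G) ?_
    have := he _ _ hw1G
    simpa using this
  have hz0 : (e ^ t) z = 0 := by
    rw [hz, map_add, map_smul, ← hb, add_comm]
    congr 1
  obtain ⟨z', hz'G, hz'⟩ := h t (by omega) i (by push_cast at hi ⊢; omega) z hzG hz0
  have hw1t : (e ^ (t + 2)) w1 = 0 := by
    have h1 : (e ^ (t + 2)) w1 = e ((e ^ (t + 1)) w1) := by
      rw [show t + 2 = 1 + (t + 1) by ring, pow_add_apply, pow_one]
    have h2 : (e ^ (t + 1)) w1 = - (((t + 1 : ℕ) : k) • (e ^ t) w0) :=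
      eq_neg_of_add_eq_zero_left hb
    rw [h1, h2, map_neg, map_smul]
    have h3 : e ((e ^ t) w0) = (e ^ (t + 1)) w0 := by
      rw [show t + 1 = 1 + t by ring, pow_add_apply, pow_one]
    rw [h3, ha, smul_zero, neg_zero]
  obtain ⟨w1', hw1'G, hw1'⟩ := h (t + 2) (by omega) (i - 2) (by push_cast at hi ⊢; omega) w1 hw1G hw1t
  -- set s = p - (t+1) ≥ 1
  obtain ⟨s, hs⟩ : ∃ s, p = t + 1 + (s + 1) := ⟨p - (t + 1) - 1, by omega⟩
  have e1 : p - t = s + 2 := by omega
  have e3 : p - (t + 1) = s + 1 := by omega
  have e4 : p - (t + 2) = s := by omega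
  rw [e1] at hz' hz'G
  rw [e4] at hw1' hw1'G
  rw [e3]
  have hcast : ((s + 1 : ℕ) : k) = - ((t + 1 : ℕ) : k) := by
    have : ((t + 1 + (s + 1) : ℕ) : k) = 0 := by
      rw [← hs]; exact CharP.cast_eq_zero k p
    push_cast at this ⊢
    linear_combination this
  set c : k := ((t + 1 : ℕ) : k) with hc
  refine ⟨(c⁻¹ • (e z' - w1'), z'), ?_, ?_⟩
  · simp only [G2, Submodule.mem_prod]
    refine ⟨Submodule.smul_mem _ _ (Submodule.sub_mem _ ?_ ?_), ?_⟩
    · have := he _ _ hz'G
      convert this using 2
      push_cast; ring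
    · convert hw1'G using 2
      push_cast; ring
    · convert hz'G using 2
      push_cast; ring
  · rw [e2_pow]
    simp only [map_smul, map_sub]
    have key : (e ^ (s + 1)) (e z') - (e ^ (s + 1)) w1' = c • w0 := by
      have h1 : (e ^ (s + 1)) (e z') = z := by
        rw [hz', show s + 2 = (s + 1) + 1 by ring, pow_add_apply e (s+1) 1, pow_one]
      have h2 : (e ^ (s + 1)) w1' = e w1 := by
        rw [hw1', show s + 1 = 1 + s by ring, pow_add_apply e 1 s, pow_one]
      rw [h1, h2, hz]
      abel
    have key2 : (e ^ s) (e z') - (e ^ s) w1' = (e ^ (s + 1)) z' - w1 := by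
      rw [pow_add_apply e s 1, pow_one, ← hw1']
    rw [key, key2, hcast]
    ext
    · simp [smul_smul, inv_mul_cancel₀ hne]
    · simp only [smul_smul]
      rw [show -c * c⁻¹ = -1 by rw [neg_mul, mul_inv_cancel₀ hne]]
      simp

section retract

variable {W : Type*} [AddCommGroup W] [Module k W]

theorem LL_retract {p : ℕ} {e : V →ₗ[k] V} {G : ℤ → Submodule k V} {C : ℤ}
    {e' : W →ₗ[k] W} {G' : ℤ → Submodule k W}
    (ι : W →ₗ[k] V) (r : V →ₗ[k] W)
    (hG : ∀ i, ∀ v ∈ G i, e v ∈ G (i + 2))
    (hG' : ∀ i, ∀ v ∈ G' i, e' v ∈ G' (i + 2))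
    (hι : ∀ i, ∀ w ∈ G' i, ι w ∈ G i) (hr : ∀ i, ∀ v ∈ G i, r v ∈ G' i)
    (hιe : ∀ i, ∀ w ∈ G' i, ι (e' w) = e (ι w)) (hre : ∀ i, ∀ v ∈ G i, r (e v) = e' (r v))
    (hrι : ∀ i, ∀ w ∈ G' i, r (ι w) = w) (h : LL p e G C) : LL p e' G' C := by
  have pw1 : ∀ t : ℕ, ∀ i, ∀ w ∈ G' i, ι ((e' ^ t) w) = (e ^ t) (ι w) := by
    intro t
    induction t with
    | zero => intro i w _; simp
    | succ t ih =>
      intro i w hw
      rw [pow_add_apply, pow_add_apply, pow_one, pow_one, ih _ _ (hG' _ _ hw), hιe _ _ hw]
  have pw2 : ∀ t : ℕ, ∀ i, ∀ v ∈ G i, r ((e ^ t) v) = (e' ^ t) (r v) := by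
    intro t
    induction t with
    | zero => intro i w _; simp
    | succ t ih =>
      intro i w hw
      rw [pow_add_apply, pow_add_apply, pow_one, pow_one, ih _ _ (hG _ _ hw), hre _ _ hw]
  intro t ht i hi w hw hw0
  obtain ⟨y, hy, hyw⟩ := h t ht i hi (ι w) (hι i w hw) (by rw [← pw1 t i w hw, hw0, map_zero])
  refine ⟨r y, hr _ _ hy, ?_⟩
  rw [← pw2 _ _ _ hy, ← hyw, hrι _ _ hw]

end retract

/-- the operator on `V ⊗ J_a`, `J_a = k[u]/(u^a)` -/
def eJ (a : ℕ) (e : V →ₗ[k] V) : (ℕ → V) →ₗ[k] (ℕ → V) where
  toFun w j := if j < a then e (w j) + (if j = 0 then 0 else w (j - 1)) else 0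
  map_add' x y := by
    funext j
    simp only [Pi.add_apply, map_add]
    split_ifs
    · simp
    · abel
    · simp
  map_smul' c x := by
    funext j
    change (if j < a then e ((c • x) j) + (if j = 0 then 0 else (c • x) (j - 1)) else 0)
      = c • (if j < a then e (x j) + (if j = 0 then 0 else x (j - 1)) else 0)
    simp only [Pi.smul_apply, map_smul]
    split_ifs <;> simp

lemma eJ_apply (a : ℕ) (e : V →ₗ[k] V) (w : ℕ → V) (j : ℕ) :
    eJ a e w j = if j < a then e (w j) + (if j = 0 then 0 else w (j - 1)) else 0 := rfl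

/-- grading on `V ⊗ J_a` -/
def GJ (a : ℕ) (G : ℤ → Submodule k V) (i : ℤ) : Submodule k (ℕ → V) where
  carrier := {w | (∀ j : ℕ, w j ∈ G (i - 2 * j)) ∧ ∀ j, a ≤ j → w j = 0}
  add_mem' := by
    rintro x y ⟨hx, hx'⟩ ⟨hy, hy'⟩
    exact ⟨fun j => Submodule.add_mem _ (hx j) (hy j), fun j hj => by simp [hx' j hj, hy' j hj]⟩
  zero_mem' := ⟨fun j => Submodule.zero_mem _, fun j _ => rfl⟩
  smul_mem' := by
    rintro c x ⟨hx, hx'⟩
    exact ⟨fun j => Submodule.smul_mem _ _ (hx j), fun j hj => by simp [hx' j hj]⟩

lemma mem_GJ {a : ℕ} {G : ℤ → Submodule k V} {i : ℤ} {w : ℕ → V} :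
    w ∈ GJ a G i ↔ (∀ j : ℕ, w j ∈ G (i - 2 * j)) ∧ ∀ j, a ≤ j → w j = 0 := Iff.rfl

lemma eJ_mem {a : ℕ} {e : V →ₗ[k] V} {G : ℤ → Submodule k V}
    (he : ∀ i, ∀ v ∈ G i, e v ∈ G (i + 2)) :
    ∀ i, ∀ w ∈ GJ a G i, eJ a e w ∈ GJ a G (i + 2) := by
  rintro i w ⟨hw, hw'⟩
  refine ⟨fun j => ?_, fun j hj => ?_⟩
  · rw [eJ_apply]
    split_ifs with h1 h2
    · rw [add_zero]
      have := he _ _ (hw j)
      convert this using 2
      ring
    · refine Submodule.add_mem _ ?_ ?_
      · have := he _ _ (hw j)
        convert this using 2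
        ring
      · have := hw (j - 1)
        convert this using 2
        push_cast [Nat.cast_sub (Nat.one_le_iff_ne_zero.mpr h2)]
        ring
    · exact Submodule.zero_mem _
  · rw [eJ_apply, if_neg (by omega)]

theorem LL_J {p : ℕ} [Fact p.Prime] [CharP k p] {e : V →ₗ[k] V} {G : ℤ → Submodule k V} {C : ℤ}
    (he : ∀ i, ∀ v ∈ G i, e v ∈ G (i + 2)) (h : LL p e G C) (a : ℕ) (ha : a ≤ p) :
    LL p (eJ a e) (GJ a G) (C + a - 1) := by
  induction a with
  | zero =>
    intro t ht i hi w hw hw0
    refine ⟨0, Submodule.zero_mem _, ?_⟩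
    rw [map_zero]
    funext j
    exact hw.2 j (Nat.zero_le j)
  | succ a ih =>
    rcases Nat.eq_zero_or_pos a with ha0 | ha0
    · subst ha0
      have := LL_retract (k := k) (V := V) (W := ℕ → V) (p := p) (e := e) (G := G) (C := C)
        (e' := eJ 1 e) (G' := GJ 1 G)
        (LinearMap.proj 0) (LinearMap.single k (fun _ : ℕ => V) 0) he (eJ_mem he)
        (by
          rintro i w ⟨hw, hw'⟩
          have := hw 0
          simpa using this)
        (by
          intro i v hv
          refine ⟨fun j => ?_, fun j hj => ?_⟩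
          · rcases Nat.eq_zero_or_pos j with hj | hj
            · subst hj; simpa using hv
            · simp [hj.ne']
          · simp [(show j ≠ 0 by omega)])
        (by
          rintro i w ⟨hw, hw'⟩
          simp [eJ_apply])
        (by
          intro i v hv
          funext j
          rw [eJ_apply]
          rcases Nat.eq_zero_or_pos j with hj | hj
          · subst hj; simp
          · simp [hj.ne', (show ¬ j < 1 by omega)])
        (by
          rintro i w ⟨hw, hw'⟩
          funext j
          rcases Nat.eq_zero_or_pos j with hj | hj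
          · subst hj; simp
          · simp [hj.ne', hw' j hj])
        h
      simpa using this
    · have hJ := LL_J2 (p := p) (eJ_mem (a := a) he) (ih (by omega))
      have hne : ((a : ℕ) : k) ≠ 0 := by
        intro h0
        rw [CharP.cast_eq_zero_iff k p] at h0
        exact absurd (Nat.le_of_dvd ha0 h0) (by omega)
      let ι : (ℕ → V) →ₗ[k] (ℕ → V) × (ℕ → V) :=
        { toFun := fun w => (fun j => if j < a then w j else 0,
            fun j => if j < a then ((j + 1 : ℕ) : k) • w (j + 1) else 0)
          map_add' := by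
            intro x y
            ext j
            · simp only [Pi.add_apply, Prod.fst_add]; split_ifs <;> simp
            · simp only [Pi.add_apply, Prod.snd_add]; split_ifs <;> simp
          map_smul' := by
            intro c x
            ext j
            · simp only [Pi.smul_apply, RingHom.id_apply, Prod.smul_fst]; split_ifs <;> simp
            · simp only [Pi.smul_apply, RingHom.id_apply, Prod.smul_snd]
              split_ifs
              · rw [smul_comm]
              · simp }
      let r : (ℕ → V) × (ℕ → V) →ₗ[k] (ℕ → V) :=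
        { toFun := fun w n => if n < a + 1 then
              (a : k)⁻¹ • (((a : k) - n) • w.1 n + (if n = 0 then 0 else w.2 (n - 1))) else 0
          map_add' := by
            intro x y
            funext n
            simp only [Pi.add_apply, Prod.fst_add, Prod.snd_add]
            split_ifs <;> simp <;> module
          map_smul' := by
            intro c x
            funext n
            simp only [Pi.smul_apply, RingHom.id_apply, Prod.smul_fst, Prod.smul_snd]
            split_ifs <;> simp <;> module }
      have hι1 : ∀ w j, (ι w).1 j = if j < a then w j else 0 := fun _ _ => rfl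
      have hι2 : ∀ w j, (ι w).2 j = if j < a then ((j + 1 : ℕ) : k) • w (j + 1) else 0 :=
        fun _ _ => rfl
      have hr : ∀ w n, r w n = if n < a + 1 then
              (a : k)⁻¹ • (((a : k) - n) • w.1 n + (if n = 0 then 0 else w.2 (n - 1))) else 0 :=
        fun _ _ => rfl
      have key := LL_retract (k := k) (V := (ℕ → V) × (ℕ → V)) (W := ℕ → V) (p := p)
        (e := e2 (eJ a e)) (G := G2 (GJ a G)) (C := C + a - 1 + 1)
        (e' := eJ (a + 1) e) (G' := GJ (a + 1) G) ι r
        (by
          rintro i ⟨v0, v1⟩ hv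
          simp only [G2, Submodule.mem_prod] at hv ⊢
          have e5 : i + 2 - 2 = i - 2 + 2 := by ring
          refine ⟨eJ_mem he _ _ hv.1, Submodule.add_mem _ ?_ ?_⟩
          · rw [e5]
            exact eJ_mem he _ _ hv.2
          · rw [show i + 2 - 2 = i by ring]
            exact hv.1)
        (eJ_mem he)
        (by
          rintro i w ⟨hw, hw'⟩
          simp only [G2, Submodule.mem_prod]
          refine ⟨⟨fun j => ?_, fun j hj => ?_⟩, ⟨fun j => ?_, fun j hj => ?_⟩⟩
          · rw [hι1]
            split_ifs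
            · exact hw j
            · exact Submodule.zero_mem _
          · rw [hι1, if_neg (by omega)]
          · rw [hι2]
            split_ifs
            · refine Submodule.smul_mem _ _ ?_
              have := hw (j + 1)
              convert this using 2
              push_cast; ring
            · exact Submodule.zero_mem _
          · rw [hι2, if_neg (by omega)])
        (by
          rintro i ⟨w0, w1⟩ hw
          simp only [G2, Submodule.mem_prod] at hw
          obtain ⟨⟨h0, h0'⟩, h1, h1'⟩ := hw
          refine ⟨fun n => ?_, fun n hn => ?_⟩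
          · rw [hr]
            split_ifs with hn hn0
            · refine Submodule.smul_mem _ _ (Submodule.add_mem _ (Submodule.smul_mem _ _ (h0 n)) ?_)
              exact Submodule.zero_mem _
            · refine Submodule.smul_mem _ _ (Submodule.add_mem _ (Submodule.smul_mem _ _ (h0 n)) ?_)
              have := h1 (n - 1)
              convert this using 2
              push_cast [Nat.cast_sub (Nat.one_le_iff_ne_zero.mpr hn0)]
              ring
            · exact Submodule.zero_mem _
          · rw [hr, if_neg (by omega)])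
        (by
          rintro i w ⟨hw, hw'⟩
          ext j
          · rw [hι1, e2_apply]
            simp only
            rw [eJ_apply, eJ_apply, hι1]
            by_cases hj : j < a
            · rw [if_pos hj, if_pos (by omega), if_pos hj, if_pos hj]
              by_cases hj0 : j = 0
              · rw [if_pos hj0, if_pos hj0]
              · rw [if_neg hj0, if_neg hj0, hι1, if_pos (by omega)]
            · rw [if_neg hj, if_neg hj]
          · rw [hι2, e2_apply]
            simp only [Pi.add_apply]
            rw [eJ_apply, eJ_apply, hι1, hι2]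
            by_cases hj : j < a
            · rw [if_pos hj, if_pos (by omega), if_pos hj, if_pos hj, if_pos hj,
                if_neg (Nat.succ_ne_zero j), map_smul, Nat.add_sub_cancel]
              by_cases hj0 : j = 0
              · subst hj0; simp
              · rw [if_neg hj0, hι2, if_pos (by omega), Nat.sub_add_cancel (by omega)]
                push_cast
                module
            · rw [if_neg hj, if_neg hj, if_neg hj, add_zero])
        (by
          rintro i ⟨w0, w1⟩ hw
          simp only [G2, Submodule.mem_prod] at hw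
          obtain ⟨⟨h0, h0'⟩, h1, h1'⟩ := hw
          funext n
          rw [hr, eJ_apply, e2_apply]
          by_cases hn : n < a + 1
          swap
          · rw [if_neg hn, if_neg hn]
          rw [if_pos hn, if_pos hn, hr, if_pos hn]
          by_cases hn0 : n = 0
          · subst hn0
            simp only [if_true, add_zero]
            rw [eJ_apply, if_pos ha0, map_smul, map_smul]
            simp
          · rw [if_neg hn0, if_neg hn0, if_neg hn0, hr, if_pos (by omega)]
            simp only [Pi.add_apply]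
            rw [eJ_apply, eJ_apply, if_pos (show n - 1 < a by omega), if_neg hn0]
            have hcast : (((n - 1 : ℕ)) : k) = (n : k) - 1 := by
              rw [Nat.cast_sub (by omega)]; simp
            by_cases hna : n < a
            · rw [if_pos hna]
              simp only [map_smul, map_add, hcast]
              by_cases hn1 : n - 1 = 0
              · rw [if_pos hn1]; module
              · rw [if_neg hn1]; module
            · rw [if_neg hna]
              have hna' : n = a := by omega
              subst hna'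
              simp only [map_smul, hcast, sub_self, zero_smul, zero_add]
              by_cases hn1 : n - 1 = 0
              · rw [if_pos hn1]; module
              · rw [if_neg hn1]; module)
        (by
          rintro i w ⟨hw, hw'⟩
          funext n
          rw [hr]
          by_cases hn : n < a + 1
          swap
          · rw [if_neg hn, hw' n (by omega)]
          rw [if_pos hn, hι1]
          by_cases hn0 : n = 0
          · subst hn0
            rw [if_pos ha0, if_pos rfl]
            simp [smul_smul, inv_mul_cancel₀ hne]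
          · rw [if_neg hn0, hι2, if_pos (show n - 1 < a by omega),
              Nat.sub_add_cancel (show 1 ≤ n by omega)]
            by_cases hna : n < a
            · rw [if_pos hna, ← add_smul, smul_smul, sub_add_cancel, inv_mul_cancel₀ hne, one_smul]
            · rw [if_neg hna]
              have hna' : n = a := by omega
              subst hna'
              rw [smul_zero, zero_add, smul_smul, inv_mul_cancel₀ hne, one_smul])
        hJ
      have hC : C + (a : ℤ) - 1 + 1 = C + ((a + 1 : ℕ) : ℤ) - 1 := by push_cast; ring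
      rw [hC] at key
      exact key


section chains

variable {S : Type*}

/-- a family of strings -/
def eS (len : S → ℕ) (e : V →ₗ[k] V) : (S → ℕ → V) →ₗ[k] (S → ℕ → V) :=
  LinearMap.pi (fun s => eJ (len s) e ∘ₗ LinearMap.proj s)

lemma eS_apply (len : S → ℕ) (e : V →ₗ[k] V) (w : S → ℕ → V) (s : S) :
    eS len e w s = eJ (len s) e (w s) := rfl

def GS (len : S → ℕ) (base : S → ℤ) (G : ℤ → Submodule k V) (i : ℤ) :
    Submodule k (S → ℕ → V) where
  carrier := {w | ∀ s, w s ∈ GJ (len s) G (i - base s)}
  add_mem' := by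
    intro x y hx hy s
    exact Submodule.add_mem _ (hx s) (hy s)
  zero_mem' := fun s => Submodule.zero_mem _
  smul_mem' := by
    intro c x hx s
    exact Submodule.smul_mem _ _ (hx s)

lemma mem_GS {len : S → ℕ} {base : S → ℤ} {G : ℤ → Submodule k V} {i : ℤ} {w : S → ℕ → V} :
    w ∈ GS len base G i ↔ ∀ s, w s ∈ GJ (len s) G (i - base s) := Iff.rfl

lemma eS_mem {len : S → ℕ} {base : S → ℤ} {e : V →ₗ[k] V} {G : ℤ → Submodule k V}
    (he : ∀ i, ∀ v ∈ G i, e v ∈ G (i + 2)) :
    ∀ i, ∀ w ∈ GS len base G i, eS len e w ∈ GS len base G (i + 2) := by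
  intro i w hw s
  have := eJ_mem he _ _ (hw s)
  rw [eS_apply]
  rw [show i + 2 - base s = i - base s + 2 by ring]
  exact this

lemma eS_pow (len : S → ℕ) (e : V →ₗ[k] V) (t : ℕ) (w : S → ℕ → V) (s : S) :
    ((eS len e) ^ t) w s = ((eJ (len s) e) ^ t) (w s) := by
  induction t generalizing w with
  | zero => simp
  | succ t ih => rw [pow_add_apply, pow_add_apply, pow_one, pow_one, ih, eS_apply]

theorem LL_chains {p : ℕ} [Fact p.Prime] [CharP k p] {e : V →ₗ[k] V} {G : ℤ → Submodule k V}
    {C : ℤ} (he : ∀ i, ∀ v ∈ G i, e v ∈ G (i + 2)) (h : LL p e G C)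
    (len : S → ℕ) (base : S → ℤ) (c0 : ℤ) (hlen : ∀ s, len s ≤ p)
    (hb : ∀ s, 0 < len s → base s + len s - 1 = c0) :
    LL p (eS len e) (GS len base G) (C + c0) := by
  intro t ht i hi w hw hw0
  have hex : ∀ s, ∃ y ∈ GJ (len s) G (i - base s - 2 * ((p - t : ℕ) : ℤ)),
      w s = ((eJ (len s) e) ^ (p - t)) y := by
    intro s
    rcases Nat.eq_zero_or_pos (len s) with h0 | h0
    · refine ⟨0, Submodule.zero_mem _, ?_⟩
      rw [map_zero]
      funext j
      exact (hw s).2 j (by omega)
    · have h1 := LL_J he h (len s) (hlen s) t ht (i - base s)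
        (by have := hb s h0; omega) (w s) (hw s)
        (by rw [← eS_pow, hw0]; rfl)
      exact h1
  choose y hy hyw using hex
  refine ⟨y, fun s => ?_, ?_⟩
  · have := hy s
    rw [show i - 2 * ((p - t : ℕ) : ℤ) - base s = i - base s - 2 * ((p - t : ℕ) : ℤ) by ring]
    exact this
  · funext s
    rw [eS_pow]
    exact hyw s

end chains

section pair

/-- the operator on `V ⊗ k[x,y]/(x^p,y^p)`, `e + xy` -/
def eP (p : ℕ) (e : V →ₗ[k] V) : (ℕ → ℕ → V) →ₗ[k] (ℕ → ℕ → V) where
  toFun w a b := if a < p ∧ b < p then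
    e (w a b) + (if a = 0 ∨ b = 0 then 0 else w (a - 1) (b - 1)) else 0
  map_add' x y := by
    funext a b
    simp only [Pi.add_apply, map_add]
    split_ifs
    · simp
    · abel
    · simp
  map_smul' c x := by
    funext a b
    change (if a < p ∧ b < p then e ((c • x) a b) +
        (if a = 0 ∨ b = 0 then 0 else (c • x) (a - 1) (b - 1)) else 0)
      = c • (if a < p ∧ b < p then e (x a b) +
        (if a = 0 ∨ b = 0 then 0 else x (a - 1) (b - 1)) else 0)
    simp only [Pi.smul_apply, map_smul]
    split_ifs <;> simp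

lemma eP_apply (p : ℕ) (e : V →ₗ[k] V) (w : ℕ → ℕ → V) (a b : ℕ) :
    eP p e w a b = if a < p ∧ b < p then
      e (w a b) + (if a = 0 ∨ b = 0 then 0 else w (a - 1) (b - 1)) else 0 := rfl

def GP (p : ℕ) (G : ℤ → Submodule k V) (i : ℤ) : Submodule k (ℕ → ℕ → V) where
  carrier := {w | (∀ a b : ℕ, w a b ∈ G (i - a - b)) ∧ ∀ a b, ¬ (a < p ∧ b < p) → w a b = 0}
  add_mem' := by
    rintro x y ⟨hx, hx'⟩ ⟨hy, hy'⟩
    exact ⟨fun a b => Submodule.add_mem _ (hx a b) (hy a b),
      fun a b hj => by simp [hx' a b hj, hy' a b hj]⟩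
  zero_mem' := ⟨fun a b => Submodule.zero_mem _, fun a b _ => rfl⟩
  smul_mem' := by
    rintro c x ⟨hx, hx'⟩
    exact ⟨fun a b => Submodule.smul_mem _ _ (hx a b), fun a b hj => by simp [hx' a b hj]⟩

lemma eP_mem {p : ℕ} {e : V →ₗ[k] V} {G : ℤ → Submodule k V}
    (he : ∀ i, ∀ v ∈ G i, e v ∈ G (i + 2)) :
    ∀ i, ∀ w ∈ GP p G i, eP p e w ∈ GP p G (i + 2) := by
  rintro i w ⟨hw, hw'⟩
  refine ⟨fun a b => ?_, fun a b hab => ?_⟩
  · rw [eP_apply]
    split_ifs with h1 h2
    · rw [add_zero]
      have := he _ _ (hw a b)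
      rw [show i + 2 - (a : ℤ) - b = i - a - b + 2 by ring]
      exact this
    · push Not at h2
      refine Submodule.add_mem _ ?_ ?_
      · have := he _ _ (hw a b)
        rw [show i + 2 - (a : ℤ) - b = i - a - b + 2 by ring]
        exact this
      · have := hw (a - 1) (b - 1)
        rw [show i + 2 - (a : ℤ) - b = i - (a - 1 : ℕ) - (b - 1 : ℕ) by
          push_cast [Nat.cast_sub (Nat.one_le_iff_ne_zero.mpr h2.1),
            Nat.cast_sub (Nat.one_le_iff_ne_zero.mpr h2.2)]
          ring]
        exact this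
    · exact Submodule.zero_mem _
  · rw [eP_apply, if_neg hab]

theorem LL_pair {p : ℕ} [Fact p.Prime] [CharP k p] {e : V →ₗ[k] V} {G : ℤ → Submodule k V}
    {C : ℤ} (he : ∀ i, ∀ v ∈ G i, e v ∈ G (i + 2)) (h : LL p e G C) :
    LL p (eP p e) (GP p G) (C + (p - 1)) := by
  let len : ℤ → ℕ := fun s => p - s.natAbs
  let base : ℤ → ℤ := fun s => (s.natAbs : ℤ)
  have hchain := LL_chains (S := ℤ) he h len base ((p : ℤ) - 1) (fun s => Nat.sub_le _ _)
    (by intro s hs; simp only [len, base] at hs ⊢; omega)
  let ι : (ℕ → ℕ → V) →ₗ[k] (ℤ → ℕ → V) :=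
    { toFun := fun w s j => if 0 ≤ s then w (s.natAbs + j) j else w j (s.natAbs + j)
      map_add' := by intro x y; funext s j; simp only [Pi.add_apply]; split_ifs <;> rfl
      map_smul' := by intro c x; funext s j; simp only [Pi.smul_apply, RingHom.id_apply]; split_ifs <;> rfl }
  let r : (ℤ → ℕ → V) →ₗ[k] (ℕ → ℕ → V) :=
    { toFun := fun v a b => v ((a : ℤ) - b) (min a b)
      map_add' := by intro x y; rfl
      map_smul' := by intro c x; rfl }
  have hι : ∀ w s j, ι w s j = if 0 ≤ s then w (s.natAbs + j) j else w j (s.natAbs + j) :=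
    fun _ _ _ => rfl
  have hr : ∀ v a b, r v a b = v ((a : ℤ) - b) (min a b) := fun _ _ _ => rfl
  refine LL_retract (e := eS len e) (G := GS len base G) ι r (eS_mem he) (eP_mem he)
    ?_ ?_ ?_ ?_ ?_ hchain
  · rintro i w ⟨hw, hw'⟩ s
    refine ⟨fun j => ?_, fun j hj => ?_⟩
    · rw [hι]
      split_ifs with hs
      · have := hw (s.natAbs + j) j
        rw [show i - base s - 2 * (j : ℤ) = i - ((s.natAbs + j : ℕ) : ℤ) - j by
          simp only [base]; push_cast; ring]
        exact this
      · have := hw j (s.natAbs + j)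
        rw [show i - base s - 2 * (j : ℤ) = i - j - ((s.natAbs + j : ℕ) : ℤ) by
          simp only [base]; push_cast; ring]
        exact this
    · rw [hι]
      simp only [len] at hj
      split_ifs with hs
      · exact hw' _ _ (by omega)
      · exact hw' _ _ (by omega)
  · intro i v hv
    refine ⟨fun a b => ?_, fun a b hab => ?_⟩
    · rw [hr]
      have := (hv ((a : ℤ) - b)).1 (min a b)
      rw [show i - (a : ℤ) - b = i - base ((a : ℤ) - b) - 2 * ((min a b : ℕ) : ℤ) by
        simp only [base]; omega]
      exact this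
    · rw [hr]
      refine (hv ((a : ℤ) - b)).2 (min a b) ?_
      simp only [len]
      omega
  · rintro i w ⟨hw, hw'⟩
    funext s j
    rw [hι, eS_apply, eJ_apply]
    by_cases hs : 0 ≤ s
    · rw [if_pos hs, eP_apply]
      by_cases hj : j < len s
      · rw [if_pos hj, if_pos (by simp only [len] at hj; omega), hι, if_pos hs]
        by_cases hj0 : j = 0
        · rw [if_pos hj0, if_pos (Or.inr hj0)]
        · rw [if_neg hj0, hι, if_pos hs, if_neg (by omega),
            show s.natAbs + j - 1 = s.natAbs + (j - 1) by omega]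
      · rw [if_neg hj, if_neg (by simp only [len] at hj; omega)]
    · rw [if_neg hs, eP_apply]
      by_cases hj : j < len s
      · rw [if_pos hj, if_pos (by simp only [len] at hj; omega), hι, if_neg hs]
        by_cases hj0 : j = 0
        · rw [if_pos hj0, if_pos (Or.inl hj0)]
        · rw [if_neg hj0, hι, if_neg hs, if_neg (by omega),
            show s.natAbs + j - 1 = s.natAbs + (j - 1) by omega]
      · rw [if_neg hj, if_neg (by simp only [len] at hj; omega)]
  · intro i v hv
    funext a b
    rw [hr, eS_apply, eJ_apply, eP_apply, hr]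
    by_cases hab : a < p ∧ b < p
    · rw [if_pos hab, if_pos (by simp only [len]; omega)]
      by_cases h0 : a = 0 ∨ b = 0
      · rw [if_pos h0, if_pos (by omega)]
      · rw [if_neg h0, if_neg (by omega), hr,
          show ((a - 1 : ℕ) : ℤ) - ((b - 1 : ℕ) : ℤ) = (a : ℤ) - b by omega,
          show min (a - 1) (b - 1) = min a b - 1 by omega]
    · rw [if_neg hab, if_neg (by simp only [len]; omega)]
  · rintro i w ⟨hw, hw'⟩
    funext a b
    rw [hr, hι]
    split_ifs with hs
    · rw [show ((a : ℤ) - b).natAbs + min a b = a by omega, show min a b = b by omega]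
    · rw [show ((a : ℤ) - b).natAbs + min a b = b by omega, show min a b = a by omega]

end pair

section single

/-- the operator on `V ⊗ k[z]/(z^p)`, `e + z^2` -/
def eZ (p : ℕ) (e : V →ₗ[k] V) : (ℕ → V) →ₗ[k] (ℕ → V) where
  toFun w c := if c < p then e (w c) + (if c < 2 then 0 else w (c - 2)) else 0
  map_add' x y := by
    funext c
    simp only [Pi.add_apply, map_add]
    split_ifs
    · simp
    · abel
    · simp
  map_smul' c x := by
    funext j
    change (if j < p then e ((c • x) j) + (if j < 2 then 0 else (c • x) (j - 2)) else 0)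
      = c • (if j < p then e (x j) + (if j < 2 then 0 else x (j - 2)) else 0)
    simp only [Pi.smul_apply, map_smul]
    split_ifs <;> simp

lemma eZ_apply (p : ℕ) (e : V →ₗ[k] V) (w : ℕ → V) (c : ℕ) :
    eZ p e w c = if c < p then e (w c) + (if c < 2 then 0 else w (c - 2)) else 0 := rfl

def GZ (p : ℕ) (G : ℤ → Submodule k V) (i : ℤ) : Submodule k (ℕ → V) where
  carrier := {w | (∀ c : ℕ, w c ∈ G (i - c)) ∧ ∀ c, p ≤ c → w c = 0}
  add_mem' := by
    rintro x y ⟨hx, hx'⟩ ⟨hy, hy'⟩
    exact ⟨fun a => Submodule.add_mem _ (hx a) (hy a),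
      fun a hj => by simp [hx' a hj, hy' a hj]⟩
  zero_mem' := ⟨fun a => Submodule.zero_mem _, fun a _ => rfl⟩
  smul_mem' := by
    rintro c x ⟨hx, hx'⟩
    exact ⟨fun a => Submodule.smul_mem _ _ (hx a), fun a hj => by simp [hx' a hj]⟩

lemma eZ_mem {p : ℕ} {e : V →ₗ[k] V} {G : ℤ → Submodule k V}
    (he : ∀ i, ∀ v ∈ G i, e v ∈ G (i + 2)) :
    ∀ i, ∀ w ∈ GZ p G i, eZ p e w ∈ GZ p G (i + 2) := by
  rintro i w ⟨hw, hw'⟩
  refine ⟨fun c => ?_, fun c hc => ?_⟩
  · rw [eZ_apply]
    split_ifs with h1 h2
    · rw [add_zero]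
      have := he _ _ (hw c)
      rw [show i + 2 - (c : ℤ) = i - c + 2 by ring]
      exact this
    · refine Submodule.add_mem _ ?_ ?_
      · have := he _ _ (hw c)
        rw [show i + 2 - (c : ℤ) = i - c + 2 by ring]
        exact this
      · have := hw (c - 2)
        rw [show i + 2 - (c : ℤ) = i - (c - 2 : ℕ) by omega]
        exact this
    · exact Submodule.zero_mem _
  · rw [eZ_apply, if_neg (by omega)]

theorem LL_z {p : ℕ} [Fact p.Prime] [CharP k p] {e : V →ₗ[k] V} {G : ℤ → Submodule k V}
    {C : ℤ} (he : ∀ i, ∀ v ∈ G i, e v ∈ G (i + 2)) (h : LL p e G C) (ρ : ℕ) (hρ : p = 2 * ρ + 1) :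
    LL p (eZ p e) (GZ p G) (C + ρ) := by
  let len : ℕ → ℕ := fun s => if s = 0 then ρ + 1 else if s = 1 then ρ else 0
  let base : ℕ → ℤ := fun s => (s : ℤ)
  have hchain := LL_chains (S := ℕ) he h len base (ρ : ℤ)
    (by intro s; simp only [len]; split_ifs <;> omega)
    (by intro s hs; simp only [len, base] at hs ⊢; split_ifs at hs ⊢ <;> push_cast <;> omega)
  let ι : (ℕ → V) →ₗ[k] (ℕ → ℕ → V) :=
    { toFun := fun w s j => if s < 2 then w (2 * j + s) else 0
      map_add' := by
        intro x y; funext s j; simp only [Pi.add_apply]; split_ifs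
        · rfl
        · simp
      map_smul' := by
        intro c x; funext s j; simp only [Pi.smul_apply, RingHom.id_apply]; split_ifs
        · rfl
        · simp }
  let r : (ℕ → ℕ → V) →ₗ[k] (ℕ → V) :=
    { toFun := fun v c => v (c % 2) (c / 2)
      map_add' := by intro x y; rfl
      map_smul' := by intro c x; rfl }
  have hι : ∀ w s j, ι w s j = if s < 2 then w (2 * j + s) else 0 :=
    fun _ _ _ => rfl
  have hr : ∀ v c, r v c = v (c % 2) (c / 2) := fun _ _ => rfl
  have hlen : ∀ s j, s < 2 → (j < len s ↔ 2 * j + s < p) := by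
    intro s j hs
    simp only [len]
    split_ifs <;> omega
  refine LL_retract (e := eS len e) (G := GS len base G) ι r (eS_mem he) (eZ_mem he)
    ?_ ?_ ?_ ?_ ?_ hchain
  · rintro i w ⟨hw, hw'⟩ s
    refine ⟨fun j => ?_, fun j hj => ?_⟩
    · rw [hι]
      split_ifs with hs
      · have := hw (2 * j + s)
        rw [show i - base s - 2 * (j : ℤ) = i - ((2 * j + s : ℕ) : ℤ) by
          simp only [base]; push_cast; ring]
        exact this
      · exact Submodule.zero_mem _
    · rw [hι]
      split_ifs with hs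
      · refine hw' _ ?_
        have := hlen s j hs
        omega
      · rfl
  · intro i v hv
    refine ⟨fun c => ?_, fun c hc => ?_⟩
    · rw [hr]
      have := (hv (c % 2)).1 (c / 2)
      rw [show i - (c : ℤ) = i - base (c % 2) - 2 * ((c / 2 : ℕ) : ℤ) by
        simp only [base]; omega]
      exact this
    · rw [hr]
      refine (hv (c % 2)).2 (c / 2) ?_
      have := hlen (c % 2) (c / 2) (Nat.mod_lt _ (by norm_num))
      omega
  · rintro i w ⟨hw, hw'⟩
    funext s j
    rw [hι, eS_apply, eJ_apply, eZ_apply]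
    by_cases hs : s < 2
    · rw [if_pos hs]
      have hl := hlen s j hs
      by_cases hj : j < len s
      · rw [if_pos hj, if_pos (hl.mp hj), hι, if_pos hs]
        by_cases hj0 : j = 0
        · rw [if_pos hj0, if_pos (by omega)]
        · rw [if_neg hj0, hι, if_pos hs, if_neg (by omega),
            show 2 * j + s - 2 = 2 * (j - 1) + s by omega]
      · rw [if_neg hj, if_neg (fun h => hj (hl.mpr h))]
    · rw [if_neg hs]
      have : len s = 0 := by simp only [len]; rw [if_neg (by omega), if_neg (by omega)]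
      rw [this, if_neg (by omega)]
  · intro i v hv
    funext c
    rw [hr, eS_apply, eJ_apply, eZ_apply, hr]
    have hl := hlen (c % 2) (c / 2) (Nat.mod_lt _ (by norm_num))
    by_cases hc : c < p
    · rw [if_pos hc, if_pos (by omega)]
      by_cases h0 : c < 2
      · rw [if_pos h0, if_pos (by omega)]
      · rw [if_neg h0, if_neg (by omega), hr, show (c - 2) % 2 = c % 2 by omega,
          show (c - 2) / 2 = c / 2 - 1 by omega]
    · rw [if_neg hc, if_neg (by omega)]
  · rintro i w ⟨hw, hw'⟩
    funext c
    rw [hr, hι, if_pos (Nat.mod_lt _ (by norm_num)), Nat.div_add_mod]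

end single

end Pool.Agent.Lib.MP_71be78_ag
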