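import Pool.Agent.Lib.MP_71be78_ag.Strings

/-!
The truncated polynomial ring `k[x_i, y_i, z]/(x_i^p, y_i^p, z^p)` (as functions of the exponents)
with multiplication by `∑ x_i y_i + z^2`.
-/

set_option autoImplicit false

namespace Pool.Agent.Lib.MP_71be78_ag

variable (k : Type*) [Field k]

/-- functions of the exponents of `x`, `y`, `z` -/
abbrev AF (n : ℕ) : Type _ := (Fin n → ℕ) → (Fin n → ℕ) → ℕ → k

variable {k}

def box (p n : ℕ) (α β : Fin n → ℕ) (ζ : ℕ) : Prop :=
  (∀ i, α i < p) ∧ (∀ i, β i < p) ∧ ζ < p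

instance (p n : ℕ) (α β : Fin n → ℕ) (ζ : ℕ) : Decidable (box p n α β ζ) := by
  unfold box; infer_instance

/-- multiplication by `∑ x_i y_i + z^2` in the truncated ring -/
def opA (p n : ℕ) : AF k n →ₗ[k] AF k n where
  toFun u α β ζ := if box p n α β ζ then
      (∑ i, if α i = 0 ∨ β i = 0 then 0
        else u (Function.update α i (α i - 1)) (Function.update β i (β i - 1)) ζ)
      + (if ζ < 2 then 0 else u α β (ζ - 2)) else 0
  map_add' x y := by
    funext α β ζ
    simp only [Pi.add_apply]
    by_cases h : box p n α β ζ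
    · rw [if_pos h, if_pos h, if_pos h]
      have h1 : ∀ i, (if α i = 0 ∨ β i = 0 then (0 : k) else
          x (Function.update α i (α i - 1)) (Function.update β i (β i - 1)) ζ
          + y (Function.update α i (α i - 1)) (Function.update β i (β i - 1)) ζ)
          = (if α i = 0 ∨ β i = 0 then (0 : k) else
          x (Function.update α i (α i - 1)) (Function.update β i (β i - 1)) ζ)
          + (if α i = 0 ∨ β i = 0 then (0 : k) else
          y (Function.update α i (α i - 1)) (Function.update β i (β i - 1)) ζ) := by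
        intro i; split_ifs <;> simp
      rw [Finset.sum_congr rfl (fun i _ => h1 i), Finset.sum_add_distrib]
      split_ifs <;> ring
    · rw [if_neg h, if_neg h, if_neg h, add_zero]
  map_smul' c x := by
    funext α β ζ
    simp only [Pi.smul_apply, smul_eq_mul, RingHom.id_apply]
    by_cases h : box p n α β ζ
    · rw [if_pos h, if_pos h, mul_add, Finset.mul_sum]
      congr 1
      · refine Finset.sum_congr rfl (fun i _ => ?_)
        split_ifs <;> simp
      · split_ifs <;> simp
    · rw [if_neg h, if_neg h, mul_zero]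

lemma opA_apply (p n : ℕ) (u : AF k n) (α β : Fin n → ℕ) (ζ : ℕ) :
    opA p n u α β ζ = if box p n α β ζ then
      (∑ i, if α i = 0 ∨ β i = 0 then 0
        else u (Function.update α i (α i - 1)) (Function.update β i (β i - 1)) ζ)
      + (if ζ < 2 then 0 else u α β (ζ - 2)) else 0 := rfl

def GA (p n : ℕ) (i : ℤ) : Submodule k (AF k n) where
  carrier := {u | ∀ α β ζ, u α β ζ ≠ 0 →
    box p n α β ζ ∧ (∑ j, (α j : ℤ)) + (∑ j, (β j : ℤ)) + ζ = i}
  add_mem' := by
    intro x y hx hy α β ζ h
    by_cases h1 : x α β ζ = 0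
    · refine hy α β ζ ?_
      intro h2
      exact h (by simp [h1, h2])
    · exact hx α β ζ h1
  zero_mem' := by
    intro α β ζ h
    exact absurd rfl h
  smul_mem' := by
    intro c x hx α β ζ h
    refine hx α β ζ ?_
    intro h2
    exact h (by simp [h2])

lemma mem_GA {p n : ℕ} {i : ℤ} {u : AF k n} : u ∈ GA p n i ↔ ∀ α β ζ, u α β ζ ≠ 0 →
    box p n α β ζ ∧ (∑ j, (α j : ℤ)) + (∑ j, (β j : ℤ)) + ζ = i := Iff.rfl

lemma sum_update_sub (n : ℕ) (α : Fin n → ℕ) (i : Fin n) (h : α i ≠ 0) :
    (∑ j, ((Function.update α i (α i - 1)) j : ℤ)) = (∑ j, (α j : ℤ)) - 1 := by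
  rw [Fintype.sum_eq_add_sum_compl i, Fintype.sum_eq_add_sum_compl i (fun j => (α j : ℤ))]
  simp only [Function.update_self]
  have : ∑ j ∈ {i}ᶜ, ((Function.update α i (α i - 1)) j : ℤ) = ∑ j ∈ {i}ᶜ, (α j : ℤ) := by
    refine Finset.sum_congr rfl (fun j hj => ?_)
    rw [Function.update_of_ne (by simpa using hj)]
  rw [this]
  push_cast [Nat.cast_sub (Nat.one_le_iff_ne_zero.mpr h)]
  ring

lemma opA_mem {p n : ℕ} : ∀ i, ∀ u ∈ GA (k := k) p n i, opA p n u ∈ GA (k := k) p n (i + 2) := by
  intro i u hu α β ζ h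
  rw [opA_apply] at h
  by_cases hb : box p n α β ζ
  swap
  · rw [if_neg hb] at h; exact absurd rfl h
  refine ⟨hb, ?_⟩
  rw [if_pos hb] at h
  by_cases h1 : (∑ i, if α i = 0 ∨ β i = 0 then (0 : k)
        else u (Function.update α i (α i - 1)) (Function.update β i (β i - 1)) ζ) = 0
  · rw [h1, zero_add] at h
    by_cases hz : ζ < 2
    · rw [if_pos hz] at h; exact absurd rfl h
    · rw [if_neg hz] at h
      have := (hu _ _ _ h).2
      omega
  · obtain ⟨i0, -, hi0⟩ := Finset.exists_ne_zero_of_sum_ne_zero h1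
    split_ifs at hi0 with hab
    · exact absurd rfl hi0
    · push Not at hab
      have := (hu _ _ _ hi0).2
      rw [sum_update_sub n α i0 hab.1, sum_update_sub n β i0 hab.2] at this
      linarith

/-- trivial graded module `k` -/
def G0 (i : ℤ) : Submodule k k := if i = 0 then ⊤ else ⊥

lemma LL_base (p : ℕ) : LL (k := k) (V := k) p 0 G0 0 := by
  intro t ht i hi v hv hv0
  have hv1 : v = 0 := by
    by_cases h0 : i = 0
    · subst h0
      have : t = 0 := by omega
      subst this
      simpa using hv0
    · unfold G0 at hv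
      rw [if_neg h0] at hv
      simpa using hv
  refine ⟨0, Submodule.zero_mem _, ?_⟩
  rw [map_zero, hv1]

theorem LL_A0 {p : ℕ} [Fact p.Prime] [CharP k p] (ρ : ℕ) (hρ : p = 2 * ρ + 1) :
    LL (k := k) p (opA p 0) (GA p 0) ρ := by
  have h := LL_z (k := k) (V := k) (p := p) (e := 0) (G := G0) (C := 0)
    (by intro i v hv; simp) (LL_base p) ρ hρ
  rw [zero_add] at h
  let ι : AF k 0 →ₗ[k] (ℕ → k) :=
    { toFun := fun u ζ => u default default ζ
      map_add' := by intro x y; rfl
      map_smul' := by intro c x; rfl }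
  let r : (ℕ → k) →ₗ[k] AF k 0 :=
    { toFun := fun w _ _ ζ => w ζ
      map_add' := by intro x y; rfl
      map_smul' := by intro c x; rfl }
  have hι : ∀ u ζ, ι u ζ = u default default ζ := fun _ _ => rfl
  have hr : ∀ w α β ζ, r w α β ζ = w ζ := fun _ _ _ _ => rfl
  have hG0 : ∀ i (v : k), v ∈ G0 (k := k) i ↔ (v ≠ 0 → i = 0) := by
    intro i v
    unfold G0
    split_ifs with h0
    · simp [h0]
    · simp only [Submodule.mem_bot]
      constructor
      · intro hv hv'; exact absurd hv hv'
      · intro hv; by_contra hv'; exact h0 (hv hv')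
  refine LL_retract (e := eZ p 0) (G := GZ p G0) ι r
    (eZ_mem (by intro i v hv; simp)) opA_mem ?_ ?_ ?_ ?_ ?_ h
  · intro i u hu
    refine ⟨fun c => ?_, fun c hc => ?_⟩
    · rw [hG0, hι]
      intro hne
      have := (hu _ _ _ hne).2
      simp at this
      omega
    · rw [hι]
      by_contra hne
      have := (hu _ _ _ hne).1.2.2
      omega
  · rintro i w ⟨hw, hw'⟩ α β ζ hne
    rw [hr] at hne
    have h1 := (hG0 _ _).mp (hw ζ) hne
    refine ⟨⟨fun i => i.elim0, fun i => i.elim0, ?_⟩, ?_⟩
    · by_contra hlt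
      exact hne (hw' ζ (by omega))
    · simp; omega
  · intro i u hu
    funext c
    rw [hι, opA_apply, eZ_apply]
    have hbox : box p 0 default default c ↔ c < p := by simp [box]
    by_cases hc : c < p
    · rw [if_pos (hbox.mpr hc), if_pos hc]
      simp [hι]
    · rw [if_neg (fun h => hc (hbox.mp h)), if_neg hc]
  · intro i w hw
    funext α β ζ
    rw [hr, opA_apply, eZ_apply]
    have hbox : box p 0 α β ζ ↔ ζ < p := by simp [box]
    by_cases hc : ζ < p
    · rw [if_pos (hbox.mpr hc), if_pos hc]
      simp [hr]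
    · rw [if_neg (fun h => hc (hbox.mp h)), if_neg hc]
  · intro i u hu
    funext α β ζ
    rw [hr, hι]
    rw [Subsingleton.elim α default, Subsingleton.elim β default]

theorem LL_A {p : ℕ} [Fact p.Prime] [CharP k p] (ρ : ℕ) (hρ : p = 2 * ρ + 1) (n : ℕ) :
    LL (k := k) p (opA p n) (GA p n) (n * (p - 1) + ρ) := by
  induction n with
  | zero => simpa using LL_A0 ρ hρ
  | succ n ih =>
    have h := LL_pair (p := p) opA_mem ih
    let ι : AF k (n + 1) →ₗ[k] (ℕ → ℕ → AF k n) :=
      { toFun := fun u a b α β ζ => u (Fin.cons a α) (Fin.cons b β) ζ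
        map_add' := by intro x y; rfl
        map_smul' := by intro c x; rfl }
    let r : (ℕ → ℕ → AF k n) →ₗ[k] AF k (n + 1) :=
      { toFun := fun w α β ζ => w (α 0) (β 0) (Fin.tail α) (Fin.tail β) ζ
        map_add' := by intro x y; rfl
        map_smul' := by intro c x; rfl }
    have hι : ∀ u a b α β ζ, ι u a b α β ζ = u (Fin.cons a α) (Fin.cons b β) ζ :=
      fun _ _ _ _ _ _ => rfl
    have hr : ∀ w α β ζ, r w α β ζ = w (α 0) (β 0) (Fin.tail α) (Fin.tail β) ζ :=
      fun _ _ _ _ => rfl
    have hbox : ∀ a b (α β : Fin n → ℕ) ζ,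
        box p (n + 1) (Fin.cons a α) (Fin.cons b β) ζ ↔ (a < p ∧ b < p) ∧ box p n α β ζ := by
      intro a b α β ζ
      simp only [box, Fin.forall_fin_succ, Fin.cons_zero, Fin.cons_succ]
      tauto
    have hbox' : ∀ (α β : Fin (n + 1) → ℕ) ζ,
        box p (n + 1) α β ζ ↔ (α 0 < p ∧ β 0 < p) ∧ box p n (Fin.tail α) (Fin.tail β) ζ := by
      intro α β ζ
      rw [← hbox, Fin.cons_self_tail, Fin.cons_self_tail]
    have hC : ((n : ℤ) * (p - 1) + ρ) + (p - 1) = ((n + 1 : ℕ) : ℤ) * (p - 1) + ρ := by
      push_cast; ring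
    rw [hC] at h
    refine LL_retract (e := eP p (opA p n)) (G := GP p (GA p n)) ι r
      (eP_mem opA_mem) opA_mem ?_ ?_ ?_ ?_ ?_ h
    · intro i u hu
      refine ⟨fun a b α β ζ hne => ?_, fun a b hab => ?_⟩
      · rw [hι] at hne
        obtain ⟨h1, h2⟩ := hu _ _ _ hne
        rw [hbox] at h1
        refine ⟨h1.2, ?_⟩
        simp only [Fin.sum_univ_succ, Fin.cons_zero, Fin.cons_succ] at h2
        linarith
      · funext α β ζ
        by_contra hne
        rw [hι] at hne
        have h1 := (hu _ _ _ hne).1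
        rw [hbox] at h1
        exact hab h1.1
    · rintro i w ⟨hw, hw'⟩ α β ζ hne
      rw [hr] at hne
      obtain ⟨h1, h2⟩ := hw _ _ _ _ _ hne
      refine ⟨?_, ?_⟩
      · rw [hbox']
        refine ⟨?_, h1⟩
        by_contra hab
        rw [hw' _ _ hab] at hne
        exact hne rfl
      · simp only [Fin.sum_univ_succ]
        simp only [Fin.tail] at h2
        linarith
    · intro i u hu
      funext a b α β ζ
      rw [hι, opA_apply, eP_apply]
      by_cases hb : box p (n + 1) (Fin.cons a α) (Fin.cons b β) ζ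
      · rw [if_pos hb]
        have hb' := (hbox _ _ _ _ _).mp hb
        rw [if_pos hb'.1, Fin.sum_univ_succ]
        simp only [Pi.add_apply]
        rw [opA_apply, if_pos hb'.2]
        simp only [Fin.cons_zero, Fin.cons_succ, Fin.update_cons_zero, ← Fin.cons_update]
        by_cases h0 : a = 0 ∨ b = 0
        · rw [if_pos h0, if_pos h0]
          simp only [hι, Pi.zero_apply]
          ring
        · rw [if_neg h0, if_neg h0]
          simp only [hι]
          ring
      · rw [if_neg hb]
        by_cases hab : a < p ∧ b < p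
        · rw [if_pos hab]
          simp only [Pi.add_apply]
          have hb2 : ¬ box p n α β ζ := fun h => hb ((hbox _ _ _ _ _).mpr ⟨hab, h⟩)
          rw [opA_apply, if_neg hb2, zero_add]
          by_cases h0 : a = 0 ∨ b = 0
          · rw [if_pos h0]; rfl
          · rw [if_neg h0, hι]
            by_contra hne
            have h1 := (hu _ _ _ (Ne.symm hne)).1
            rw [hbox] at h1
            exact hb2 h1.2
        · rw [if_neg hab]; rfl
    · rintro i w ⟨hw, hw'⟩
      funext α β ζ
      rw [hr, opA_apply, eP_apply]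
      by_cases hb : box p (n + 1) α β ζ
      · rw [if_pos hb]
        have hb' := (hbox' _ _ _).mp hb
        rw [if_pos hb'.1, Fin.sum_univ_succ]
        simp only [Pi.add_apply]
        rw [opA_apply, if_pos hb'.2]
        have e1 : ∀ i : Fin n, Fin.tail (Function.update α i.succ (α i.succ - 1))
            = Function.update (Fin.tail α) i ((Fin.tail α) i - 1) := by
          intro i; rw [Fin.tail_update_succ]; rfl
        have e2 : ∀ i : Fin n, Fin.tail (Function.update β i.succ (β i.succ - 1))
            = Function.update (Fin.tail β) i ((Fin.tail β) i - 1) := by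
          intro i; rw [Fin.tail_update_succ]; rfl
        have e3 : ∀ i : Fin n, Function.update α i.succ (α i.succ - 1) 0 = α 0 := by
          intro i; rw [Function.update_of_ne (Fin.succ_ne_zero i).symm]
        have e4 : ∀ i : Fin n, Function.update β i.succ (β i.succ - 1) 0 = β 0 := by
          intro i; rw [Function.update_of_ne (Fin.succ_ne_zero i).symm]
        simp only [hr, e1, e2, e3, e4, Function.update_self, Fin.tail_update_zero]
        by_cases h0 : α 0 = 0 ∨ β 0 = 0
        · rw [if_pos h0, if_pos h0]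
          simp only [Pi.zero_apply, zero_add, add_zero]
          rfl
        · rw [if_neg h0, if_neg h0]
          have hcomm : ∀ x y z : k, (x + y) + z = (z + x) + y := by
            intro x y z; ring
          exact hcomm _ _ _
      · rw [if_neg hb]
        by_cases hab : α 0 < p ∧ β 0 < p
        · rw [if_pos hab]
          simp only [Pi.add_apply]
          have hb2 : ¬ box p n (Fin.tail α) (Fin.tail β) ζ :=
            fun h => hb ((hbox' _ _ _).mpr ⟨hab, h⟩)
          rw [opA_apply, if_neg hb2, zero_add]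
          by_cases h0 : α 0 = 0 ∨ β 0 = 0
          · rw [if_pos h0]; rfl
          · rw [if_neg h0]
            by_contra hne
            have h1 := (hw _ _ _ _ _ hne).1
            exact hb2 h1
        · rw [if_neg hab]; rfl
    · intro i u hu
      funext α β ζ
      rw [hr, hι, Fin.cons_self_tail, Fin.cons_self_tail]

end Pool.Agent.Lib.MP_71be78_ag
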